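import Pool.Agent.Lib.MP_de9007_nt.PS.Stmt

/-! Principal units, monomials, sizes. -/

namespace Pool.Agent.Lib.MP_de9007_nt.PS

open NumberField

section Padic

variable {q : ℕ} [hq : Fact q.Prime]

theorem pu_norm {y : ℚ_[q]} (h : ‖y - 1‖ < 1) : ‖y‖ = 1 := by
  have := Padic.add_eq_max_of_ne (q := y - 1) (r := (1 : ℚ_[q])) (by rw [norm_one]; exact h.ne)
  rw [sub_add_cancel, norm_one] at this
  rw [this, max_eq_right h.le]

theorem pu_mul {x y : ℚ_[q]} (hx : ‖x - 1‖ < 1) (hy : ‖y - 1‖ < 1) : ‖x * y - 1‖ < 1 := by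
  have e : x * y - 1 = (x - 1) * y + (y - 1) := by ring
  rw [e]
  refine (Padic.nonarchimedean _ _).trans_lt (max_lt ?_ hy)
  rw [norm_mul, pu_norm hy, mul_one]
  exact hx

theorem pu_inv {x : ℚ_[q]} (hx : ‖x - 1‖ < 1) : ‖x⁻¹ - 1‖ < 1 := by
  have h1 := pu_norm hx
  have h0 : x ≠ 0 := by rintro rfl; simp at h1
  have e : x⁻¹ - 1 = -(x - 1) * x⁻¹ := by field_simp; ring
  rw [e, norm_mul, norm_neg, norm_inv, h1, inv_one, mul_one]
  exact hx

theorem pu_pow {x : ℚ_[q]} (hx : ‖x - 1‖ < 1) (n : ℕ) : ‖x ^ n - 1‖ < 1 := by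
  induction n with
  | zero => simp
  | succ n ih => rw [pow_succ]; exact pu_mul ih hx

theorem pu_zpow {x : ℚ_[q]} (hx : ‖x - 1‖ < 1) (n : ℤ) : ‖x ^ n - 1‖ < 1 := by
  rcases n with n | n
  · simpa using pu_pow hx n
  · rw [zpow_negSucc]; exact pu_inv (pu_pow hx _)

theorem pu_prod {ι : Type} (I : Finset ι) (x : ι → ℚ_[q]) (hx : ∀ i ∈ I, ‖x i - 1‖ < 1) :
    ‖∏ i ∈ I, x i - 1‖ < 1 :=
  Finset.prod_induction x (fun y => ‖y - 1‖ < 1) (fun _ _ => pu_mul) (by simp) hx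

theorem norm_two (h2 : q ≠ 2) : ‖(2 : ℚ_[q])‖ = 1 := by
  have : ‖((2 : ℕ) : ℚ_[q])‖ = 1 :=
    Padic.norm_natCast_eq_one_iff.2 ((Nat.coprime_primes hq.out Nat.prime_two).2 h2)
  simpa using this

theorem pu_eq_one (h2 : q ≠ 2) {y : ℚ_[q]} (hy : ‖y - 1‖ < 1) (e : ℕ) (h : y ^ 2 ^ e = 1) :
    y = 1 := by
  induction e with
  | zero => simpa using h
  | succ e ih =>
    apply ih
    rw [pow_succ, pow_mul] at h
    rcases sq_eq_sq_iff_eq_or_eq_neg.1 (h.trans (one_pow 2).symm) with c | c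
    · exact c
    · have h1 := pu_pow hy (2 ^ e)
      rw [c, show (-1 - 1 : ℚ_[q]) = -2 by norm_num, norm_neg, norm_two h2] at h1
      exact absurd h1 (lt_irrefl _)

theorem pu_sqrt (h2 : q ≠ 2) {y : ℚ_[q]} (hy : ‖y - 1‖ < 1) :
    ∃ r : ℚ_[q], ‖r - 1‖ < 1 ∧ r ^ 2 = y := by
  let u : ℤ_[q] := ⟨y, (pu_norm hy).le⟩
  have h3 : ‖(2 : ℤ_[q])‖ = 1 := by
    rw [PadicInt.norm_def]
    exact norm_two h2
  have h := hensels_lemma (p := q) (R := ℤ_[q]) (F := Polynomial.X ^ 2 - Polynomial.C u) (a := 1) (by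
    simp only [map_sub, map_pow, Polynomial.aeval_X, one_pow, Polynomial.aeval_C,
      Polynomial.derivative_X_pow, Polynomial.derivative_C, sub_zero, map_mul]
    simp only [Algebra.algebraMap_self, RingHom.id_apply, Nat.cast_ofNat, mul_one, h3, one_pow]
    rw [PadicInt.norm_def, PadicInt.coe_sub, norm_sub_rev]
    exact hy)
  obtain ⟨z, h1, h4, -⟩ := h
  refine ⟨z, ?_, ?_⟩
  · simp only [Polynomial.derivative_sub, Polynomial.derivative_X_pow, Polynomial.derivative_C,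
      sub_zero, map_mul, map_pow, Polynomial.aeval_X, one_pow, Polynomial.aeval_C] at h4
    simp only [Algebra.algebraMap_self, RingHom.id_apply, Nat.cast_ofNat, mul_one, h3] at h4
    rw [PadicInt.norm_def, PadicInt.coe_sub] at h4
    exact h4
  · simp only [map_sub, map_pow, Polynomial.aeval_X, Polynomial.aeval_C] at h1
    have := congrArg (fun t : ℤ_[q] => (t : ℚ_[q])) (sub_eq_zero.1 h1)
    simpa using this

end Padic

section Mon

variable {κ : Type}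

theorem mon_zero (w : κ → ℤ) : mon w 0 = 1 := by simp [mon]

theorem mon_cons (w : κ → ℤ) (a : κ) (τ : Multiset κ) : mon w (a ::ₘ τ) = w a * mon w τ := by
  simp [mon]

theorem mon_le {w : κ → ℤ} {D : ℕ} (h : ∀ a, |w a| ≤ D) (τ : Multiset κ) :
    |mon w τ| ≤ (D : ℤ) ^ τ.card := by
  induction τ using Multiset.induction_on with
  | empty => simp [mon]
  | cons a τ ih =>
    rw [mon_cons, abs_mul, Multiset.card_cons, pow_succ']
    exact mul_le_mul (h a) ih (abs_nonneg _) (Nat.cast_nonneg _)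

theorem transfer [Fintype κ] {ι L : Type} [Field L] [CharZero L] (I : Finset ι) (c : ι → ℤ)
    (w x : ι → κ → ℤ) (y : ι → L) {D : ℕ} (hD : 0 < D) (n : κ → κ → ℤ)
    (hn : ∀ i m, D * x i m = ∑ a, n m a * w i a) {m : ℕ}
    (h : ∀ τ : Multiset κ, τ.card ≤ m → ∑ i ∈ I, ((c i * mon (w i) τ : ℤ) : L) * y i = 0)
    (τ' τ : Multiset κ) (hc : τ.card + τ'.card ≤ m) :
    ∑ i ∈ I, ((c i * mon (w i) τ * mon (x i) τ' : ℤ) : L) * y i = 0 := by
  induction τ' using Multiset.induction_on generalizing τ with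
  | empty => simpa [mon_zero] using h τ (by simpa using hc)
  | cons b τ' ih =>
    have h0 : (D : L) ≠ 0 := Nat.cast_ne_zero.2 hD.ne'
    refine (mul_eq_zero.1 ?_).resolve_left h0
    have e : ∀ i, (D : L) * (((c i * mon (w i) τ * mon (x i) (b ::ₘ τ') : ℤ) : L) * y i) =
        ∑ a, (n b a : L) * (((c i * mon (w i) (a ::ₘ τ) * mon (x i) τ' : ℤ) : L) * y i) := by
      intro i
      have h1 := congrArg (fun z : ℤ => (z : L)) (hn i b)
      simp only [mon_cons]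
      push_cast at h1 ⊢
      rw [show (D : L) * ((c i : L) * mon (w i) τ * (x i b * mon (x i) τ') * y i) =
        ((D : L) * x i b) * ((c i : L) * mon (w i) τ * mon (x i) τ' * y i) by ring, h1,
        Finset.sum_mul]
      exact Finset.sum_congr rfl fun a _ => by ring
    rw [Finset.mul_sum, Finset.sum_congr rfl fun i _ => e i, Finset.sum_comm]
    refine Finset.sum_eq_zero fun a _ => ?_
    rw [← Finset.mul_sum, ih (a ::ₘ τ) (by simp only [Multiset.card_cons] at hc ⊢; omega), mul_zero]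

end Mon

section Size

variable {L F : Type} [Field L] [Field F] [Algebra L F]

theorem size {θ : L} {Dn : ℤ} {G : ℕ} (hD : |Dn| ≤ G) (h1 : IsIntegral ℤ (Dn * θ))
    (h2 : ∀ σ : L →+* ℂ, ‖σ (Dn * θ)‖ ≤ G) {ρ : F} {e s μ : ℕ} (he : 0 < e)
    (hρ : ρ ^ e = algebraMap L F θ) (hs : s ≤ e * μ) :
    IsIntegral ℤ ((Dn : F) ^ μ * ρ ^ s) ∧
      ∀ τ : F →+* ℂ, ‖τ ((Dn : F) ^ μ * ρ ^ s)‖ ≤ (G : ℝ) ^ μ := by
  obtain ⟨k, hk⟩ := Nat.exists_eq_add_of_le hs
  have e1 : ((Dn : F) ^ μ * ρ ^ s) ^ e = (Dn : F) ^ k * algebraMap L F (Dn * θ) ^ s := by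
    rw [mul_pow, ← pow_mul, ← pow_mul, mul_comm μ e, hk, mul_comm s e, pow_mul ρ, hρ, map_mul,
      map_intCast]
    ring
  have i1 : IsIntegral ℤ (Dn : F) := by
    rw [← eq_intCast (algebraMap ℤ F) Dn]; exact isIntegral_algebraMap
  refine ⟨IsIntegral.of_pow he ?_, fun τ => ?_⟩
  · rw [e1]
    exact (i1.pow _).mul ((map_isIntegral_int (algebraMap L F) h1).pow _)
  · refine le_of_pow_le_pow_left₀ he.ne' (by positivity) ?_
    rw [← norm_pow, ← map_pow, e1, ← pow_mul, mul_comm μ e, hk, map_mul, map_pow, map_pow,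
      norm_mul, norm_pow, norm_pow, map_intCast, pow_add, mul_comm]
    have a1 : ‖(Dn : ℂ)‖ ≤ G := by
      rw [Complex.norm_intCast]; exact_mod_cast hD
    have a2 := h2 (τ.comp (algebraMap L F))
    rw [RingHom.comp_apply] at a2
    gcongr

theorem zero_of (hLV : LV) [NumberField F] {q : ℕ} [Fact q.Prime] (ψ : F →+* ℚ_[q]) {ι : Type}
    (I : Finset ι) (θ : ι → L) {Dn : ℤ} {G : ℕ} (hD0 : Dn ≠ 0) (hD : |Dn| ≤ G)
    (h1 : ∀ i ∈ I, IsIntegral ℤ (Dn * θ i)) (h2 : ∀ i ∈ I, ∀ σ : L →+* ℂ, ‖σ (Dn * θ i)‖ ≤ G)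
    (ρ : ι → F) {e s μ : ℕ} (he : 0 < e) (hρ : ∀ i ∈ I, ρ i ^ e = algebraMap L F (θ i))
    (hs : s ≤ e * μ) (a : ι → ℤ) {Y : ℕ} (hY0 : 0 < Y) (hY : ∑ i ∈ I, |a i| ≤ Y) {f n : ℕ}
    (hf : Module.finrank ℚ F ≤ f) (hn : ‖∑ i ∈ I, (a i : ℚ_[q]) * ψ (ρ i) ^ s‖ ≤ (q : ℝ) ^ (-(n : ℤ)))
    (hlt : (Y * G ^ μ) ^ f < q ^ n) : ∑ i ∈ I, (a i : F) * ρ i ^ s = 0 := by
  have hG : 0 < G := by
    have := abs_pos.2 hD0
    omega
  have e1 : (Dn : F) ^ μ * ∑ i ∈ I, (a i : F) * ρ i ^ s =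
      ∑ i ∈ I, (a i : F) * ((Dn : F) ^ μ * ρ i ^ s) := by
    rw [Finset.mul_sum]; exact Finset.sum_congr rfl fun i _ => by ring
  have h := hLV F q ψ ((Dn : F) ^ μ * ∑ i ∈ I, (a i : F) * ρ i ^ s) (Y * G ^ μ) f n
    (by positivity) hf ?_ ?_ ?_ hlt
  · exact (mul_eq_zero.1 h).resolve_left (pow_ne_zero _ (Int.cast_ne_zero.2 hD0))
  · rw [e1]
    refine IsIntegral.sum _ fun i hi => IsIntegral.mul ?_
      (size hD (h1 i hi) (h2 i hi) he (hρ i hi) hs).1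
    rw [← eq_intCast (algebraMap ℤ F) (a i)]; exact isIntegral_algebraMap
  · intro τ
    rw [e1, map_sum]
    refine (norm_sum_le _ _).trans ?_
    have a1 : (∑ i ∈ I, |(a i : ℝ)|) ≤ Y := by exact_mod_cast hY
    push_cast
    refine le_trans ?_ (mul_le_mul_of_nonneg_right a1 (by positivity))
    rw [Finset.sum_mul]
    refine Finset.sum_le_sum fun i hi => ?_
    rw [map_mul, norm_mul, map_intCast, Complex.norm_intCast]
    exact mul_le_mul_of_nonneg_left ((size hD (h1 i hi) (h2 i hi) he (hρ i hi) hs).2 τ)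
      (abs_nonneg _)
  · rw [map_mul, norm_mul, map_pow, map_intCast, map_sum, norm_pow]
    simp only [map_mul, map_pow, map_intCast]
    refine le_trans (mul_le_of_le_one_left (norm_nonneg _) ?_) hn
    exact pow_le_one₀ (norm_nonneg _) (Padic.norm_int_le_one _)

end Size

end Pool.Agent.Lib.MP_de9007_nt.PS
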