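import Mathlib

/-! Statements of the blocks of the power saving in Stewart's theorem. -/

namespace Pool.Agent.Lib.MP_de9007_nt.PS

open NumberField

/-- The monomial of the integer vector `w` attached to the multiset `τ`. -/
def mon {κ : Type} (w : κ → ℤ) (τ : Multiset κ) : ℤ := (τ.map w).prod

/-- Totally real fields of bounded root discriminant with a place of degree one above `q`. -/
def TW : Prop := ∃ c : ℕ, ∀ (q : ℕ) [Fact q.Prime], c < q → ∀ j : ℕ,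
  ∃ (L : Type) (_ : Field L) (_ : NumberField L), IsTotallyReal L ∧
    Module.finrank ℚ L = 2 ^ (j + 1) ∧ (discr L).natAbs ≤ 2 ^ (c * Module.finrank ℚ L) ∧
    Nonempty (L →+* ℚ_[q])

/-- Integers in a box. -/
def BX : Prop := ∀ (L : Type) [Field L] [NumberField L] [IsTotallyReal L] (X : ℕ)
  (A : Finset L), (∀ x ∈ A, IsIntegral ℤ x) → (∀ x ∈ A, ∀ σ : L →+* ℂ, ‖σ x‖ ≤ X) →
    A.card ≤ (2 * X + 1) ^ Module.finrank ℚ L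

/-- Many units in a logarithmic cube. -/
def MU : Prop := ∀ (L : Type) [Field L] [NumberField L] [IsTotallyReal L] (c m : ℕ),
  (discr L).natAbs ≤ 2 ^ (c * Module.finrank ℚ L) → ∃ E : Finset (𝓞 L)ˣ, 1 ∈ E ∧
    m ^ (Module.finrank ℚ L - 1) ≤
      Module.finrank ℚ L * 2 ^ ((3 * c + 5) * Module.finrank ℚ L) * E.card ∧
    ∀ x ∈ E, ∀ y ∈ E, ∀ σ : L →+* ℂ,
      ‖σ ((x * y⁻¹ : (𝓞 L)ˣ) : 𝓞 L)‖ ≤ 2 ^ (m + (c + 1) * Module.finrank ℚ L)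

/-- Small integral linear forms on a finite family of units. -/
def FM : Prop := ∀ (L : Type) [Field L] [NumberField L] [IsTotallyReal L] (ι : Type) [Fintype ι]
  (ε : ι → (𝓞 L)ˣ) (Δ : ℕ), (∀ i (σ : L →+* ℂ), ‖σ (ε i : 𝓞 L)‖ ≤ 2 ^ Δ) →
  (∀ i (σ : L →+* ℂ), ‖σ (((ε i)⁻¹ : (𝓞 L)ˣ) : 𝓞 L)‖ ≤ 2 ^ Δ) →
  ∃ (D : ℕ) (w x : ι → Fin (Module.finrank ℚ L - 1) → ℤ)
    (φ : Fin (Module.finrank ℚ L - 1) → (𝓞 L)ˣ)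
    (n : Fin (Module.finrank ℚ L - 1) → Fin (Module.finrank ℚ L - 1) → ℤ),
    0 < D ∧ D ≤ (2 * Module.finrank ℚ L * Δ * 5 ^ Module.finrank ℚ L + 1) ^ Module.finrank ℚ L ∧
    (∀ i a, |w i a| ≤ D) ∧ (∀ i, ε i ^ 2 = (∏ m, φ m ^ x i m) ^ 2) ∧
    ∀ i m, D * x i m = ∑ a, n m a * w i a

/-- Siegel's lemma with rational integer unknowns. -/
def SG : Prop := ∀ (L : Type) [Field L] [NumberField L] [IsTotallyReal L] (ι κ : Type)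
  [Fintype ι] [Fintype κ] (β : κ → ι → L) (Z : ℕ), 0 < Z → 0 < Fintype.card ι →
  2 * Module.finrank ℚ L * Fintype.card κ ≤ Fintype.card ι →
  (∀ k i, IsIntegral ℤ (β k i)) → (∀ k i (σ : L →+* ℂ), ‖σ (β k i)‖ ≤ Z) →
  ∃ c : ι → ℤ, c ≠ 0 ∧ (∀ i, |c i| ≤ 2 * Fintype.card ι * Z) ∧ ∀ k, ∑ i, (c i : L) * β k i = 0

/-- Liouville's inequality. -/
def LV : Prop := ∀ (F : Type) [Field F] [NumberField F] (q : ℕ) [Fact q.Prime]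
  (ψ : F →+* ℚ_[q]) (β : F) (Z e n : ℕ), 0 < Z → Module.finrank ℚ F ≤ e → IsIntegral ℤ β →
  (∀ σ : F →+* ℂ, ‖σ β‖ ≤ Z) → ‖ψ β‖ ≤ (q : ℝ) ^ (-(n : ℤ)) → Z ^ e < q ^ n → β = 0

/-- The `q`-adic Schwarz lemma. -/
def SW : Prop := ∀ (q : ℕ) [Fact q.Prime] (n t e : ℕ) (ι κ : Type) [Fintype κ] (I : Finset ι)
  (a k : ι → ℤ) (x : ι → κ → ℤ) (r : ι → ℚ_[q]) (g ρ : ℚ_[q]) (φ : κ → ℚ_[q]) (Z : Finset ℕ),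
  n ≤ q → ¬ q ∣ e → n ≤ Z.card * t →
  (∀ z ∈ Z, ∀ z' ∈ Z, (q : ℤ) ∣ (z : ℤ) - z' → z = z') →
  (∀ i ∈ I, ‖r i - 1‖ < 1) → ‖g‖ = 1 → ‖ρ‖ = 1 → (∀ m, ‖φ m‖ = 1) →
  ‖g ^ (q - 1) - 1‖ ≤ (q : ℝ) ^ (-(n : ℤ)) →
  (∀ i ∈ I, r i ^ e * ρ = g ^ k i * ∏ m, φ m ^ x i m) →
  (∀ z ∈ Z, ∀ τ : Multiset κ, τ.card < t →
    ∑ i ∈ I, ((a i * mon (x i) τ : ℤ) : ℚ_[q]) * r i ^ z = 0) →
  ∀ z : ℕ, ‖∑ i ∈ I, (a i : ℚ_[q]) * r i ^ z‖ ≤ (q : ℝ) ^ (-(n : ℤ))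

/-- Kummer descent. -/
def KD : Prop := ∀ (K Ω : Type) [Field K] [CharZero K] [Field Ω] [Algebra K Ω] (ι κ : Type)
  [Fintype κ] (I : Finset ι) (r : ι → Ω) (u : ι → K) (v : ι → κ → ℤ),
  (∀ i ∈ I, r i ≠ 0) → (∀ i ∈ I, r i ^ 2 = algebraMap K Ω (u i)) →
  (∀ n : ι → ℤ, (∀ m, ∑ i ∈ I, n i * v i m = 0) → ∏ i ∈ I, r i ^ n i = 1) →
  (∃ F : IntermediateField K Ω, FiniteDimensional K F ∧
    Module.finrank K F ≤ 2 ^ Fintype.card κ ∧ ∀ i ∈ I, r i ∈ F) ∧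
  ∀ i₀ ∈ I, ∃ (I' : Finset ι) (u' : ι → K), I' ⊆ I ∧ i₀ ∈ I' ∧
    (∀ i ∈ I', algebraMap K Ω (u' i) * r i₀ = r i) ∧
    ∀ (a : ι → K) (s : ℕ), Odd s → ∑ i ∈ I, algebraMap K Ω (a i) * r i ^ s = 0 →
      ∑ i ∈ I', a i * u' i ^ s = 0

/-- The power saving for the valuation of `a ^ (q - 1) - b ^ (q - 1)`. -/
def VB : Prop := ∃ η : ℝ, 0 < η ∧ ∀ a b : ℤ, a ≠ 0 → b ≠ 0 → a.natAbs ≠ b.natAbs →
  ∃ Q : ℕ, ∀ q n : ℕ, q.Prime → Q ≤ q → (q : ℤ) ^ n ∣ a ^ (q - 1) - b ^ (q - 1) →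
    (n : ℝ) ≤ (q : ℝ) ^ (1 - η)

/-- Large primitive prime divisors. -/
def PD : Prop := ∃ η : ℝ, 0 < η ∧ ∀ a b : ℤ, IsCoprime a b → 1 < a → -a < b → b < a →
  ∃ N : ℕ, ∀ n : ℕ, N ≤ n → ∃ q : ℕ, q.Prime ∧ (n : ℝ) ^ (1 + η) < q ∧
    (q : ℤ) ∣ a ^ n - b ^ n ∧ ∀ m : ℕ, 0 < m → m < n → ¬ (q : ℤ) ∣ a ^ m - b ^ m

end Pool.Agent.Lib.MP_de9007_nt.PS
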