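import Mathlib
import Pool.Agent.Lib.MP_de9007_nt.PS.Stmt

/-! Box count, Siegel lemma and Liouville inequality. -/

namespace Pool.Agent.Lib.MP_de9007_nt.PS

open NumberField

namespace BSLAux

/-- The absolute value of the norm is the product of the absolute values of the conjugates. -/
theorem abs_norm_eq {L : Type} [Field L] [NumberField L] (b : 𝓞 L) :
    ((|Algebra.norm ℤ b| : ℤ) : ℝ) = ∏ σ : L →+* ℂ, ‖σ (b : L)‖ := by
  have h := congr_arg (‖·‖) (Algebra.norm_eq_prod_embeddings ℚ ℂ (b : L))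
  rw [norm_prod, ← Fintype.prod_equiv (RingHom.equivRatAlgHom L ℂ) (fun f => ‖f (b : L)‖)
      (fun φ => ‖φ (b : L)‖) fun _ => by simp [RingHom.equivRatAlgHom_apply]] at h
  rw [← h, ← Algebra.coe_norm_int, eq_ratCast, Rat.cast_intCast, Complex.norm_intCast,
    Int.cast_abs]

/-- An algebraic integer all of whose conjugates are smaller than one vanishes. -/
theorem eq_zero_of_lt_one {L : Type} [Field L] [NumberField L] (x : L) (hx : IsIntegral ℤ x)
    (h : ∀ σ : L →+* ℂ, ‖σ x‖ < 1) : x = 0 := by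
  by_contra hne
  let b : 𝓞 L := ⟨x, hx⟩
  have hb : b ≠ 0 := fun h0 => hne (congrArg (fun y : 𝓞 L => (y : L)) h0)
  have h1 : (1 : ℤ) ≤ |Algebra.norm ℤ b| := Int.one_le_abs (Algebra.norm_ne_zero_iff.mpr hb)
  have h2 : (1 : ℝ) ≤ ∏ σ : L →+* ℂ, ‖σ (b : L)‖ := by
    rw [← abs_norm_eq]; exact_mod_cast h1
  have h3 : ∏ σ : L →+* ℂ, ‖σ (b : L)‖ < ∏ _σ : L →+* ℂ, (1 : ℝ) := by
    refine Finset.prod_lt_prod_of_nonempty (fun σ _ => ?_) (fun σ _ => h σ) Finset.univ_nonempty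
    exact norm_pos_iff.mpr ((map_ne_zero σ).mpr hne)
  rw [Finset.prod_const_one] at h3
  exact absurd h2 (not_le.mpr h3)

theorem norm_eq_abs_re {L : Type} [Field L] [NumberField L] [IsTotallyReal L] (σ : L →+* ℂ)
    (x : L) : ‖σ x‖ = |(σ x).re| := by
  have hσ := IsTotallyReal.complexEmbedding_isReal σ
  rw [← hσ.coe_embedding_apply x, Complex.norm_real, Complex.ofReal_re, Real.norm_eq_abs]

/-- Integers of a totally real field with the same integer parts at all places coincide. -/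
theorem eq_of_floor_eq {L : Type} [Field L] [NumberField L] [IsTotallyReal L] (x y : L)
    (hx : IsIntegral ℤ x) (hy : IsIntegral ℤ y)
    (h : ∀ σ : L →+* ℂ, ⌊(σ x).re⌋ = ⌊(σ y).re⌋) : x = y := by
  rw [← sub_eq_zero]
  refine eq_zero_of_lt_one _ (hx.sub hy) fun σ => ?_
  rw [norm_eq_abs_re, map_sub, Complex.sub_re]
  exact Int.abs_sub_lt_one_of_floor_eq_floor (h σ)

theorem floor_mem (z : ℂ) (X : ℕ) (h : ‖z‖ ≤ X) :
    ⌊z.re⌋ ∈ Finset.Icc (-(X : ℤ)) (X : ℤ) := by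
  have h1 : |z.re| ≤ X := (Complex.abs_re_le_norm z).trans h
  rw [abs_le] at h1
  rw [Finset.mem_Icc]
  constructor
  · rw [Int.le_floor]; push_cast; exact h1.1
  · have h2 : ((⌊z.re⌋ : ℤ) : ℝ) ≤ ((X : ℤ) : ℝ) := by
      push_cast; exact (Int.floor_le _).trans h1.2
    exact_mod_cast h2

theorem card_Icc (X : ℕ) : (Finset.Icc (-(X : ℤ)) (X : ℤ)).card = 2 * X + 1 := by
  rw [Int.card_Icc]; omega

theorem count_lt (X N r : ℕ) (hX : 0 < X) (hN : 0 < N) (hr : 2 * r ≤ N) :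
    (X ^ 2 + 1) ^ r < (X + 1) ^ N := by
  rcases Nat.eq_zero_or_pos r with rfl | hr0
  · rw [pow_zero]; exact Nat.one_lt_pow hN.ne' (by omega)
  · calc (X ^ 2 + 1) ^ r < ((X + 1) ^ 2) ^ r :=
          Nat.pow_lt_pow_left (by nlinarith) hr0.ne'
      _ = (X + 1) ^ (2 * r) := by rw [← pow_mul]
      _ ≤ (X + 1) ^ N := Nat.pow_le_pow_right (by omega) hr

theorem norm_le_one_of_integral {q : ℕ} [Fact q.Prime] (y : ℚ_[q]) (hy : IsIntegral ℤ y) :
    ‖y‖ ≤ 1 := by
  have h1 : IsIntegral ℤ_[q] y := hy.tower_top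
  obtain ⟨z, rfl⟩ := (IsIntegrallyClosed.isIntegral_iff (R := ℤ_[q]) (K := ℚ_[q])).mp h1
  exact z.2

end BSLAux

open BSLAux

theorem BX_thm : BX := by
  intro L _ _ _ X A hA hX
  classical
  have h := Finset.card_le_card_of_injOn (s := A)
    (t := Fintype.piFinset fun _ : L →+* ℂ => Finset.Icc (-(X : ℤ)) (X : ℤ))
    (fun x σ => ⌊(σ x).re⌋)
    (fun x hx => by
      rw [Finset.mem_coe, Fintype.mem_piFinset]
      exact fun σ => floor_mem _ _ (hX x hx σ))
    (fun x hx y hy hxy => eq_of_floor_eq x y (hA x hx) (hA y hy) fun σ => congrFun hxy σ)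
  rwa [Fintype.card_piFinset, Finset.prod_const, card_Icc, Finset.card_univ,
    Embeddings.card] at h

theorem SG_thm : SG := by
  intro L _ _ _ ι κ _ _ β Z hZ hN hd hβ hb
  classical
  set N := Fintype.card ι with hNdef
  set X := 2 * N * Z with hXdef
  have hX : 0 < X := by positivity
  have hint : ∀ (c : ι → ℤ) (k : κ), IsIntegral ℤ (∑ i, (c i : L) * β k i) := fun c k =>
    IsIntegral.sum _ fun i _ => (isIntegral_algebraMap (R := ℤ) (x := c i)).mul (hβ k i)
  have hcard : (Fintype.piFinset fun _ : κ × (L →+* ℂ) =>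
      Finset.Icc (-((N * X * Z : ℕ) : ℤ)) ((N * X * Z : ℕ) : ℤ)).card <
      (Fintype.piFinset fun _ : ι => Finset.Icc (0 : ℤ) (X : ℤ)).card := by
    rw [Fintype.card_piFinset, Fintype.card_piFinset, Finset.prod_const, Finset.prod_const,
      card_Icc, Finset.card_univ, Finset.card_univ, Fintype.card_prod, Embeddings.card,
      Int.card_Icc]
    have e1 : ((X : ℤ) + 1 - 0).toNat = X + 1 := by omega
    have e2 : 2 * (N * X * Z) + 1 = X ^ 2 + 1 := by rw [hXdef]; ring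
    rw [e1, e2]
    exact count_lt X N _ hX hN (by rw [mul_comm (Fintype.card κ), ← mul_assoc]; exact hd)
  obtain ⟨c, hc, c', hc', hne, heq⟩ := Finset.exists_ne_map_eq_of_card_lt_of_maps_to hcard
    (f := fun c p => ⌊(p.2 (∑ i, (c i : L) * β p.1 i)).re⌋) (fun c hc => by
      rw [Finset.mem_coe, Fintype.mem_piFinset] at hc ⊢
      intro p
      apply floor_mem
      rw [map_sum]
      refine (norm_sum_le _ _).trans ?_
      have h1 : ∀ i ∈ (Finset.univ : Finset ι), ‖p.2 ((c i : L) * β p.1 i)‖ ≤ (X : ℝ) * Z := by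
        intro i _
        rw [map_mul, norm_mul, map_intCast, Complex.norm_intCast]
        have h2 := Finset.mem_Icc.mp (hc i)
        have h3 : |(c i : ℝ)| ≤ X := by
          rw [abs_of_nonneg (by exact_mod_cast h2.1)]; exact_mod_cast h2.2
        exact mul_le_mul h3 (hb _ _ _) (norm_nonneg _) (Nat.cast_nonneg _)
      refine (Finset.sum_le_card_nsmul _ _ _ h1).trans ?_
      rw [Finset.card_univ, nsmul_eq_mul]
      push_cast
      rw [mul_assoc])
  rw [Fintype.mem_piFinset] at hc hc'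
  refine ⟨c - c', sub_ne_zero.mpr hne, fun i => ?_, fun k => ?_⟩
  · have h1 := Finset.mem_Icc.mp (hc i)
    have h2 := Finset.mem_Icc.mp (hc' i)
    have h3 : (2 * (N : ℤ) * Z) = (X : ℤ) := by rw [hXdef]; push_cast; ring
    rw [h3, Pi.sub_apply, abs_le]
    constructor <;> omega
  · have h1 := eq_of_floor_eq _ _ (hint c k) (hint c' k) fun σ => congrFun heq (k, σ)
    simp only [Pi.sub_apply, Int.cast_sub, sub_mul, Finset.sum_sub_distrib]
    exact sub_eq_zero.mpr h1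

theorem LV_thm : LV := by
  intro F _ _ q _ ψ β Z e n hZ he hβ hb hψ hlt
  by_contra hne
  let b : 𝓞 F := ⟨β, hβ⟩
  have hb0 : b ≠ 0 := fun h0 => hne (congrArg (fun y : 𝓞 F => (y : F)) h0)
  have hN0 : Algebra.norm ℤ b ≠ 0 := Algebra.norm_ne_zero_iff.mpr hb0
  have h1 : ((|Algebra.norm ℤ b| : ℤ) : ℝ) ≤ (Z : ℝ) ^ e := by
    rw [abs_norm_eq]
    refine (Finset.prod_le_prod (g := fun _ => (Z : ℝ)) (fun σ _ => norm_nonneg _)
      fun σ _ => hb σ).trans ?_
    rw [Finset.prod_const, Finset.card_univ, Embeddings.card]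
    exact pow_le_pow_right₀ (by exact_mod_cast hZ) he
  have h2 : |Algebra.norm ℤ b| ≤ (Z : ℤ) ^ e := by exact_mod_cast h1
  have h3 := Ideal.absNorm_mem (Ideal.span {b})
  rw [Ideal.absNorm_span_singleton, Ideal.mem_span_singleton'] at h3
  obtain ⟨b', hb'⟩ := h3
  have h4 : (((Algebra.norm ℤ b).natAbs : ℤ) : ℚ_[q]) = ψ (b' : F) * ψ β := by
    have h5 := congrArg (fun y : 𝓞 F => ψ (y : F)) hb'
    simp only [map_mul, map_natCast] at h5
    rw [Int.cast_natCast]
    exact h5.symm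
  have h6 : ‖ψ (b' : F)‖ ≤ 1 :=
    norm_le_one_of_integral _ ((RingOfIntegers.isIntegral_coe b').map_of_comp_eq
      (RingHom.id ℤ) ψ (RingHom.ext_int _ _))
  have h7 : ‖(((Algebra.norm ℤ b).natAbs : ℤ) : ℚ_[q])‖ ≤ (q : ℝ) ^ (-(n : ℤ)) := by
    rw [h4, norm_mul]
    exact (mul_le_of_le_one_left (norm_nonneg _) h6).trans hψ
  have h8 := Int.le_of_dvd (by positivity) ((Padic.norm_int_le_pow_iff_dvd _ _).mp h7)
  rw [Int.natCast_natAbs] at h8
  have h9 : (Z : ℤ) ^ e < (q : ℤ) ^ n := by exact_mod_cast hlt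
  exact absurd (h8.trans h2) (not_le.mpr h9)

end Pool.Agent.Lib.MP_de9007_nt.PS
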