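import Pool.Agent.Lib.MP_de9007_nt.PS.Stmt
import Pool.Agent.Lib.MP_30b5ba_nt.Variance

/-! From the valuation bound to large primitive prime divisors (cyclotomic deduction). -/

namespace Pool.Agent.Lib.MP_de9007_nt.PS

open Finset Filter

namespace CYAux

/-- The homogeneous cyclotomic values. -/
lemma exP (a b : ℤ) (hb : b ≠ 0) :
    ∃ P : ℕ → ℤ, ∀ n, 0 < n → ∏ d ∈ n.divisors, P d = a ^ n - b ^ n := by
  refine ⟨fun d => ((Polynomial.cyclotomic d ℤ).scaleRoots b).eval a, fun n hn => ?_⟩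
  have hb' : (b : ℚ) ≠ 0 := by exact_mod_cast hb
  have h1 : ∀ d : ℕ, ((((Polynomial.cyclotomic d ℤ).scaleRoots b).eval a : ℤ) : ℚ) =
      (b : ℚ) ^ d.totient * (Polynomial.cyclotomic d ℚ).eval ((a : ℚ) / b) := by
    intro d
    have h := Polynomial.scaleRoots_eval₂_mul (p := Polynomial.cyclotomic d ℤ)
      (Int.castRingHom ℚ) ((a : ℚ) / b) b
    rw [Polynomial.natDegree_cyclotomic,
      Polynomial.eval₂_eq_eval_map (p := Polynomial.cyclotomic d ℤ),
      Polynomial.map_cyclotomic_int] at h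
    simp only [eq_intCast] at h
    rw [mul_div_cancel₀ _ hb'] at h
    rw [← h]
    exact (Polynomial.eval₂_at_apply (Int.castRingHom ℚ) a).symm
  have h2 : ((∏ d ∈ n.divisors, ((Polynomial.cyclotomic d ℤ).scaleRoots b).eval a : ℤ) : ℚ) =
      ((a ^ n - b ^ n : ℤ) : ℚ) := by
    rw [Int.cast_prod]
    simp only [h1]
    rw [prod_mul_distrib, prod_pow_eq_pow_sum, Nat.sum_totient, ← Polynomial.eval_prod,
      Polynomial.prod_cyclotomic_eq_X_pow_sub_one hn]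
    simp only [Polynomial.eval_sub, Polynomial.eval_pow, Polynomial.eval_X, Polynomial.eval_one,
      div_pow]
    push_cast
    field_simp
  exact_mod_cast h2

lemma D_bound {a b : ℤ} (ha : 1 < a) (hb : |b| < a) {d : ℕ} (hd : 0 < d) :
    a ^ d ≤ 2 * a * |a ^ d - b ^ d| ∧ |a ^ d - b ^ d| ≤ 2 * a * a ^ d := by
  obtain ⟨e, rfl⟩ : ∃ e, d = e + 1 := ⟨d - 1, by omega⟩
  have h0 : 0 < a ^ e := by positivity
  have h1 : |b| ^ e ≤ a ^ e := pow_le_pow_left₀ (abs_nonneg _) hb.le e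
  have h2 : |b ^ (e + 1)| ≤ a ^ e * (a - 1) := by
    rw [abs_pow, pow_succ]
    exact mul_le_mul h1 (by omega) (abs_nonneg _) h0.le
  have h3 := abs_le.1 h2
  have h4 : 0 ≤ a ^ (e + 1) - b ^ (e + 1) := by rw [pow_succ a]; nlinarith [h3.2]
  rw [abs_of_nonneg h4, pow_succ a]
  constructor
  · nlinarith [h3.2, mul_pos h0 (show 0 < a by omega)]
  · nlinarith [h3.1, mul_pos h0 (show 0 < a by omega),
      mul_pos (mul_pos h0 (show 0 < a by omega)) (show 0 < a - 1 by omega)]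

lemma D_ne {a b : ℤ} (ha : 1 < a) (hb : |b| < a) {d : ℕ} (hd : 0 < d) : a ^ d - b ^ d ≠ 0 := by
  intro h
  have := (D_bound ha hb hd).1
  rw [h] at this
  have h0 : 0 < a ^ d := by positivity
  simp at this
  omega

lemma D_log {a b : ℤ} (ha : 1 < a) (hb : |b| < a) {d : ℕ} (hd : 0 < d) :
    |Real.log ((a ^ d - b ^ d : ℤ) : ℝ) - d * Real.log a| ≤ Real.log (2 * a) := by
  obtain ⟨h1, h2⟩ := D_bound ha hb hd
  have ha' : (0 : ℝ) < a := by exact_mod_cast (show 0 < a by omega)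
  have h0 : (0 : ℝ) < |((a ^ d - b ^ d : ℤ) : ℝ)| :=
    abs_pos.2 (by exact_mod_cast D_ne ha hb hd)
  have h1' : (a : ℝ) ^ d ≤ 2 * a * |((a ^ d - b ^ d : ℤ) : ℝ)| := by exact_mod_cast h1
  have h2' : |((a ^ d - b ^ d : ℤ) : ℝ)| ≤ 2 * a * (a : ℝ) ^ d := by exact_mod_cast h2
  have h3 := Real.log_le_log (by positivity) h1'
  have h4 := Real.log_le_log h0 h2'
  rw [Real.log_mul (by positivity) h0.ne', Real.log_pow, Real.log_abs] at h3
  rw [Real.log_mul (by positivity) (by positivity), Real.log_pow, Real.log_abs] at h4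
  rw [abs_le]
  constructor <;> linarith

lemma P_dvd {P : ℕ → ℤ} {a b : ℤ} (hP : ∀ n, 0 < n → ∏ d ∈ n.divisors, P d = a ^ n - b ^ n)
    {n : ℕ} (hn : 0 < n) : P n ∣ a ^ n - b ^ n := by
  rw [← hP n hn]
  exact dvd_prod_of_mem _ (Nat.mem_divisors_self n hn.ne')

lemma P_low {P : ℕ → ℤ} {a b : ℤ} (ha : 1 < a) (hb : |b| < a)
    (hP : ∀ n, 0 < n → ∏ d ∈ n.divisors, P d = a ^ n - b ^ n) {n : ℕ} (hn : 0 < n) :
    n.totient * Real.log a - #n.divisors * Real.log (2 * a) ≤ Real.log (P n) := by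
  have hne : ∀ d, 0 < d → (P d : ℝ) ≠ 0 := fun d hd => by
    exact_mod_cast ne_zero_of_dvd_ne_zero (D_ne ha hb hd) (P_dvd hP hd)
  have h := (ArithmeticFunction.sum_eq_iff_sum_mul_moebius_eq (R := ℝ)
    (f := fun d => Real.log (P d) - d.totient * Real.log a)
    (g := fun d => Real.log ((a ^ d - b ^ d : ℤ) : ℝ) - d * Real.log a)).1 (fun m hm => by
      rw [sum_sub_distrib, ← sum_mul, ← Nat.cast_sum, Nat.sum_totient, ← hP m hm, Int.cast_prod,
        Real.log_prod fun d hd => hne d (Nat.pos_of_mem_divisors hd)]) n hn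
  rw [Nat.sum_divisorsAntidiagonal' (f := fun x y => ((ArithmeticFunction.moebius x : ℤ) : ℝ) *
    (Real.log ((a ^ y - b ^ y : ℤ) : ℝ) - y * Real.log a))] at h
  have h2 : ∑ _i ∈ n.divisors, -Real.log (2 * a) ≤ ∑ i ∈ n.divisors,
      ((ArithmeticFunction.moebius (n / i) : ℤ) : ℝ) *
        (Real.log ((a ^ i - b ^ i : ℤ) : ℝ) - i * Real.log a) := by
    refine sum_le_sum fun i hi => neg_le_of_abs_le ?_
    rw [abs_mul]
    have h3 : |((ArithmeticFunction.moebius (n / i) : ℤ) : ℝ)| ≤ 1 := by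
      exact_mod_cast ArithmeticFunction.abs_moebius_le_one
    exact (mul_le_of_le_one_left (abs_nonneg _) h3).trans
      (D_log ha hb (Nat.pos_of_mem_divisors hi))
  rw [h, sum_const, nsmul_eq_mul] at h2
  linarith

lemma step {P : ℕ → ℤ} {a b : ℤ} (ha : 1 < a) (hb : |b| < a)
    (hP : ∀ n, 0 < n → ∏ d ∈ n.divisors, P d = a ^ n - b ^ n) {q r s v : ℕ} (hq : q.Prime)
    (hr : 0 < r) (hlt : r < r * s)
    (h : emultiplicity (q : ℤ) (a ^ (r * s) - b ^ (r * s)) =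
      emultiplicity (q : ℤ) (a ^ r - b ^ r) + emultiplicity q s)
    (hv : (q : ℤ) ^ v ∣ P (r * s)) : q ^ v ∣ r * s := by
  have hq' : Prime (q : ℤ) := Nat.prime_iff_prime_int.1 hq
  have h1 : P (r * s) * (a ^ r - b ^ r) ∣ a ^ (r * s) - b ^ (r * s) := by
    rw [← hP r hr, ← hP (r * s) (by omega), ← prod_insert (fun h => by
      have := Nat.le_of_dvd hr (Nat.dvd_of_mem_divisors h); omega)]
    refine prod_dvd_prod_of_subset _ _ _ (insert_subset (Nat.mem_divisors_self _ (by omega)) ?_)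
    exact Nat.divisors_subset_of_dvd (by omega) (dvd_mul_right r s)
  have h2 := emultiplicity_le_emultiplicity_of_dvd_right (a := (q : ℤ)) h1
  rw [emultiplicity_mul hq', h, add_comm] at h2
  have h3 : emultiplicity (q : ℤ) (a ^ r - b ^ r) ≠ ⊤ :=
    finiteMultiplicity_iff_emultiplicity_ne_top.1
      (Int.finiteMultiplicity_iff.2 ⟨by simpa using hq.ne_one, D_ne ha hb hr⟩)
  have h4 := (ENat.add_le_add_iff_left h3).1 h2
  exact (pow_dvd_of_le_emultiplicity ((le_emultiplicity_of_pow_dvd hv).trans h4)).mul_left r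

lemma not_dvd {a b : ℤ} (hab : IsCoprime a b) {q n : ℕ} (hq : q.Prime) (hn : 0 < n)
    (h : (q : ℤ) ∣ a ^ n - b ^ n) : ¬ (q : ℤ) ∣ a ∧ ¬ (q : ℤ) ∣ b := by
  have hq' : Prime (q : ℤ) := Nat.prime_iff_prime_int.1 hq
  constructor
  · intro h1
    have h2 : (q : ℤ) ∣ b ^ n := (dvd_sub_right (dvd_pow h1 hn.ne')).1 h
    exact hq'.not_isUnit (hab.isUnit_of_dvd' h1 (hq'.dvd_of_dvd_pow h2))
  · intro h1
    have h2 : (q : ℤ) ∣ a ^ n := (dvd_sub_left (dvd_pow h1 hn.ne')).1 h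
    exact hq'.not_isUnit (hab.isUnit_of_dvd' (hq'.dvd_of_dvd_pow h2) h1)

lemma dvd_iff {a b : ℤ} {q : ℕ} [Fact q.Prime] (hb : ¬ (q : ℤ) ∣ b) (k : ℕ) :
    (q : ℤ) ∣ a ^ k - b ^ k ↔ ((a : ZMod q) / b) ^ k = 1 := by
  have h : (b : ZMod q) ≠ 0 := fun h => hb ((ZMod.intCast_zmod_eq_zero_iff_dvd b q).1 h)
  rw [← ZMod.intCast_zmod_eq_zero_iff_dvd, div_pow, div_eq_one_iff_eq (pow_ne_zero k h)]
  push_cast
  exact sub_eq_zero

lemma nonprim {P : ℕ → ℤ} {a b : ℤ} (hab : IsCoprime a b) (ha : 1 < a) (hb : |b| < a)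
    (hP : ∀ n, 0 < n → ∏ d ∈ n.divisors, P d = a ^ n - b ^ n) {q n m v : ℕ} (hq : q.Prime)
    (hn : 2 < n) (hm : 0 < m) (hmn : m < n) (h1 : (q : ℤ) ∣ a ^ n - b ^ n)
    (h2 : (q : ℤ) ∣ a ^ m - b ^ m) (hv : (q : ℤ) ^ v ∣ P n) : q ^ v ∣ n := by
  obtain ⟨hqa, hqb⟩ := not_dvd hab hq (by omega) h1
  have hq' : Prime (q : ℤ) := Nat.prime_iff_prime_int.1 hq
  rcases hq.eq_two_or_odd' with rfl | hodd
  · have hao : Odd a := by rwa [← Int.not_even_iff_odd, even_iff_two_dvd]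
    have hbo : Odd b := by rwa [← Int.not_even_iff_odd, even_iff_two_dvd]
    rcases Nat.even_or_odd' n with ⟨s, rfl | rfl⟩
    · refine step ha hb hP hq two_pos (by omega) ?_ hv
      have h4 : (4 : ℤ) ∣ a ^ 2 - b ^ 2 := by
        obtain ⟨x, rfl⟩ := hao
        obtain ⟨y, rfl⟩ := hbo
        exact ⟨x ^ 2 + x - y ^ 2 - y, by ring⟩
      have h5 := Int.two_pow_sub_pow' s h4 (fun h => hqa (hq'.dvd_of_dvd_pow h))
      rw [pow_mul, pow_mul]
      refine h5.trans ?_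
      rw [← Int.natCast_emultiplicity]
      rfl
    · have h6 : ¬ (2 : ℕ) ∣ 2 * s + 1 := by omega
      have := step (r := 1) (s := 2 * s + 1) (v := v) ha hb hP hq one_pos (by omega) (by
        rw [one_mul, pow_one, pow_one, emultiplicity_eq_zero.2 h6, add_zero]
        exact emultiplicity_pow_sub_pow_of_prime hq' (hao.sub_odd hbo).two_dvd hqa
          (by exact_mod_cast h6)) (by rwa [one_mul])
      rwa [one_mul] at this
  · have := Fact.mk hq
    obtain ⟨s, hs⟩ := Nat.gcd_dvd_right m n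
    have hg : 0 < m.gcd n := Nat.gcd_pos_of_pos_left _ hm
    have hg2 : m.gcd n ≤ m := Nat.gcd_le_left _ hm
    have h3 : (q : ℤ) ∣ a ^ m.gcd n - b ^ m.gcd n :=
      (dvd_iff hqb _).2 (pow_gcd_eq_one.2 ⟨(dvd_iff hqb _).1 h2, (dvd_iff hqb _).1 h1⟩)
    generalize m.gcd n = r at hs hg hg2 h3
    subst hs
    refine step ha hb hP hq hg (by omega) ?_ hv
    rw [pow_mul, pow_mul]
    exact Int.emultiplicity_pow_sub_pow hq hodd h3 (fun h => hqa (hq'.dvd_of_dvd_pow h)) s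

lemma prim {a b : ℤ} (hab : IsCoprime a b) {q n : ℕ} (hq : q.Prime) (hn : 0 < n)
    (h1 : (q : ℤ) ∣ a ^ n - b ^ n) (h2 : ∀ m, 0 < m → m < n → ¬ (q : ℤ) ∣ a ^ m - b ^ m) :
    n ∣ q - 1 := by
  obtain ⟨hqa, hqb⟩ := not_dvd hab hq hn h1
  have := Fact.mk hq
  have hu : (a : ZMod q) / b ≠ 0 :=
    div_ne_zero (fun h => hqa ((ZMod.intCast_zmod_eq_zero_iff_dvd a q).1 h))
      (fun h => hqb ((ZMod.intCast_zmod_eq_zero_iff_dvd b q).1 h))
  have h3 := orderOf_dvd_of_pow_eq_one ((dvd_iff hqb _).1 h1)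
  have h4 : orderOf ((a : ZMod q) / b) = n := by
    by_contra h
    exact h2 _ (Nat.pos_of_dvd_of_pos h3 hn) (lt_of_le_of_ne (Nat.le_of_dvd hn h3) h)
      ((dvd_iff hqb _).2 (pow_orderOf_eq_one _))
  rw [← h4]
  exact ZMod.orderOf_dvd_card_sub_one hu

lemma tau {δ : ℝ} (hδ : 0 < δ) :
    ∃ C : ℝ, 0 < C ∧ ∀ n : ℕ, 0 < n → (#n.divisors : ℝ) ≤ C * (n : ℝ) ^ δ := by
  obtain ⟨k, hk⟩ := exists_nat_gt δ⁻¹
  have hk0 : (0 : ℝ) < k := (inv_pos.2 hδ).trans hk
  have hk1 : k ≠ 0 := by exact_mod_cast hk0.ne'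
  obtain ⟨C, hC⟩ := Pool.Agent.Lib.MP_30b5ba_nt.card_divisors_pow_le k
  refine ⟨C + 1, by positivity, fun n hn => ?_⟩
  have hn1 : (1 : ℝ) ≤ n := by exact_mod_cast hn
  have h1 : (#n.divisors : ℝ) ^ k ≤ C * n := by exact_mod_cast hC n hn.ne'
  refine le_of_pow_le_pow_left₀ hk1 (by positivity) (h1.trans ?_)
  rw [mul_pow, ← Real.rpow_mul_natCast (by positivity)]
  refine mul_le_mul ((by linarith : (C : ℝ) ≤ C + 1).trans
    (le_self_pow₀ (by linarith [Nat.cast_nonneg (α := ℝ) C]) hk1))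
    (Real.self_le_rpow_of_one_le hn1 ?_) (by positivity) (by positivity)
  rw [inv_lt_iff_one_lt_mul₀' hδ] at hk
  exact hk.le

lemma le_tau_mul (n : ℕ) : n ≤ #n.divisors * n.totient := by
  rcases n.eq_zero_or_pos with rfl | hn
  · simp
  conv_lhs => rw [← Nat.sum_totient n]
  exact sum_le_card_nsmul _ _ _ fun d hd => Nat.le_of_dvd (Nat.totient_pos.2 hn)
    (Nat.totient_dvd_of_dvd (Nat.dvd_of_mem_divisors hd))

lemma fin {η A B : ℝ} (h0 : 0 < η) (h1 : η ≤ 1) (hA : 0 < A) (hB : 0 ≤ B) : ∀ᶠ n : ℕ in atTop,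
    Real.log n + 2 * (n : ℝ) ^ (1 - η / 2) * Real.log n < n.totient * A - #n.divisors * B := by
  have hδ : 0 < η / 8 := by positivity
  obtain ⟨C, hC, hτ⟩ := tau hδ
  have ht := ((tendsto_rpow_atTop (show 0 < η / 4 by positivity)).comp
    tendsto_natCast_atTop_atTop).eventually_gt_atTop ((C * C * B + 3 * C / (η / 8)) / A)
  filter_upwards [ht, eventually_gt_atTop 0] with n hK hn
  by_contra hc
  rw [not_lt] at hc
  have hn1 : (1 : ℝ) ≤ n := by exact_mod_cast hn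
  have hn0 : (0 : ℝ) < n := by linarith
  have e1 : (n : ℝ) ≤ #n.divisors * n.totient := by exact_mod_cast le_tau_mul n
  have e2 := hτ n hn
  have e3 : Real.log n ≤ (n : ℝ) ^ (η / 8) / (η / 8) := Real.log_le_rpow_div hn0.le hδ
  have e4 : 0 ≤ Real.log n := Real.log_nonneg hn1
  have e5 : (1 : ℝ) ≤ (n : ℝ) ^ (1 - η / 2) := Real.one_le_rpow hn1 (by linarith)
  have e6 : (n : ℝ) ^ (η / 8) * (n : ℝ) ^ (η / 8) * (n : ℝ) ^ (1 - η / 2) =
      (n : ℝ) ^ (1 - η / 4) := by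
    rw [← Real.rpow_add hn0, ← Real.rpow_add hn0]; congr 1; ring
  have e7 : (n : ℝ) ^ (η / 4) * (n : ℝ) ^ (1 - η / 4) = n := by
    rw [← Real.rpow_add hn0]; simp
  have e8 : (0 : ℝ) < (n : ℝ) ^ (1 - η / 4) := by positivity
  simp only [Function.comp] at hK
  rw [div_lt_iff₀ hA] at hK
  set t : ℝ := ((#n.divisors : ℕ) : ℝ)
  set x : ℝ := (n : ℝ) ^ (η / 8)
  set y : ℝ := (n : ℝ) ^ (1 - η / 2)
  have t0 : 0 ≤ t := by positivity
  have x0 : 0 ≤ x := by positivity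
  have f1 : (n.totient : ℝ) * A ≤ C * x * B * y + 3 * y * (x / (η / 8)) := by
    have g1 : t * B ≤ C * x * B * y :=
      (mul_le_mul_of_nonneg_right e2 hB).trans (le_mul_of_one_le_right (by positivity) e5)
    have g2 : Real.log n ≤ y * Real.log n := le_mul_of_one_le_left e4 e5
    have g3 : 3 * y * Real.log n ≤ 3 * y * (x / (η / 8)) := by gcongr
    linarith
  have f2 : n * A ≤ C * x * (C * x * B * y + 3 * y * (x / (η / 8))) :=
    calc n * A ≤ t * n.totient * A := by gcongr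
      _ = t * (n.totient * A) := by ring
      _ ≤ _ := mul_le_mul e2 f1 (by positivity) (by positivity)
  have f3 : C * x * (C * x * B * y + 3 * y * (x / (η / 8))) =
      (C * C * B + 3 * C / (η / 8)) * (x * x * y) := by ring
  rw [f3, e6] at f2
  have f4 := mul_lt_mul_of_pos_right hK e8
  have f5 : (n : ℝ) ^ (η / 4) * A * (n : ℝ) ^ (1 - η / 4) = n * A := by
    rw [mul_right_comm, e7]
  linarith

end CYAux

open CYAux

theorem PD_of_VB (h : VB) : PD := by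
  obtain ⟨η₀, hη₀, hV⟩ := h
  obtain ⟨η, h0, h1, h2⟩ : ∃ η : ℝ, 0 < η ∧ η ≤ 1 ∧ η ≤ η₀ :=
    ⟨min η₀ 1, lt_min hη₀ one_pos, min_le_right _ _, min_le_left _ _⟩
  refine ⟨η / 4, by positivity, fun a b hab ha hb1 hb2 => ?_⟩
  have hb : |b| < a := abs_lt.2 ⟨hb1, hb2⟩
  have hb0 : b ≠ 0 := by
    rintro rfl
    rcases Int.isUnit_iff.1 (isCoprime_zero_right.1 hab) with h | h <;> omega
  obtain ⟨Q, hQ⟩ := hV a b (by omega) hb0 (by omega)
  obtain ⟨P, hP⟩ := exP a b hb0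
  have ha' : (1 : ℝ) < a := by exact_mod_cast ha
  obtain ⟨N, hN⟩ := eventually_atTop.1 ((fin h0 h1 (Real.log_pos ha')
    (Real.log_nonneg (show (1 : ℝ) ≤ 2 * a by linarith))).and
      ((eventually_gt_atTop 2).and (eventually_ge_atTop Q)))
  refine ⟨N, fun n hn => ?_⟩
  obtain ⟨hF, hn2, hnQ⟩ := hN n hn
  by_contra hc
  have hn0 : 0 < n := by omega
  have hn1 : (1 : ℝ) ≤ n := by exact_mod_cast hn0
  have hnr : (0 : ℝ) < n := by linarith
  have hd := P_dvd hP hn0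
  have hM : (P n).natAbs ≠ 0 := Int.natAbs_ne_zero.2 (ne_zero_of_dvd_ne_zero (D_ne ha hb hn0) hd)
  set S : Finset ℕ := (Icc 1 ⌊(n : ℝ) ^ (η / 4)⌋₊).image fun k => n * k + 1 with hS
  set W : ℝ := ((n : ℝ) ^ (1 + η / 4)) ^ (1 - η) * (2 * Real.log n) with hW
  have hl : 0 ≤ Real.log n := Real.log_nonneg hn1
  have hW0 : 0 ≤ W := by positivity
  have key : ∀ q ∈ (P n).natAbs.primeFactors, ((P n).natAbs.factorization q : ℝ) * Real.log q ≤
      n.factorization q * Real.log q + if q ∈ S then W else 0 := by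
    intro q hq
    have hp := Nat.prime_of_mem_primeFactors hq
    have hq1 : (1 : ℝ) ≤ q := by exact_mod_cast hp.one_le
    have hlq : 0 ≤ Real.log q := Real.log_nonneg hq1
    have hv : (q : ℤ) ^ (P n).natAbs.factorization q ∣ P n := by
      rw [← Nat.cast_pow, Int.natCast_dvd]
      exact Nat.ordProj_dvd _ _
    have hqn : (q : ℤ) ∣ a ^ n - b ^ n :=
      (Int.natCast_dvd.2 (Nat.dvd_of_mem_primeFactors hq)).trans hd
    by_cases hpr : ∀ m, 0 < m → m < n → ¬ (q : ℤ) ∣ a ^ m - b ^ m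
    · have hY : (q : ℝ) ≤ (n : ℝ) ^ (1 + η / 4) :=
        not_lt.1 fun h => hc ⟨q, hp, h, hqn, hpr⟩
      obtain ⟨k, hk⟩ := prim hab hp hn0 hqn hpr
      have h2q := hp.two_le
      have hk1 : 1 ≤ k := Nat.pos_of_ne_zero (by rintro rfl; omega)
      have hqk : q = n * k + 1 := by omega
      have hmem : q ∈ S := by
        refine mem_image.2 ⟨k, mem_Icc.2 ⟨hk1, Nat.le_floor ?_⟩, hqk.symm⟩
        rw [Real.rpow_add hnr, Real.rpow_one, hqk] at hY
        push_cast at hY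
        exact le_of_mul_le_mul_left (by linarith) hnr
      have hv2 := hQ q _ hp (by nlinarith) (hv.trans (hd.trans (by
        rw [hk, pow_mul, pow_mul]; exact sub_dvd_pow_sub_pow _ _ k)))
      have hv3 : (q : ℝ) ^ (1 - η₀) ≤ ((n : ℝ) ^ (1 + η / 4)) ^ (1 - η) :=
        (Real.rpow_le_rpow_of_exponent_le hq1 (by linarith)).trans
          (Real.rpow_le_rpow (by positivity) hY (by linarith))
      have hv4 : Real.log q ≤ 2 * Real.log n := by
        refine (Real.log_le_log (by linarith) hY).trans ?_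
        rw [Real.log_rpow hnr]
        exact mul_le_mul_of_nonneg_right (by linarith) hl
      rw [if_pos hmem]
      exact le_add_of_nonneg_of_le (by positivity)
        (mul_le_mul (hv2.trans hv3) hv4 hlq (by positivity))
    · push Not at hpr
      obtain ⟨m, hm, hmn, hqm⟩ := hpr
      have h3 := (hp.pow_dvd_iff_le_factorization hn0.ne').1
        (nonprim hab ha hb hP hp hn2 hm hmn hqn hqm hv)
      refine le_add_of_le_of_nonneg (mul_le_mul_of_nonneg_right (by exact_mod_cast h3) hlq) ?_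
      split_ifs
      exacts [hW0, le_rfl]
  have s1 : Real.log (P n) = ∑ q ∈ (P n).natAbs.primeFactors,
      ((P n).natAbs.factorization q : ℝ) * Real.log q := by
    rw [← Real.log_abs, ← Int.cast_abs, ← Nat.cast_natAbs, Real.log_nat_eq_sum_factorization]
    rfl
  have s2 : ∑ q ∈ (P n).natAbs.primeFactors, (n.factorization q : ℝ) * Real.log q ≤
      Real.log n := by
    rw [Real.log_nat_eq_sum_factorization n, Finsupp.sum]
    rw [← sum_filter_ne_zero]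
    refine sum_le_sum_of_subset_of_nonneg (fun q hq => ?_) fun q _ _ =>
      mul_nonneg (Nat.cast_nonneg _) (Real.log_natCast_nonneg q)
    exact Finsupp.mem_support_iff.2 fun h => (mem_filter.1 hq).2 (by rw [h]; simp)
  have s3 : ∑ q ∈ (P n).natAbs.primeFactors, (if q ∈ S then W else 0) ≤
      (n : ℝ) ^ (η / 4) * W := by
    rw [sum_ite_mem, sum_const, nsmul_eq_mul]
    refine mul_le_mul_of_nonneg_right ?_ hW0
    have : #((P n).natAbs.primeFactors ∩ S) ≤ ⌊(n : ℝ) ^ (η / 4)⌋₊ :=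
      (card_le_card inter_subset_right).trans (card_image_le.trans (by simp))
    exact (Nat.cast_le.2 this).trans (Nat.floor_le (by positivity))
  have s4 : (n : ℝ) ^ (η / 4) * W ≤ 2 * (n : ℝ) ^ (1 - η / 2) * Real.log n := by
    rw [hW, ← Real.rpow_mul hnr.le, ← mul_assoc, ← Real.rpow_add hnr]
    have : (n : ℝ) ^ (η / 4 + (1 + η / 4) * (1 - η)) ≤ (n : ℝ) ^ (1 - η / 2) :=
      Real.rpow_le_rpow_of_exponent_le hn1 (by nlinarith)
    nlinarith
  have s5 := sum_le_sum key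
  rw [sum_add_distrib, ← s1] at s5
  have s6 := P_low ha hb hP hn0
  linarith

end Pool.Agent.Lib.MP_de9007_nt.PS
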