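import Pool.Agent.Lib.MP_de9007_nt.PS.Init

/-! The contradiction for admissible parameters. -/

namespace Pool.Agent.Lib.MP_de9007_nt.PS

open NumberField

variable {L : Type} [Field L] [NumberField L] {q : ℕ} [hq : Fact q.Prime]

omit [NumberField L] in
theorem norm_int_le (ψ : L →+* ℚ_[q]) {y : L} (h : IsIntegral ℤ y) : ‖ψ y‖ ≤ 1 := by
  have h1 : IsIntegral ℤ_[q] (ψ y) := (map_isIntegral_int ψ h).tower_top
  obtain ⟨z, hz⟩ := IsIntegrallyClosed.isIntegral_iff.1 h1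
  rw [← hz]
  exact z.2

omit [NumberField L] in
theorem norm_unit (ψ : L →+* ℚ_[q]) (ε : (𝓞 L)ˣ) : ‖ψ (ε : L)‖ = 1 := by
  have h1 := norm_int_le ψ (RingOfIntegers.isIntegral_coe (ε : 𝓞 L))
  have h2 := norm_int_le ψ (RingOfIntegers.isIntegral_coe ((ε⁻¹ : (𝓞 L)ˣ) : 𝓞 L))
  have h3 : ‖ψ (ε : L)‖ * ‖ψ ((ε⁻¹ : (𝓞 L)ˣ) : L)‖ = 1 := by
    rw [← norm_mul, ← map_mul, ← Units.coe_mul, mul_inv_cancel]
    simp
  nlinarith [norm_nonneg (ψ (ε : L)), norm_nonneg (ψ ((ε⁻¹ : (𝓞 L)ˣ) : L))]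

theorem exists_res {y : ℚ_[q]} (h : ‖y‖ = 1) : ∃ n : ℕ, n < q ∧ ‖y - n‖ < 1 := by
  obtain ⟨z, rfl⟩ : ∃ z : ℤ_[q], y = z := ⟨⟨y, h.le⟩, rfl⟩
  obtain ⟨n, h1, h2⟩ := PadicInt.exists_mem_range z
  refine ⟨n, h1, ?_⟩
  rw [IsLocalRing.mem_maximalIdeal, PadicInt.mem_nonunits, PadicInt.norm_def,
    PadicInt.coe_sub, PadicInt.coe_natCast] at h2
  exact h2

theorem norm_int_one {a : ℤ} (h : ¬ (q : ℤ) ∣ a) : ‖(a : ℚ_[q])‖ = 1 :=
  le_antisymm (Padic.norm_int_le_one a) (not_lt.1 (mt Padic.norm_intCast_lt_one_iff.1 h))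

theorem small_sq {a b : ℤ} (qb : ¬ (q : ℤ) ∣ b) {n : ℕ}
    (h : (q : ℤ) ^ n ∣ a ^ (q - 1) - b ^ (q - 1)) :
    ‖(((a : ℚ_[q]) / b) ^ 2) ^ (q - 1) - 1‖ ≤ (q : ℝ) ^ (-(n : ℤ)) := by
  have b1 := norm_int_one qb
  have b0 : (b : ℚ_[q]) ≠ 0 := by intro h; simp [h] at b1
  have h1 := (Padic.norm_int_le_pow_iff_dvd _ _).2 (h.mul_right (a ^ (q - 1) + b ^ (q - 1)))
  have e : (((a : ℚ_[q]) / b) ^ 2) ^ (q - 1) - 1 =
      (((a ^ (q - 1) - b ^ (q - 1)) * (a ^ (q - 1) + b ^ (q - 1)) : ℤ) : ℚ_[q]) /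
        (b ^ (q - 1)) ^ 2 := by
    push_cast
    rw [← pow_mul, mul_comm 2, pow_mul, div_pow]
    field_simp
    ring
  rw [e, norm_div, norm_pow, norm_pow, b1, one_pow, one_pow, div_one]
  exact h1

theorem den {a b : ℤ} (ha : a ≠ 0) (hb : b ≠ 0) {h n k l : ℕ} (h1 : |a| ≤ 2 ^ h)
    (h2 : |b| ≤ 2 ^ h) (hk : k ≤ n) (hl : l ≤ n) : ∃ z : ℤ, |z| ≤ 2 ^ (2 * h * n) ∧
      ∀ x y : L, (((a * b) ^ n : ℤ) : L) * ((((a : ℚ) / b : ℚ) : L) ^ k * x /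
        ((((a : ℚ) / b : ℚ) : L) ^ l * y)) = z * (x / y) := by
  obtain ⟨k', rfl⟩ := Nat.exists_eq_add_of_le hk
  obtain ⟨l', hl'⟩ := Nat.exists_eq_add_of_le hl
  refine ⟨a ^ k * b ^ k' * (b ^ l * a ^ l'), ?_, fun x y => ?_⟩
  · simp only [abs_mul, abs_pow]
    calc |a| ^ k * |b| ^ k' * (|b| ^ l * |a| ^ l')
        ≤ (2 ^ h) ^ k * (2 ^ h) ^ k' * ((2 ^ h) ^ l * (2 ^ h) ^ l') := by gcongr
      _ = 2 ^ (2 * h * (k + k')) := by
        rw [← pow_add, ← pow_add, ← hl', ← pow_add, ← pow_mul]; congr 1; ring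
  · have a0 : (a : L) ≠ 0 := Int.cast_ne_zero.2 ha
    have b0 : (b : L) ≠ 0 := Int.cast_ne_zero.2 hb
    push_cast
    rw [mul_pow, mul_div_mul_comm, ← mul_assoc]
    congr 1
    rw [show (a : L) ^ (k + k') = a ^ l * a ^ l' by rw [hl', pow_add], pow_add, div_pow, div_pow]
    field_simp

theorem core (hBX : BX) (hMU : MU) (hFM : FM) (hSG : SG) (hLV : LV) (hSW : SW) (hKD : KD)
    [IsTotallyReal L] (ψ : L →+* ℚ_[q]) (q2 : q ≠ 2) {d c : ℕ} (hd : Module.finrank ℚ L = d)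
    (hc : (discr L).natAbs ≤ 2 ^ (c * d)) {a b : ℤ} {h : ℕ} (hab : a.natAbs ≠ b.natAbs)
    (h1 : |a| ≤ 2 ^ h) (h2 : |b| ≤ 2 ^ h) (qa : ¬ (q : ℤ) ∣ a) (qb : ¬ (q : ℤ) ∣ b)
    {δ J J₀ h' S m N G : ℕ} (hS : 0 < S) (hJ : J = h' + J₀) (J0 : 0 < J) (p1 : 2 * h ≤ 2 ^ h')
    (p2 : m + (c + 1) * d ≤ δ * 2 ^ J)
    (hN : N = 2 * d * (S * (d - 1 + 2 * (d + 1) * 2 ^ J).choose (2 * (d + 1) * 2 ^ J)))
    (hG : G = 2 ^ ((δ + 1) * 2 ^ J))
    (p3 : d * 2 ^ ((3 * c + 5) * d) * (q * N) ≤ 2 ^ J₀ * m ^ (d - 1))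
    (p4 : 2 * N ^ 2 * ((2 * d * (δ * 2 ^ J) * 5 ^ d + 1) ^ d) ^ (2 * (2 * (d + 1) * 2 ^ J)) ≤
      G ^ (2 * S))
    (p5 : (2 * 2 ^ δ + 1) ^ d * (2 * d + 1) ≤ 2 ^ J * S) (p6 : 2 ^ (J + d) * S ≤ q)
    (p7 : G ^ (8 * d) < q ^ 2 ^ J) :
    ¬ (q : ℤ) ^ (2 ^ (J + d) * S) ∣ a ^ (q - 1) - b ^ (q - 1) := by
  classical
  subst hd
  intro hdiv
  have ha : a ≠ 0 := by rintro rfl; simp at qa
  have hb : b ≠ 0 := by rintro rfl; simp at qb
  have d0 : 0 < Module.finrank ℚ L := Module.finrank_pos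
  have N0 : 0 < N := by
    have := Nat.choose_pos (Nat.le_add_left (2 * (Module.finrank ℚ L + 1) * 2 ^ J)
      (Module.finrank ℚ L - 1))
    rw [hN]; positivity
  obtain ⟨p, hp, ν0, ν1⟩ := exists_val ha hb hab h1 h2
  have : Fact p.Prime := ⟨hp⟩
  obtain ⟨g, hg⟩ : ∃ g : ℚ, g = (a : ℚ) / b := ⟨_, rfl⟩
  rw [← hg] at ν0 ν1
  have g0 : g ≠ 0 := by rintro rfl; simp at ν0
  have gψ : ψ (g : L) = (a : ℚ_[q]) / b := by rw [map_ratCast, hg]; simp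
  have g1 : ‖ψ (g : L)‖ = 1 := by rw [gψ, norm_div, norm_int_one qa, norm_int_one qb, div_one]
  obtain ⟨E, E1, E2, E3⟩ := hMU L c m hc
  have n1 : ∀ z : ℕ × (𝓞 L)ˣ, ‖ψ ((g : L) ^ z.1 * (z.2 : L))‖ = 1 := fun z => by
    rw [map_mul, map_pow, norm_mul, norm_pow, g1, norm_unit, one_pow, one_mul]
  choose res r1 r2 using fun z => exists_res (n1 z)
  obtain ⟨y, -, hy⟩ := Finset.exists_le_card_fiber_of_mul_le_card_of_maps_to
    (s := Finset.range (2 ^ J₀) ×ˢ E) (t := Finset.range q) (f := res) (n := N)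
    (fun z _ => Finset.mem_range.2 (r1 z)) ⟨0, Finset.mem_range.2 hq.out.pos⟩ (by
      rw [Finset.card_product, Finset.card_range, Finset.card_range]
      refine Nat.le_of_mul_le_mul_left (p3.trans ?_) (by positivity)
      rw [mul_left_comm]
      exact Nat.mul_le_mul_left _ E2)
  obtain ⟨A, A1, A2⟩ := Finset.exists_subset_card_eq hy
  have A3 : ∀ i : A, i.1.1 < 2 ^ J₀ ∧ i.1.2 ∈ E ∧ res i.1 = y := fun i => by
    simpa [and_assoc] using A1 i.2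
  have cA : Fintype.card A = N := by rw [Fintype.card_coe, A2]
  have E4 : ∀ x ∈ E, ∀ y ∈ E, ∀ σ : L →+* ℂ,
      ‖σ ((x * y⁻¹ : (𝓞 L)ˣ) : 𝓞 L)‖ ≤ 2 ^ (δ * 2 ^ J) := fun x hx y hy σ =>
    (E3 x hx y hy σ).trans (pow_le_pow_right₀ one_le_two p2)
  obtain ⟨D, w, x, φ, n, D0, D1, D2, D3, D4⟩ := hFM L A (fun i => i.1.2) (δ * 2 ^ J)
    (fun i σ => by simpa using E4 _ (A3 i).2.1 1 E1 σ)
    (fun i σ => by simpa using E4 1 E1 _ (A3 i).2.1 σ)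
  obtain ⟨γ, hγ⟩ : ∃ γ : A → L, γ = fun i => (g : L) ^ i.1.1 * (i.1.2 : L) := ⟨_, rfl⟩
  have inj : Function.Injective γ := by
    intro i j e
    rw [hγ] at e
    have e1 := congrArg (fun y => padicValRat p (Algebra.norm ℚ y)) e
    simp only [val_norm p g0] at e1
    have e2 : i.1.1 = j.1.1 := by
      exact_mod_cast mul_right_cancel₀ (Nat.cast_ne_zero.2 d0.ne') (mul_right_cancel₀ ν0 e1)
    simp only [e2] at e
    exact Subtype.ext (Prod.ext e2 (Units.coe_injective L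
      (mul_left_cancel₀ (pow_ne_zero _ (Rat.cast_ne_zero.2 g0)) e)))
  have b1 : (2 : ℤ) ^ (2 * h * 2 ^ J₀) ≤ 2 ^ 2 ^ J := by
    refine pow_le_pow_right₀ one_le_two ?_
    rw [hJ, pow_add]
    exact Nat.mul_le_mul_right _ p1
  have Dn0 : (a * b) ^ 2 ^ J₀ ≠ 0 := pow_ne_zero _ (mul_ne_zero ha hb)
  have Dn1 : |(a * b) ^ 2 ^ J₀| ≤ G := by
    rw [abs_pow, abs_mul, hG]
    push_cast
    refine le_trans ?_ (b1.trans (pow_le_pow_right₀ one_le_two (by nlinarith [Nat.zero_le (δ * 2 ^ J)])))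
    rw [pow_mul, two_mul, pow_add]
    gcongr
  have key : ∀ i j, IsIntegral ℤ ((((a * b) ^ 2 ^ J₀ : ℤ) : L) * (γ i / γ j)) ∧
      ∀ σ : L →+* ℂ, ‖σ ((((a * b) ^ 2 ^ J₀ : ℤ) : L) * (γ i / γ j))‖ ≤ G := by
    intro i j
    obtain ⟨z, z1, z2⟩ := den (L := L) ha hb h1 h2 (A3 i).1.le (A3 j).1.le
    rw [hγ, hg]
    simp only
    rw [z2, ← coe_div]
    refine ⟨IsIntegral.mul ?_ (RingOfIntegers.isIntegral_coe _), fun σ => ?_⟩
    · rw [← eq_intCast (algebraMap ℤ L)]; exact isIntegral_algebraMap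
    · rw [map_mul, norm_mul, map_intCast, Complex.norm_intCast, hG, add_mul, one_mul, pow_add,
        mul_comm]
      push_cast
      exact mul_le_mul (E4 _ (A3 i).2.1 _ (A3 j).2.1 σ) (by exact_mod_cast z1.trans b1)
        (abs_nonneg _) (by positivity)
  obtain ⟨i₀⟩ : Nonempty A := Fintype.card_pos_iff.1 (cA ▸ N0)
  obtain ⟨cf, c0, c1, c2⟩ := siegel hSG (fun i => γ i / γ i₀) Dn0 Dn1 (fun i => (key i i₀).1)
    (fun i => (key i i₀).2) w D0 D2 (S := S) (m := 2 * (Module.finrank ℚ L + 1) * 2 ^ J)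
    (cA ▸ N0) (by rw [cA, hN, Fintype.card_fin])
  have nγ : ∀ i, ‖ψ (γ i)‖ = 1 := fun i => by rw [hγ]; exact n1 i.1
  have H : Dat ψ γ cf (fun i => i.1.1) w x ((g : L) ^ 2) (fun m => (φ m : L) ^ 2)
      ((a * b) ^ 2 ^ J₀) G J S := by
    refine ⟨q2, by rw [Fintype.card_fin]; omega, hS, Dn0, Dn1, fun i j => (key i j).1,
      fun i j => (key i j).2, ⟨D, n, D0, D4⟩, fun i => ?_, by rw [map_pow, norm_pow, g1, one_pow],
      fun m => by rw [map_pow, norm_pow, norm_unit, one_pow], nγ, ?_, p6, fun I τ hτ => ?_, p7⟩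
    · let χ : (𝓞 L)ˣ →* Lˣ := Units.map (algebraMap (𝓞 L) L : 𝓞 L →* L)
      have e := congrArg (fun z => ((χ z : Lˣ) : L)) (D3 i)
      simp only [map_pow, map_prod, map_zpow, Units.val_pow_eq_pow_val, Units.coe_prod,
        Units.val_zpow_eq_zpow_val] at e
      rw [hγ]
      simp only [mul_pow, zpow_natCast]
      rw [← pow_mul, ← pow_mul, mul_comm 2]
      congr 1
      refine e.trans ?_
      rw [← Finset.prod_pow]
      exact Finset.prod_congr rfl fun m _ => by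
        rw [← zpow_natCast, ← zpow_mul, mul_comm, zpow_mul, zpow_natCast]; rfl
    · rw [map_pow, gψ]
      exact small_sq qb hdiv
    · obtain ⟨M, hM⟩ : ∃ M, M = 2 * (Module.finrank ℚ L + 1) * 2 ^ J := ⟨_, rfl⟩
      rw [← hM] at hτ c1 p4
      rw [cA] at c1
      have a1 : ∀ i ∈ I, |cf i * mon (w i) τ| ≤ 2 * N * (D ^ M * G ^ (2 * S) : ℕ) * D ^ M := by
        intro i _
        rw [abs_mul]
        exact mul_le_mul (c1 i) ((mon_le (D2 i) τ).trans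
          (pow_le_pow_right₀ (by exact_mod_cast D0) hτ)) (abs_nonneg _) (by positivity)
      refine (Finset.sum_le_card_nsmul _ _ _ a1).trans ?_
      have a2 : I.card ≤ N := cA ▸ I.card_le_univ
      have a3 : 2 * N ^ 2 * D ^ (2 * M) ≤ G ^ (2 * S) := le_trans (by gcongr) p4
      rw [nsmul_eq_mul]
      norm_cast
      calc I.card * (2 * N * (D ^ M * G ^ (2 * S)) * D ^ M)
          ≤ N * (2 * N * (D ^ M * G ^ (2 * S)) * D ^ M) := by gcongr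
        _ = 2 * N ^ 2 * D ^ (2 * M) * G ^ (2 * S) := by ring
        _ ≤ G ^ (2 * S) * G ^ (2 * S) := by gcongr
        _ = G ^ (4 * S) := by ring
  have S0 : St ψ γ cf w J S 0 := by
    refine ⟨Finset.univ, i₀, fun i => γ i / γ i₀, Finset.mem_univ _, fun i _ => ?_,
      fun i _ => ?_, ?_, by simpa using c2⟩
    · rw [pow_zero, pow_one, div_mul_cancel₀ _ (H.ne i₀)]
    · have a1 := r2 i.1
      have a2 := r2 i₀.1
      rw [(A3 i).2.2] at a1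
      rw [(A3 i₀).2.2, norm_sub_rev] at a2
      have a3 := (Padic.nonarchimedean _ _).trans_lt (max_lt a1 a2)
      rw [map_div₀, div_sub_one ((map_ne_zero ψ).2 (H.ne i₀)), norm_div, nγ, div_one, hγ]
      simpa using a3
    · obtain ⟨i, hi⟩ := Function.ne_iff.1 c0
      exact ⟨i, Finset.mem_univ _, hi⟩
  have SJ : ∀ j ≤ J, St ψ γ cf w J S j := by
    intro j hj
    induction j with
    | zero => exact S0
    | succ j ih => exact (ih (by omega)).succ hLV hSW hKD H hj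
  obtain ⟨I, i₁, u, I1, I2⟩ := (SJ J le_rfl).card H inj J0
  subst hγ
  have := card_le hBX ν0 (fun i : A => i.1.1) (fun i => i.1.2) (J := J) (δ := δ) (fun i j => ?_)
    (fun i j => E4 _ (A3 i).2.1 _ (A3 j).2.1) inj I i₁ u I2
  · omega
  · have a1 := (A3 i).1
    have a2 := (A3 j).1
    have a3 : |(i.1.1 : ℤ) - j.1.1| ≤ (2 ^ J₀ : ℕ) := by rw [abs_le]; omega
    have a4 : (h : ℤ) ≤ (2 ^ h' : ℕ) := by omega
    rw [hJ, pow_add, mul_comm]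
    exact mul_le_mul (by exact_mod_cast ν1.trans a4) (by exact_mod_cast a3) (abs_nonneg _)
      (by positivity)

end Pool.Agent.Lib.MP_de9007_nt.PS
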