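import Mathlib
import Pool.Agent.Lib.MP_de9007_nt.PS.Stmt

/-! Small integral linear forms on a finite family of units. -/

namespace Pool.Agent.Lib.MP_de9007_nt.PS

open NumberField Module

namespace FMAux

/-- A subfamily of maximal determinant has coordinates of size at most one. -/
theorem spanner_top {M ι : Type} [AddCommGroup M] [Module ℚ M] [Module.Finite ℚ M] [Fintype ι]
    (v : ι → M) (hv : Submodule.span ℚ (Set.range v) = ⊤) :
    ∃ e : Fin (finrank ℚ M) → ι, LinearIndependent ℚ (v ∘ e) ∧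
      ∀ i, ∃ y : Fin (finrank ℚ M) → ℚ, (∀ a, |y a| ≤ 1) ∧ v i = ∑ a, y a • v (e a) := by
  classical
  obtain ⟨f, hf, hsp, hli⟩ := Submodule.exists_fun_fin_finrank_span_eq ℚ (Set.range v)
  have hr : finrank ℚ M = finrank ℚ (Submodule.span ℚ (Set.range v)) := by
    rw [hv, finrank_top]
  choose e0 he0 using hf
  let β := Module.finBasis ℚ M
  let e1 : Fin (finrank ℚ M) → ι := e0 ∘ finCongr hr
  have h1 : IsUnit (β.det (v ∘ e1)) := by
    have hfe : v ∘ e1 = f ∘ finCongr hr := by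
      funext a
      simp only [e1, Function.comp_apply, he0]
    refine β.is_basis_iff_det.1 ⟨?_, ?_⟩
    · rw [hfe]
      exact hli.comp _ (finCongr hr).injective
    · rw [hfe, (finCongr hr).surjective.range_comp, hsp, hv]
  obtain ⟨e, -, he⟩ := Finset.exists_max_image (Finset.univ : Finset (Fin (finrank ℚ M) → ι))
    (fun e => |β.det (v ∘ e)|) ⟨e1, Finset.mem_univ _⟩
  have hpos : 0 < |β.det (v ∘ e)| :=
    lt_of_lt_of_le (abs_pos.2 h1.ne_zero) (he e1 (Finset.mem_univ _))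
  obtain ⟨hli', hsp'⟩ := β.is_basis_iff_det.2 (IsUnit.mk0 _ (abs_pos.1 hpos))
  refine ⟨e, hli', fun i => ⟨fun a => (Basis.mk hli' hsp'.ge).coord a (v i), fun a => ?_, ?_⟩⟩
  · have h2 := LinearMap.congr_fun (β.det_smul_mk_coord_eq_det_update hli' hsp'.ge a) (v i)
    simp only [LinearMap.smul_apply, smul_eq_mul, MultilinearMap.toLinearMap_apply,
      AlternatingMap.coe_multilinearMap] at h2
    have h3 : Function.update (v ∘ e) a (v i) = v ∘ Function.update e a i :=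
      (Function.comp_update v e a i).symm
    rw [h3] at h2
    have h4 := he (Function.update e a i) (Finset.mem_univ _)
    rw [← h2, abs_mul] at h4
    by_contra h5
    push Not at h5
    nlinarith
  · have h2 := (Basis.mk hli' hsp'.ge).sum_repr (v i)
    simp only [Basis.coe_mk, Function.comp_apply] at h2
    simpa only [Basis.coord_apply] using h2.symm

theorem spanner {κ ι : Type} [Fintype κ] [Fintype ι] (x : ι → κ → ℚ) :
    ∃ r : ℕ, r ≤ Fintype.card κ ∧ ∃ e : Fin r → ι,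
      (∀ g : Fin r → ℚ, (∀ m, ∑ a, g a * x (e a) m = 0) → g = 0) ∧
      ∀ i, ∃ y : Fin r → ℚ, (∀ a, |y a| ≤ 1) ∧ ∀ m, x i m = ∑ a, y a * x (e a) m := by
  let V := Submodule.span ℚ (Set.range x)
  let v : ι → V := fun i => ⟨x i, Submodule.subset_span ⟨i, rfl⟩⟩
  have hv : Submodule.span ℚ (Set.range v) = ⊤ :=
    Submodule.span_range_subtype_eq_top_iff V _ |>.2 rfl
  obtain ⟨e, hli, hy⟩ := spanner_top v hv
  refine ⟨finrank ℚ V, ?_, e, fun g hg => ?_, fun i => ?_⟩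
  · simpa using Submodule.finrank_le V
  · funext a
    refine Fintype.linearIndependent_iff.1 hli g ?_ a
    apply Subtype.ext
    funext m
    simpa [v, Finset.sum_apply] using hg m
  · obtain ⟨y, hy1, hy2⟩ := hy i
    refine ⟨y, hy1, fun m => ?_⟩
    have := congrFun (congrArg Subtype.val hy2) m
    simpa [v, Finset.sum_apply] using this

/-- The common denominator. -/
theorem denom {κ S : Type} [Fintype κ] [Fintype S] {r : ℕ} (lam : κ → S → ℝ)
    (z : Fin r → κ → ℤ) (Δ N : ℕ)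
    (hli : ∀ g : Fin r → ℚ, (∀ m, ∑ a, g a * (z a m : ℚ) = 0) → g = 0)
    (h1 : ∀ a s, |∑ m, (z a m : ℝ) * lam m s| ≤ Δ)
    (h2 : ∀ v : κ → ℤ, (∀ s, |∑ m, (v m : ℝ) * lam m s| * N < 1) → v = 0) :
    ∃ D : ℕ, 0 < D ∧ D ≤ (2 * r * Δ * N + 1) ^ Fintype.card S ∧
      ∀ g : Fin r → ℚ, (∃ v : κ → ℤ, ∀ m, (v m : ℚ) = ∑ a, g a * (z a m : ℚ)) →
        ∃ w : Fin r → ℤ, ∀ a, (w a : ℚ) = D * g a := by
  classical
  let H : AddSubgroup (Fin r → ℚ) :=
    { carrier := {g | ∃ v : κ → ℤ, ∀ m, (v m : ℚ) = ∑ a, g a * (z a m : ℚ)}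
      zero_mem' := ⟨0, fun m => by simp⟩
      add_mem' := by
        rintro g g' ⟨v, hv⟩ ⟨v', hv'⟩
        exact ⟨v + v', fun m => by simp [hv m, hv' m, add_mul, Finset.sum_add_distrib]⟩
      neg_mem' := by
        rintro g ⟨v, hv⟩
        exact ⟨-v, fun m => by simp [hv m]⟩ }
  let Z : AddSubgroup H :=
    { carrier := {g | ∃ w : Fin r → ℤ, ∀ a, (w a : ℚ) = g.1 a}
      zero_mem' := ⟨0, fun a => by simp⟩
      add_mem' := by
        rintro g g' ⟨v, hv⟩ ⟨v', hv'⟩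
        exact ⟨v + v', fun m => by simp [hv m, hv' m]⟩
      neg_mem' := by
        rintro g ⟨v, hv⟩
        exact ⟨-v, fun m => by simp [hv m]⟩ }
  have hfr : ∀ g : H, ∃ v : κ → ℤ, ∀ m, (v m : ℚ) = ∑ a, Int.fract (g.1 a) * (z a m : ℚ) := by
    rintro ⟨g, v, hv⟩
    refine ⟨fun m => v m - ∑ a, ⌊g a⌋ * z a m, fun m => ?_⟩
    push_cast
    rw [hv m, ← Finset.sum_sub_distrib]
    refine Finset.sum_congr rfl fun a _ => ?_
    rw [Int.fract]
    ring
  choose u hu using hfr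
  let ell : H → S → ℝ := fun g s => ∑ m, (u g m : ℝ) * lam m s
  have hell : ∀ g s, |ell g s| ≤ r * Δ := by
    intro g s
    have e1 : ell g s = ∑ a, ((Int.fract (g.1 a) : ℚ) : ℝ) * ∑ m, (z a m : ℝ) * lam m s := by
      simp only [ell, Finset.mul_sum]
      rw [Finset.sum_comm]
      refine Finset.sum_congr rfl fun m _ => ?_
      have := congrArg (fun t : ℚ => (t : ℝ)) (hu g m)
      simp only [Rat.cast_intCast, Rat.cast_sum, Rat.cast_mul] at this
      rw [this, Finset.sum_mul]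
      exact Finset.sum_congr rfl fun a _ => by ring
    rw [e1]
    refine (Finset.abs_sum_le_sum_abs _ _).trans ?_
    have : ∀ a ∈ (Finset.univ : Finset (Fin r)),
        |((Int.fract (g.1 a) : ℚ) : ℝ) * ∑ m, (z a m : ℝ) * lam m s| ≤ Δ := by
      intro a _
      rw [abs_mul]
      have a0 : (0 : ℝ) ≤ ((Int.fract (g.1 a) : ℚ) : ℝ) := by exact_mod_cast Int.fract_nonneg _
      have a1 : ((Int.fract (g.1 a) : ℚ) : ℝ) ≤ 1 := by exact_mod_cast (Int.fract_lt_one _).le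
      rw [abs_of_nonneg a0]
      have := h1 a s
      nlinarith [abs_nonneg (∑ m, (z a m : ℝ) * lam m s)]
    refine (Finset.sum_le_card_nsmul _ _ _ this).trans ?_
    simp
  let B : Finset ℤ := Finset.Icc (-((r * Δ * N : ℕ) : ℤ)) ((r * Δ * N : ℕ) : ℤ)
  have hB : ∀ g s, ⌊ell g s * N⌋ ∈ B := by
    intro g s
    have h := abs_le.1 (hell g s)
    have hN : (0 : ℝ) ≤ N := Nat.cast_nonneg _
    refine Finset.mem_Icc.2 ⟨Int.le_floor.2 ?_, ?_⟩
    · push_cast
      nlinarith [h.1]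
    · have : (⌊ell g s * N⌋ : ℝ) ≤ (((r * Δ * N : ℕ) : ℤ) : ℝ) := by
        refine (Int.floor_le _).trans ?_
        push_cast
        nlinarith [h.2]
      exact_mod_cast this
  let F : (H ⧸ Z) → S → B := fun q s => ⟨⌊ell q.out s * N⌋, hB _ _⟩
  have hF : Function.Injective F := by
    intro q q' hq
    have h3 : u q.out - u q'.out = 0 := by
      refine h2 _ fun s => ?_
      have h4 : ⌊ell q.out s * N⌋ = ⌊ell q'.out s * N⌋ := congrArg Subtype.val (congrFun hq s)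
      have h5 := Int.abs_sub_lt_one_of_floor_eq_floor h4
      have h6 : ∑ m, (((u q.out - u q'.out) m : ℤ) : ℝ) * lam m s = ell q.out s - ell q'.out s := by
        simp only [ell, Pi.sub_apply, Int.cast_sub, sub_mul, Finset.sum_sub_distrib]
      rw [h6]
      rwa [← sub_mul, abs_mul, Nat.abs_cast] at h5
    have h4 := hli (fun a => Int.fract (q.out.1 a) - Int.fract (q'.out.1 a)) fun m => by
      simp only [sub_mul, Finset.sum_sub_distrib]
      rw [← hu, ← hu, sub_eq_zero.1 h3, sub_self]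
    rw [← QuotientAddGroup.out_eq' q, ← QuotientAddGroup.out_eq' q', QuotientAddGroup.eq]
    refine ⟨fun a => ⌊q'.out.1 a⌋ - ⌊q.out.1 a⌋, fun a => ?_⟩
    have h5 := congrFun h4 a
    simp only [Int.fract, Pi.zero_apply] at h5
    simp only [AddSubgroup.coe_add, AddSubgroup.coe_neg, Pi.add_apply, Pi.neg_apply]
    push_cast
    linarith
  have : Finite (H ⧸ Z) := Finite.of_injective F hF
  refine ⟨Nat.card (H ⧸ Z), Nat.card_pos, ?_, fun g hg => ?_⟩
  · refine (Nat.card_le_card_of_injective F hF).trans (le_of_eq ?_)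
    rw [Nat.card_fun, Nat.card_eq_fintype_card, Nat.card_eq_fintype_card, Fintype.card_coe]
    congr 1
    simp only [B, Int.card_Icc]
    have : ((r * Δ * N : ℕ) : ℤ) + 1 - -((r * Δ * N : ℕ) : ℤ) = ((2 * r * Δ * N + 1 : ℕ) : ℤ) := by
      push_cast
      ring
    rw [this, Int.toNat_natCast]
  · obtain ⟨w, hw⟩ : Z.index • (⟨g, hg⟩ : H) ∈ Z := Z.nsmul_index_mem _
    refine ⟨w, fun a => ?_⟩
    rw [hw a]
    simp [AddSubgroup.index]

/-- The abstract form of the statement. -/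
theorem core {κ S ι : Type} [Fintype κ] [Fintype S] [Fintype ι] (lam : κ → S → ℝ)
    (x : ι → κ → ℤ) (Δ N k : ℕ) (hk : Fintype.card κ ≤ k)
    (h1 : ∀ i s, |∑ m, (x i m : ℝ) * lam m s| ≤ Δ)
    (h2 : ∀ v : κ → ℤ, (∀ s, |∑ m, (v m : ℝ) * lam m s| * N < 1) → v = 0) :
    ∃ (D : ℕ) (w : ι → Fin k → ℤ) (n : κ → Fin k → ℤ), 0 < D ∧
      D ≤ (2 * k * Δ * N + 1) ^ Fintype.card S ∧ (∀ i a, |w i a| ≤ D) ∧
      ∀ i m, D * x i m = ∑ a, n m a * w i a := by
  classical
  obtain ⟨r, hr, e, hli, hy⟩ := spanner fun i m => (x i m : ℚ)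
  have hrk : r ≤ k := hr.trans hk
  obtain ⟨D, hD0, hD1, hD⟩ := denom lam (fun a => x (e a)) Δ N hli (fun a s => h1 (e a) s) h2
  choose y hy1 hy2 using hy
  choose w hw using fun i => hD (y i) ⟨x i, hy2 i⟩
  refine ⟨D, fun i a => if h : a.1 < r then w i ⟨a.1, h⟩ else 0,
    fun m a => if h : a.1 < r then x (e ⟨a.1, h⟩) m else 0, hD0, hD1.trans ?_, fun i a => ?_,
    fun i m => ?_⟩
  · gcongr
  · dsimp only
    split_ifs with h
    · have h3 : ((|w i ⟨a.1, h⟩| : ℤ) : ℚ) ≤ ((D : ℤ) : ℚ) := by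
        push_cast
        rw [hw, abs_mul, Nat.abs_cast]
        exact mul_le_of_le_one_right (Nat.cast_nonneg _) (hy1 i _)
      exact_mod_cast h3
    · simp
  · have h3 : (D : ℤ) * x i m = ∑ a : Fin r, x (e a) m * w i a := by
      have : ((D * x i m : ℤ) : ℚ) = ((∑ a : Fin r, x (e a) m * w i a : ℤ) : ℚ) := by
        push_cast
        rw [hy2 i m, Finset.mul_sum]
        exact Finset.sum_congr rfl fun a _ => by rw [hw]; ring
      exact_mod_cast this
    rw [h3]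
    refine Finset.sum_of_injOn (Fin.castLE hrk) (Fin.castLE_injective hrk).injOn
      (fun _ _ => Finset.mem_univ _) (fun a _ ha => ?_) (fun a _ => ?_)
    · have h : ¬ a.1 < r := fun h => ha ⟨⟨a.1, h⟩, Finset.mem_coe.2 (Finset.mem_univ _), rfl⟩
      simp [h]
    · simp

variable {L : Type} [Field L] [NumberField L]

omit [NumberField L] in
theorem norm_pos (σ : L →+* ℂ) (u : (𝓞 L)ˣ) : 0 < ‖σ (u : 𝓞 L)‖ := by
  refine norm_pos_iff.2 ((map_ne_zero σ).2 ?_)
  exact RingOfIntegers.coe_ne_zero_iff.2 u.ne_zero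

/-- The binary logarithm of the absolute value of a unit at an embedding. -/
noncomputable def lg (σ : L →+* ℂ) : Additive (𝓞 L)ˣ →+ ℝ :=
  AddMonoidHom.mk' (fun u => Real.logb 2 ‖σ (u.toMul : 𝓞 L)‖) fun u v => by
    rw [← Real.logb_mul (norm_pos σ _).ne' (norm_pos σ _).ne', ← norm_mul, ← map_mul]
    rfl

omit [NumberField L] in
theorem lg_apply (σ : L →+* ℂ) (u : (𝓞 L)ˣ) :
    lg σ (Additive.ofMul u) = Real.logb 2 ‖σ (u : 𝓞 L)‖ := rfl

omit [NumberField L] in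
theorem lg_prod {κ : Type} [Fintype κ] (σ : L →+* ℂ) (φ : κ → (𝓞 L)ˣ) (v : κ → ℤ) :
    lg σ (Additive.ofMul (∏ m, φ m ^ v m)) = ∑ m, (v m : ℝ) * lg σ (Additive.ofMul (φ m)) := by
  rw [ofMul_prod, map_sum]
  refine Finset.sum_congr rfl fun m _ => ?_
  rw [ofMul_zpow, map_zsmul, zsmul_eq_mul]

theorem sq_torsion [IsTotallyReal L] {ζ : (𝓞 L)ˣ} (h : ζ ∈ Units.torsion L) : ζ ^ 2 = 1 := by
  obtain ⟨σ⟩ : Nonempty (L →+* ℂ) := inferInstance
  have h1 : ‖σ (ζ : 𝓞 L)‖ = 1 := (Units.mem_torsion L).1 h (InfinitePlace.mk σ)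
  have h2 : (starRingEnd ℂ) (σ (ζ : 𝓞 L)) = σ (ζ : 𝓞 L) :=
    RingHom.congr_fun (ComplexEmbedding.isReal_iff.1 (IsTotallyReal.complexEmbedding_isReal σ)) _
  have h3 : σ (ζ : 𝓞 L) ^ 2 = 1 := by
    have := Complex.mul_conj' (σ (ζ : 𝓞 L))
    rw [h2, h1] at this
    rw [sq, this]
    simp
  apply Units.ext
  apply RingOfIntegers.coe_injective
  apply σ.injective
  simpa using h3

theorem torsion_of_small (hB : BX) [IsTotallyReal L] (u : (𝓞 L)ˣ)
    (h : ∀ σ : L →+* ℂ, |lg σ (Additive.ofMul u)| * (5 ^ finrank ℚ L : ℕ) < 1) :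
    u ∈ Units.torsion L := by
  classical
  rw [Units.torsion, CommGroup.mem_torsion]
  by_contra hn
  have hinj := injective_pow_iff_not_isOfFinOrder.2 hn
  have hinj' : Function.Injective fun k : ℕ => (((u ^ k : (𝓞 L)ˣ) : 𝓞 L) : L) :=
    fun a b hab => hinj (Units.ext (RingOfIntegers.coe_injective hab))
  have hc := hB L 2 ((Finset.range (5 ^ finrank ℚ L + 1)).image
    fun k : ℕ => (((u ^ k : (𝓞 L)ˣ) : 𝓞 L) : L)) ?_ ?_
  · rw [Finset.card_image_of_injective _ hinj', Finset.card_range] at hc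
    norm_num at hc
  · intro x hx
    obtain ⟨k, -, rfl⟩ := Finset.mem_image.1 hx
    exact RingOfIntegers.isIntegral_coe _
  · intro x hx σ
    obtain ⟨k, hk, rfl⟩ := Finset.mem_image.1 hx
    have hk' : (k : ℝ) ≤ (5 ^ finrank ℚ L : ℕ) := by
      exact_mod_cast Nat.lt_succ_iff.1 (Finset.mem_range.1 hk)
    have h1 : lg σ (Additive.ofMul (u ^ k)) ≤ 1 := by
      rw [ofMul_pow, map_nsmul, nsmul_eq_mul]
      have h2 := h σ
      have h3 := le_abs_self (lg σ (Additive.ofMul u))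
      have h4 := abs_nonneg (lg σ (Additive.ofMul u))
      have h5 : (0 : ℝ) ≤ k := Nat.cast_nonneg _
      nlinarith
    rw [lg_apply, Real.logb_le_iff_le_rpow one_lt_two (norm_pos σ _), Real.rpow_one] at h1
    exact_mod_cast h1

theorem abs_lg_le (σ : L →+* ℂ) (u : (𝓞 L)ˣ) (Δ : ℕ) (h1 : ‖σ (u : 𝓞 L)‖ ≤ 2 ^ Δ)
    (h2 : ‖σ ((u⁻¹ : (𝓞 L)ˣ) : 𝓞 L)‖ ≤ 2 ^ Δ) : |lg σ (Additive.ofMul u)| ≤ Δ := by
  have key : ∀ v : (𝓞 L)ˣ, ‖σ (v : 𝓞 L)‖ ≤ 2 ^ Δ → lg σ (Additive.ofMul v) ≤ Δ := by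
    intro v hv
    rw [lg_apply, Real.logb_le_iff_le_rpow one_lt_two (norm_pos σ _), Real.rpow_natCast]
    exact hv
  have h3 := key _ h2
  rw [ofMul_inv, map_neg] at h3
  exact abs_le.2 ⟨by linarith, key _ h1⟩

end FMAux

open FMAux in
theorem FM_thm (hB : BX) : FM := by
  intro L _ _ _ ι _ ε Δ h1 h2
  have hr : finrank ℚ L - 1 = Units.rank L := by
    rw [Units.rank, InfinitePlace.card_eq_nrRealPlaces_add_nrComplexPlaces,
      IsTotallyReal.nrComplexPlaces_eq_zero, add_zero, IsTotallyReal.finrank]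
  rw [hr]
  choose t ht using fun i => (Units.exist_unique_eq_mul_prod L (ε i)).exists
  have hsq : ∀ i, ε i ^ 2 = (∏ m, Units.fundSystem L m ^ (t i).2 m) ^ 2 := by
    intro i
    conv_lhs => rw [ht i]
    rw [mul_pow, sq_torsion (t i).1.2, one_mul]
  have k1 : ∀ i (σ : L →+* ℂ),
      |∑ m, ((t i).2 m : ℝ) * lg σ (Additive.ofMul (Units.fundSystem L m))| ≤ Δ := by
    intro i σ
    rw [← lg_prod]
    have h3 := congrArg (fun u => lg σ (Additive.ofMul u)) (hsq i)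
    simp only [ofMul_pow, map_nsmul, nsmul_eq_mul] at h3
    have h4 := mul_left_cancel₀ (by norm_num) h3
    rw [← h4]
    exact abs_lg_le σ _ Δ (h1 i σ) (h2 i σ)
  have k2 : ∀ v : Fin (Units.rank L) → ℤ, (∀ σ : L →+* ℂ,
      |∑ m, (v m : ℝ) * lg σ (Additive.ofMul (Units.fundSystem L m))| *
        (5 ^ finrank ℚ L : ℕ) < 1) → v = 0 := by
    intro v hv
    have h3 := torsion_of_small hB (∏ m, Units.fundSystem L m ^ v m) fun σ => by
      rw [lg_prod]
      exact hv σ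
    have h4 := (Units.exist_unique_eq_mul_prod L (∏ m, Units.fundSystem L m ^ v m)).unique
      (y₁ := (1, v)) (y₂ := (⟨_, h3⟩, 0)) (by simp) (by simp)
    exact congrArg Prod.snd h4
  obtain ⟨D, w, n, hD0, hD1, hw, hn⟩ := core
    (fun m (σ : L →+* ℂ) => lg σ (Additive.ofMul (Units.fundSystem L m))) (fun i => (t i).2) Δ
    (5 ^ finrank ℚ L) (Units.rank L) (by simp) k1 k2
  refine ⟨D, w, fun i => (t i).2, Units.fundSystem L, n, hD0, hD1.trans ?_, hw, hsq, hn⟩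
  rw [Embeddings.card]
  have : Units.rank L ≤ finrank ℚ L := by omega
  gcongr

end Pool.Agent.Lib.MP_de9007_nt.PS
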