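import Pool.Agent.Lib.MP_de9007_nt.PS.Step

/-! The first and the last stage. -/

namespace Pool.Agent.Lib.MP_de9007_nt.PS

open NumberField

variable {L : Type} [Field L] [NumberField L]

theorem exists_val {a b : ℤ} (ha : a ≠ 0) (hb : b ≠ 0) (hab : a.natAbs ≠ b.natAbs) {h : ℕ}
    (h1 : |a| ≤ 2 ^ h) (h2 : |b| ≤ 2 ^ h) : ∃ p : ℕ, p.Prime ∧
      padicValRat p ((a : ℚ) / b) ≠ 0 ∧ |padicValRat p ((a : ℚ) / b)| ≤ h := by
  have h3 := mt (Nat.eq_iff_prime_padicValNat_eq _ _ (Int.natAbs_ne_zero.2 ha)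
    (Int.natAbs_ne_zero.2 hb)).2 hab
  push Not at h3
  obtain ⟨p, hp, h4⟩ := h3
  have : Fact p.Prime := ⟨hp⟩
  have key : ∀ z : ℤ, z ≠ 0 → |z| ≤ 2 ^ h → padicValNat p z.natAbs ≤ h := by
    intro z h0 hz
    have a1 := Nat.le_of_dvd (Int.natAbs_pos.2 h0) (pow_padicValNat_dvd (p := p) (n := z.natAbs))
    have a2 : z.natAbs ≤ 2 ^ h := by
      rw [Int.abs_eq_natAbs] at hz; exact_mod_cast hz
    exact (Nat.pow_le_pow_iff_right one_lt_two).1
      ((Nat.pow_le_pow_left hp.two_le _).trans (a1.trans a2))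
  have a1 := key a ha h1
  have a2 := key b hb h2
  refine ⟨p, hp, ?_⟩
  rw [padicValRat.div (Int.cast_ne_zero.2 ha) (Int.cast_ne_zero.2 hb), padicValRat.of_int,
    padicValRat.of_int, padicValInt, padicValInt, abs_le]
  omega

theorem val_norm (p : ℕ) [Fact p.Prime] {g : ℚ} (hg : g ≠ 0) (k : ℕ) (ε : (𝓞 L)ˣ) :
    padicValRat p (Algebra.norm ℚ ((g : L) ^ k * (ε : L))) =
      k * Module.finrank ℚ L * padicValRat p g := by
  have h1 := NumberField.Units.norm L ε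
  have h2 : padicValRat p (Algebra.norm ℚ (ε : L)) = 0 := by
    rcases abs_eq (zero_le_one) |>.1 h1 with h | h <;> simp [h]
  have h3 : Algebra.norm ℚ (ε : L) ≠ 0 := by intro h; simp [h] at h1
  rw [map_mul, map_pow, ← eq_ratCast (algebraMap ℚ L), Algebra.norm_algebraMap,
    padicValRat.mul (by positivity) h3, h2, padicValRat.pow, padicValRat.pow]
  ring

theorem ga_ne {g : ℚ} (hg : g ≠ 0) (k : ℕ) (ε : (𝓞 L)ˣ) : (g : L) ^ k * (ε : L) ≠ 0 :=
  mul_ne_zero (pow_ne_zero _ (Rat.cast_ne_zero.2 hg)) (Units.coe_ne_zero ε)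

omit [NumberField L] in
theorem coe_div (x y : (𝓞 L)ˣ) : (((x * y⁻¹ : (𝓞 L)ˣ) : 𝓞 L) : L) = (x : L) / (y : L) := by
  rw [eq_div_iff (Units.coe_ne_zero y), ← Units.coe_mul, inv_mul_cancel_right]

theorem card_le [IsTotallyReal L] (hBX : BX) {ι : Type} {p : ℕ} [Fact p.Prime] {g : ℚ}
    (hν : padicValRat p g ≠ 0) (k : ι → ℕ) (ε : ι → (𝓞 L)ˣ) {J δ : ℕ}
    (hk : ∀ i j, |(k i : ℤ) - k j| * |padicValRat p g| ≤ 2 ^ J)
    (hε : ∀ i j (σ : L →+* ℂ), ‖σ ((ε i * (ε j)⁻¹ : (𝓞 L)ˣ) : 𝓞 L)‖ ≤ 2 ^ (δ * 2 ^ J))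
    (hγ : Function.Injective fun i => (g : L) ^ k i * (ε i : L)) (I : Finset ι) (i₀ : ι)
    (u : ι → L) (hu : ∀ i ∈ I, u i ^ 2 ^ J * ((g : L) ^ k i₀ * (ε i₀ : L)) =
      (g : L) ^ k i * (ε i : L)) :
    I.card ≤ (2 * 2 ^ δ + 1) ^ Module.finrank ℚ L * (2 * Module.finrank ℚ L + 1) := by
  classical
  have hg : g ≠ 0 := by rintro rfl; simp at hν
  have d0 : 0 < Module.finrank ℚ L := Module.finrank_pos
  have u0 : ∀ i ∈ I, u i ≠ 0 := by
    intro i hi h
    have := hu i hi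
    rw [h, zero_pow (by positivity), zero_mul] at this
    exact ga_ne hg _ _ this.symm
  let f : ι → ℤ := fun i => padicValRat p (Algebra.norm ℚ (u i))
  have hf : ∀ i ∈ I, 2 ^ J * f i = ((k i : ℤ) - k i₀) * Module.finrank ℚ L * padicValRat p g := by
    intro i hi
    have h1 := congrArg (fun y => padicValRat p (Algebra.norm ℚ y)) (hu i hi)
    rw [map_mul, map_pow, padicValRat.mul
      (pow_ne_zero _ (Algebra.norm_ne_zero_iff.2 (u0 i hi)))
      (Algebra.norm_ne_zero_iff.2 (ga_ne hg _ _)), val_norm p hg, val_norm p hg,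
      padicValRat.pow] at h1
    push_cast at h1
    linear_combination h1
  have h1 := Finset.card_le_mul_card_image_of_maps_to (s := I) (f := f)
    (t := Finset.Icc (-(Module.finrank ℚ L : ℤ)) (Module.finrank ℚ L)) (fun i hi => ?_)
    ((2 * 2 ^ δ + 1) ^ Module.finrank ℚ L) fun b _ => ?_
  · rw [Int.card_Icc] at h1
    refine h1.trans (Nat.mul_le_mul_left _ (by omega))
  · rw [Finset.mem_Icc, ← abs_le]
    have a1 := congrArg abs (hf i hi)
    rw [abs_mul, abs_mul, abs_mul, abs_of_pos (by positivity), Nat.abs_cast] at a1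
    refine le_of_mul_le_mul_left (a := 2 ^ J) ?_ (by positivity)
    rw [a1, mul_right_comm]
    exact mul_le_mul_of_nonneg_right (hk i i₀) (Nat.cast_nonneg _)
  · rcases (I.filter fun a => f a = b).eq_empty_or_nonempty with h | ⟨j, hj⟩
    · simp [h]
    obtain ⟨j1, j2⟩ := Finset.mem_filter.1 hj
    have key : ∀ i ∈ I.filter fun a => f a = b,
        (u i / u j) ^ 2 ^ J = ((ε i * (ε j)⁻¹ : (𝓞 L)ˣ) : 𝓞 L) := by
      intro i hi
      obtain ⟨i1, i2⟩ := Finset.mem_filter.1 hi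
      have a1 : k i = k j := by
        have a2 := hf i i1
        rw [i2, ← j2, hf j j1] at a2
        have a3 := mul_right_cancel₀ (Nat.cast_ne_zero.2 d0.ne') (mul_right_cancel₀ hν a2)
        omega
      have a2 := hu i i1
      have a3 := hu j j1
      have a4 := ga_ne hg (k i₀) (ε i₀)
      have a5 : (g : L) ^ k j ≠ 0 := pow_ne_zero _ (Rat.cast_ne_zero.2 hg)
      rw [coe_div, div_pow, eq_div_of_mul_eq a4 a2, eq_div_of_mul_eq a4 a3, a1,
        div_div_div_cancel_right₀ a4, mul_div_mul_left _ _ a5]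
    rw [← Finset.card_image_of_injOn (f := fun i => u i / u j) fun i hi i' hi' e => hγ ?_]
    · refine hBX L (2 ^ δ) _ (fun y hy => ?_) fun y hy σ => ?_
      · obtain ⟨i, hi, rfl⟩ := Finset.mem_image.1 hy
        refine IsIntegral.of_pow (n := 2 ^ J) (by positivity) ?_
        rw [key i hi]
        exact RingOfIntegers.isIntegral_coe _
      · obtain ⟨i, hi, rfl⟩ := Finset.mem_image.1 hy
        refine le_of_pow_le_pow_left₀ (n := 2 ^ J) (by positivity) (by positivity) ?_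
        rw [← norm_pow, ← map_pow, key i hi]
        push_cast
        rw [← pow_mul]
        exact hε i j σ
    · have a1 := (div_left_inj' (u0 j j1)).1 e
      simp only
      rw [← hu i (Finset.mem_filter.1 hi).1, ← hu i' (Finset.mem_filter.1 hi').1, a1]

theorem exists_sym {κ : Type} (τ : Multiset κ) {m : ℕ} (h : τ.card ≤ m) :
    ∃ s : Sym (Option κ) m, ∀ w : κ → ℤ, mon (fun o : Option κ => o.elim 1 w) s.1 = mon w τ :=
  ⟨⟨τ.map some + Multiset.replicate (m - τ.card) none, by simp; omega⟩, fun w => by simp [mon]⟩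

theorem siegel [IsTotallyReal L] (hSG : SG) {ι κ : Type} [Fintype ι] [Fintype κ] (θ : ι → L)
    {Dn : ℤ} {G : ℕ} (hD0 : Dn ≠ 0) (hD : |Dn| ≤ G) (h1 : ∀ i, IsIntegral ℤ (Dn * θ i))
    (h2 : ∀ i (σ : L →+* ℂ), ‖σ (Dn * θ i)‖ ≤ G) (w : ι → κ → ℤ) {D : ℕ} (hD1 : 0 < D)
    (hw : ∀ i a, |w i a| ≤ D) {S m : ℕ} (h0 : 0 < Fintype.card ι)
    (hN : 2 * Module.finrank ℚ L * (S * (Fintype.card κ + m).choose m) ≤ Fintype.card ι) :
    ∃ c : ι → ℤ, c ≠ 0 ∧ (∀ i, |c i| ≤ 2 * Fintype.card ι * (D ^ m * G ^ (2 * S) : ℕ)) ∧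
      ∀ s, Odd s → s < 2 * S → Van c w Finset.univ θ s m := by
  classical
  have hG : 0 < G := by
    have := abs_pos.2 hD0
    omega
  have hs := fun i (e : Fin S) => size (F := L) hD (h1 i) (h2 i) (ρ := θ i) (e := 1)
    (s := 2 * e + 1) (μ := 2 * S) one_pos (by simp) (by omega)
  obtain ⟨c, c0, c1, c2⟩ := hSG L ι (Fin S × Sym (Option κ) m)
    (fun z i => (mon (fun o : Option κ => o.elim 1 (w i)) z.2.1 : ℤ) *
      ((Dn : L) ^ (2 * S) * θ i ^ (2 * (z.1 : ℕ) + 1))) (D ^ m * G ^ (2 * S)) (by positivity) h0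
    (by
      rw [Fintype.card_prod, Fintype.card_fin, Sym.card_sym_eq_choose, Fintype.card_option,
        show Fintype.card κ + 1 + m - 1 = Fintype.card κ + m by omega]
      exact hN)
    (fun z i => IsIntegral.mul (by
      rw [← eq_intCast (algebraMap ℤ L)]; exact isIntegral_algebraMap) (hs i z.1).1)
    (fun z i σ => by
      have a1 := mon_le (w := fun o : Option κ => o.elim 1 (w i)) (D := D)
        (fun o => by
          rcases o with _ | a
          · simpa using Nat.succ_le_of_lt hD1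
          · exact hw i a) z.2.1
      rw [z.2.2] at a1
      rw [map_mul, norm_mul, map_intCast, Complex.norm_intCast]
      push_cast
      exact mul_le_mul (by exact_mod_cast a1) ((hs i z.1).2 σ) (norm_nonneg _) (by positivity))
  refine ⟨c, c0, c1, ?_⟩
  rintro _ ⟨e, rfl⟩ he τ hτ
  obtain ⟨s, hs'⟩ := exists_sym τ hτ
  have a1 := c2 (⟨e, by omega⟩, s)
  simp only [hs'] at a1
  refine (mul_eq_zero.1 ?_).resolve_left (pow_ne_zero (2 * S) (Int.cast_ne_zero.2 hD0 : (Dn : L) ≠ 0))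
  rw [← a1, Finset.mul_sum]
  exact Finset.sum_congr rfl fun i _ => by push_cast; ring

end Pool.Agent.Lib.MP_de9007_nt.PS
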