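import Pool.Agent.Lib.MP_de9007_nt.PS.Stmt

/-! Kummer descent for families of square roots. -/

namespace Pool.Agent.Lib.MP_de9007_nt.PS

open Polynomial IntermediateField

namespace KDAux

variable {K Ω : Type} [Field K] [Field Ω] [Algebra K Ω]

theorem aeval_sq {x : Ω} {c : K} (h : x ^ 2 = algebraMap K Ω c) :
    aeval x (X ^ 2 - C c : K[X]) = 0 := by
  simp [h]

theorem int_sq {x : Ω} {c : K} (h : x ^ 2 = algebraMap K Ω c) : IsIntegral K x :=
  ⟨X ^ 2 - C c, monic_X_pow_sub_C c two_ne_zero, by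
    rw [← aeval_def]; exact aeval_sq h⟩

theorem deg_sq {x : Ω} {c : K} (h : x ^ 2 = algebraMap K Ω c) : (minpoly K x).natDegree ≤ 2 := by
  have h1 := natDegree_le_of_dvd (minpoly.dvd K x (aeval_sq h))
    (monic_X_pow_sub_C c two_ne_zero).ne_zero
  rwa [natDegree_X_pow_sub_C] at h1

theorem rank_le {α : Type} (ρ : α → Ω) (hρ : ∀ j, ∃ c : K, ρ j ^ 2 = algebraMap K Ω c)
    (S : Finset α) : Module.finrank K (adjoin K (ρ '' (S : Set α))) ≤ 2 ^ S.card := by
  classical
  induction S using Finset.induction_on with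
  | empty =>
    rw [Finset.coe_empty, Set.image_empty, adjoin_empty, IntermediateField.finrank_bot]
    simp
  | insert j S hj ih =>
    obtain ⟨c, hc⟩ := hρ j
    rw [Finset.coe_insert, Set.image_insert_eq, Set.insert_eq, adjoin_union,
      Finset.card_insert_of_notMem hj, pow_succ']
    refine (finrank_sup_le _ _).trans (Nat.mul_le_mul ?_ ih)
    rw [adjoin.finrank (int_sq hc)]
    exact deg_sq hc

theorem trace_zero {F : Type} [Field F] [Algebra K F] [FiniteDimensional K F] {y : F} {c : K}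
    (h : y ^ 2 = algebraMap K F c) (hy : y ∉ (algebraMap K F).range) :
    Algebra.trace K F y = 0 := by
  have hi := int_sq h
  have h2 := (minpoly.two_le_natDegree_iff hi).2 hy
  have he : (X ^ 2 - C c : K[X]) = minpoly K y :=
    eq_of_monic_of_dvd_of_natDegree_le (minpoly.monic hi) (monic_X_pow_sub_C c two_ne_zero)
      (minpoly.dvd K y (aeval_sq h)) (by rwa [natDegree_X_pow_sub_C])
  rw [trace_eq_finrank_mul_minpoly_nextCoeff, ← he, nextCoeff, natDegree_X_pow_sub_C]
  simp [coeff_X_pow]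

theorem zpow_sum' {α : Type} {x : Ω} (hx : x ≠ 0) (S : Finset α) (n : α → ℤ) :
    x ^ (∑ j ∈ S, n j) = ∏ j ∈ S, x ^ n j := by
  classical
  induction S using Finset.induction_on with
  | empty => simp
  | insert j S hj ih => rw [Finset.sum_insert hj, Finset.prod_insert hj, zpow_add₀ hx, ih]

theorem field {ι κ : Type} [Fintype κ] (I : Finset ι) (r : ι → Ω) (u : ι → K) (v : ι → κ → ℤ)
    (h0 : ∀ i ∈ I, r i ≠ 0) (h2 : ∀ i ∈ I, r i ^ 2 = algebraMap K Ω (u i))
    (hr : ∀ n : ι → ℤ, (∀ m, ∑ i ∈ I, n i * v i m = 0) → ∏ i ∈ I, r i ^ n i = 1) :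
    ∃ F : IntermediateField K Ω, FiniteDimensional K F ∧
      Module.finrank K F ≤ 2 ^ Fintype.card κ ∧ ∀ i ∈ I, r i ∈ F := by
  classical
  set Λ : Submodule ℤ (κ → ℤ) := Submodule.span ℤ (v '' (I : Set ι)) with hΛ
  let b := Module.finBasis ℤ Λ
  have hd : Module.finrank ℤ Λ ≤ Fintype.card κ := by
    simpa using Submodule.finrank_le Λ
  have hb : ∀ j, ∃ n : ι → ℤ, ∑ i ∈ I, n i • v i = (b j : κ → ℤ) := fun j =>
    (Submodule.mem_span_image_finset_iff_exists_fun' ℤ).1 (b j).2
  choose n hn using hb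
  let ρ : Fin (Module.finrank ℤ Λ) → Ω := fun j => ∏ i ∈ I, r i ^ n j i
  have hρ : ∀ j, ∃ c : K, ρ j ^ 2 = algebraMap K Ω c := fun j =>
    ⟨∏ i ∈ I, u i ^ n j i, by
      rw [map_prod, ← Finset.prod_pow]
      refine Finset.prod_congr rfl fun i hi => ?_
      rw [map_zpow₀, ← h2 i hi, ← zpow_natCast, ← zpow_natCast, ← zpow_mul, ← zpow_mul, mul_comm]⟩
  let S : Finset (Fin (Module.finrank ℤ Λ)) := Finset.univ
  refine ⟨adjoin K (ρ '' (S : Set (Fin (Module.finrank ℤ Λ)))), ?_, ?_, ?_⟩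
  · refine finiteDimensional_adjoin ?_
    rintro x ⟨j, -, rfl⟩
    obtain ⟨c, hc⟩ := hρ j
    exact int_sq hc
  · refine (rank_le ρ hρ _).trans (Nat.pow_le_pow_right two_pos ?_)
    simpa [S] using hd
  · intro i hi
    have hv : v i ∈ Λ := Submodule.subset_span ⟨i, hi, rfl⟩
    let c := b.repr ⟨v i, hv⟩
    have hc : ∑ j, c j • (b j : κ → ℤ) = v i := by
      have := congrArg (fun x : Λ => (x : κ → ℤ)) (b.sum_repr ⟨v i, hv⟩)
      simpa only [Submodule.coe_sum, Submodule.coe_smul] using this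
    have h1 := hr (fun i' => (if i' = i then 1 else 0) - ∑ j, n j i' * c j) (fun m => by
      have e1 := congrFun hc m
      simp only [Finset.sum_apply, Pi.smul_apply, smul_eq_mul, ← hn, Finset.mul_sum] at e1
      simp only [sub_mul, Finset.sum_sub_distrib, ite_mul, one_mul, zero_mul,
        Finset.sum_ite_eq', hi, if_true, Finset.sum_mul]
      rw [← e1, Finset.sum_comm, sub_eq_zero]
      exact Finset.sum_congr rfl fun _ _ => Finset.sum_congr rfl fun _ _ => by ring)
    have h3 : ∏ i' ∈ I, r i' ^ ((if i' = i then 1 else 0) - ∑ j, n j i' * c j) =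
        r i / ∏ j, ρ j ^ c j := by
      rw [Finset.prod_congr rfl fun i' hi' => zpow_sub₀ (h0 i' hi') _ _, Finset.prod_div_distrib]
      congr 1
      · rw [Finset.prod_eq_single_of_mem i hi]
        · simp
        · intro i' _ hne
          simp [hne]
      · rw [Finset.prod_congr rfl fun i' hi' => zpow_sum' (h0 i' hi') _ _, Finset.prod_comm]
        refine Finset.prod_congr rfl fun j _ => ?_
        rw [← Finset.prod_zpow]
        exact Finset.prod_congr rfl fun i' _ => zpow_mul _ _ _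
    rw [h3] at h1
    rw [eq_of_div_eq_one h1]
    exact prod_mem fun j _ => zpow_mem (subset_adjoin K _ (Set.mem_image_of_mem ρ (by simp [S]))) _

end KDAux

open KDAux in
theorem KD_thm : KD := by
  classical
  intro K Ω _ _ _ _ ι κ _ I r u v h0 h2 hr
  obtain ⟨F, hF, hd, hm⟩ := field I r u v h0 h2 hr
  refine ⟨⟨F, hF, hd, hm⟩, fun i₀ hi₀ => ?_⟩
  have hz := h0 i₀ hi₀
  let P : ι → Prop := fun i => ∃ c : K, algebraMap K Ω c * r i₀ = r i
  let u' : ι → K := fun i => if h : P i then h.choose else 0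
  have hu : ∀ i, P i → algebraMap K Ω (u' i) * r i₀ = r i := fun i h => by
    simp only [u', dif_pos h]
    exact h.choose_spec
  refine ⟨I.filter P, u', Finset.filter_subset _ _, Finset.mem_filter.2 ⟨hi₀, 1, by simp⟩,
    fun i hi => hu i (Finset.mem_filter.1 hi).2, fun a s hs h => ?_⟩
  obtain ⟨k, rfl⟩ := hs
  let y : ι → F := fun i => if h : i ∈ I then ⟨r i / r i₀, div_mem (hm i h) (hm i₀ hi₀)⟩ else 0
  have hy : ∀ i ∈ I, (y i : Ω) = r i / r i₀ := fun i hi => by simp only [y, dif_pos hi]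
  have hs : ∑ i ∈ I, a i • y i ^ (2 * k + 1) = 0 := by
    apply Subtype.ext
    have e : ((∑ i ∈ I, a i • y i ^ (2 * k + 1) : F) : Ω) =
        (∑ i ∈ I, algebraMap K Ω (a i) * r i ^ (2 * k + 1)) / r i₀ ^ (2 * k + 1) := by
      rw [Finset.sum_div, AddSubmonoidClass.coe_finsetSum]
      refine Finset.sum_congr rfl fun i hi => ?_
      rw [IntermediateField.coe_smul, IntermediateField.coe_pow, hy i hi, Algebra.smul_def, div_pow,
        mul_div_assoc]
    rw [e, h, zero_div]
    rfl
  have ht := congrArg (Algebra.trace K F) hs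
  rw [map_zero, map_sum] at ht
  have hN : (Module.finrank K F : K) ≠ 0 := Nat.cast_ne_zero.2 Module.finrank_pos.ne'
  apply mul_left_cancel₀ hN
  rw [mul_zero, ← ht, Finset.sum_filter, Finset.mul_sum]
  refine Finset.sum_congr rfl fun i hi => ?_
  by_cases hP : P i
  · have e : y i = algebraMap K F (u' i) := by
      apply Subtype.ext
      rw [hy i hi, ← hu i hP, mul_div_cancel_right₀ _ hz]
      rfl
    rw [if_pos hP, map_smul, e, ← map_pow, Algebra.trace_algebraMap, smul_eq_mul, nsmul_eq_mul]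
    ring
  · have e : y i ^ 2 = algebraMap K F (u i / u i₀) := by
      apply Subtype.ext
      rw [IntermediateField.coe_pow, hy i hi, div_pow, h2 i hi, h2 i₀ hi₀, ← map_div₀]
      rfl
    have hn : y i ∉ (algebraMap K F).range := by
      rintro ⟨c, hc⟩
      refine hP ⟨c, ?_⟩
      have : algebraMap K Ω c = r i / r i₀ := by
        rw [← hy i hi, ← hc]
        rfl
      rw [this, div_mul_cancel₀ _ hz]
    rw [if_neg hP, mul_zero, pow_succ, pow_mul, e, ← map_pow, ← Algebra.smul_def, map_smul,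
      map_smul, trace_zero e hn, smul_zero, smul_zero]

end Pool.Agent.Lib.MP_de9007_nt.PS
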