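import Pool.Agent.Lib.MP_de9007_nt.PS.Stmt

/-! Many units in a logarithmic cube. -/

namespace Pool.Agent.Lib.MP_de9007_nt.PS

open NumberField Finset

namespace MUAux

/-- Rankin's trick. -/
lemma rankin {ι : Type} [Fintype ι] (g : ℕ → ℝ) (g0 : ∀ n, 0 ≤ g n)
    (hg : ∀ N, ∑ n ∈ range N, g n ≤ 2) (B : ℝ) (hB : 0 ≤ B) (T : Finset (ι → ℕ))
    (h : ∀ z ∈ T, 1 ≤ B * ∏ i, g (z i)) : (T.card : ℝ) ≤ B * 2 ^ Fintype.card ι := by
  classical
  let N := T.sup fun z => ∑ i, z i
  have h1 : T ⊆ Fintype.piFinset fun _ => range (N + 1) := fun z hz =>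
    Fintype.mem_piFinset.2 fun i => mem_range.2 (Nat.lt_succ_of_le
      ((single_le_sum (fun _ _ => Nat.zero_le _) (mem_univ i)).trans
        (le_sup (f := fun z : ι → ℕ => ∑ i, z i) hz)))
  calc (T.card : ℝ) = ∑ _z ∈ T, 1 := by simp
    _ ≤ ∑ z ∈ T, B * ∏ i, g (z i) := sum_le_sum h
    _ ≤ ∑ z ∈ Fintype.piFinset fun _ : ι => range (N + 1), B * ∏ i, g (z i) :=
        sum_le_sum_of_subset_of_nonneg h1 fun _ _ _ => mul_nonneg hB (prod_nonneg fun _ _ => g0 _)
    _ = B * ∏ _i : ι, ∑ n ∈ range (N + 1), g n := by rw [← mul_sum, prod_univ_sum]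
    _ ≤ B * ∏ _i : ι, (2 : ℝ) := mul_le_mul_of_nonneg_left
        (prod_le_prod (fun _ _ => sum_nonneg fun _ _ => g0 _) fun _ _ => hg _) hB
    _ = _ := by simp

lemma card_sum_le {ι : Type} [Fintype ι] (k : ℕ) (T : Finset (ι → ℕ))
    (h : ∀ z ∈ T, ∑ i, z i ≤ k) : T.card ≤ 2 ^ (k + Fintype.card ι) := by
  have := rankin (fun n => (1 / 2 : ℝ) ^ n) (fun _ => by positivity) sum_geometric_two_le (2 ^ k)
    (by positivity) T fun z hz => by
      rw [prod_pow_eq_pow_sum, one_div, inv_pow, ← div_eq_mul_inv, one_le_div (by positivity)]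
      exact pow_le_pow_right₀ one_le_two (h z hz)
  rw [← pow_add] at this
  exact_mod_cast this

lemma sum_inv_sq (N : ℕ) : ∑ n ∈ range N, ((n : ℝ) ^ 2)⁻¹ ≤ 2 := by
  have h : ∀ N : ℕ, ∑ n ∈ range (N + 2), ((n : ℝ) ^ 2)⁻¹ ≤ 2 - ((N : ℝ) + 1)⁻¹ := by
    intro N
    induction N with
    | zero => norm_num [sum_range_succ]
    | succ N ih =>
      rw [show N + 1 + 2 = N + 2 + 1 from rfl, sum_range_succ]
      have h1 : (((N + 2 : ℕ) : ℝ) ^ 2)⁻¹ ≤ ((N : ℝ) + 1)⁻¹ - (((N + 1 : ℕ) : ℝ) + 1)⁻¹ := by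
        push_cast
        rw [inv_sub_inv (by positivity) (by positivity), ← one_div,
          div_le_div_iff₀ (by positivity) (by positivity)]
        nlinarith [(Nat.cast_nonneg N : (0 : ℝ) ≤ N)]
      linarith
  refine le_trans (sum_le_sum_of_subset_of_nonneg (range_mono (Nat.le_add_right N 2))
    fun _ _ _ => by positivity) ((h N).trans (sub_le_self _ (by positivity)))

lemma card_prod_le {ι : Type} [Fintype ι] (X : ℕ) (T : Finset (ι → ℕ))
    (h : ∀ z ∈ T, 0 < ∏ i, z i ∧ ∏ i, z i ≤ X) : T.card ≤ X ^ 2 * 2 ^ Fintype.card ι := by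
  have := rankin (fun n => ((n : ℝ) ^ 2)⁻¹) (fun _ => by positivity) sum_inv_sq ((X : ℝ) ^ 2)
    (by positivity) T fun z hz => by
      obtain ⟨h1, h2⟩ := h z hz
      rw [prod_inv_distrib, prod_pow, ← Nat.cast_prod, ← div_eq_mul_inv,
        one_le_div (by positivity)]
      exact pow_le_pow_left₀ (by positivity) (by exact_mod_cast h2) 2
  exact_mod_cast this

lemma big_fibre {α β : Type} [DecidableEq β] (s : Finset α) (hs : s.Nonempty) (f : α → β) (N : ℕ)
    (h : (s.image f).card ≤ N) : ∃ a ∈ s, s.card ≤ N * (s.filter fun x => f x = f a).card := by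
  obtain ⟨a, ha, hm⟩ := exists_max_image s (fun a => (s.filter fun x => f x = f a).card) hs
  refine ⟨a, ha, (card_le_mul_card_image (f := f) s _ fun b hb => ?_).trans
    ((mul_comm _ _).le.trans (Nat.mul_le_mul_right _ h))⟩
  obtain ⟨c, hc, rfl⟩ := mem_image.1 hb
  exact hm c hc

lemma map_inj {α β : Type} [Nonempty α] {f : α → β} {S : Set α} (hf : Set.InjOn f S)
    {s t : Multiset α} (hs : ∀ a ∈ s, a ∈ S) (ht : ∀ a ∈ t, a ∈ S) (h : s.map f = t.map f) :
    s = t := by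
  have key : ∀ s : Multiset α, (∀ a ∈ s, a ∈ S) → (s.map f).map (Function.invFunOn f S) = s :=
    fun s hs => by
      rw [Multiset.map_map]
      exact (Multiset.map_congr rfl fun a ha => hf.leftInvOn_invFunOn (hs a ha)).trans
        (Multiset.map_id s)
  rw [← key s hs, h, key t ht]

lemma prod_two {ι : Type} (s : Finset ι) (a : ι → ℤ) :
    ∏ i ∈ s, (2 : ℝ) ^ a i = 2 ^ ∑ i ∈ s, a i := by
  classical
  induction s using Finset.induction_on with
  | empty => simp
  | insert i s hi ih => rw [prod_insert hi, sum_insert hi, ih, zpow_add₀ two_ne_zero]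

variable (L : Type) [Field L] [NumberField L]

lemma exists_code : ∃ (p : Ideal (𝓞 L) → ℕ) (ix : Ideal (𝓞 L) → Fin (Module.finrank ℚ L)),
    (∀ P, Prime P → (p P).Prime ∧ p P ≤ Ideal.absNorm P) ∧
    ∀ i, Set.InjOn p {P | Prime P ∧ ix P = i} := by
  have h1 : ∀ P : Ideal (𝓞 L), ∃ q : ℕ, Prime P →
      q.Prime ∧ q ∣ Ideal.absNorm P ∧ (q : 𝓞 L) ∈ P := by
    intro P
    by_cases hP : Prime P
    · haveI := Ideal.isPrime_of_prime hP
      have h0 : Ideal.absNorm P ≠ 0 := Ideal.absNorm_eq_zero_iff.not.2 hP.ne_zero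
      have h2 := Ideal.absNorm_mem P
      rw [← Nat.prod_primeFactorsList h0, Nat.cast_list_prod, ← Multiset.prod_coe,
        Ideal.IsPrime.multiset_prod_mem_iff_exists_mem ‹_›] at h2
      obtain ⟨_, h3, h4⟩ := h2
      obtain ⟨q, hq, rfl⟩ := List.mem_map.1 (Multiset.mem_coe.1 h3)
      exact ⟨q, fun _ => ⟨Nat.prime_of_mem_primeFactorsList hq,
        Nat.dvd_of_mem_primeFactorsList hq, h4⟩⟩
    · exact ⟨0, fun h => absurd h hP⟩
  choose p hp using h1
  haveI : Nonempty (Fin (Module.finrank ℚ L)) := ⟨⟨0, Module.finrank_pos⟩⟩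
  have h2 : ∀ q : ℕ, ∃ f : Ideal (𝓞 L) → Fin (Module.finrank ℚ L),
      Set.InjOn f {P | Prime P ∧ p P = q} := by
    intro q
    rw [Set.exists_injOn_iff_injective]
    have h3 : Cardinal.mk {P : Ideal (𝓞 L) | Prime P ∧ p P = q} ≤ Module.finrank ℚ L := by
      rw [Cardinal.mk_le_iff_forall_finset_subset_card_le]
      intro T hT
      rcases T.eq_empty_or_nonempty with rfl | ⟨P₀, h₀⟩
      · simp
      have hq : q.Prime := (hT h₀).2 ▸ (hp P₀ (hT h₀).1).1
      have h4 : ∏ P ∈ T, P ∣ Ideal.span {(q : 𝓞 L)} :=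
        Finset.prod_primes_dvd _ (fun P h => (hT h).1) fun P h => by
          rw [Ideal.dvd_span_singleton, ← (hT h).2]; exact (hp P (hT h).1).2.2
      have h5 := map_dvd Ideal.absNorm h4
      rw [map_prod, Ideal.absNorm_span_natCast, RingOfIntegers.rank] at h5
      have h6 : ∏ _P ∈ T, q ∣ ∏ P ∈ T, Ideal.absNorm P :=
        prod_dvd_prod_of_dvd _ _ fun P h => (hT h).2 ▸ (hp P (hT h).1).2.1
      rw [prod_const] at h6
      exact (Nat.pow_dvd_pow_iff_le_right hq.one_lt).1 (h6.trans h5)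
    rw [← Cardinal.mk_fin, Cardinal.le_def] at h3
    obtain ⟨f⟩ := h3
    exact ⟨f, f.injective⟩
  choose f hf using h2
  refine ⟨p, fun P => f (p P) P, fun P h => ⟨(hp P h).1, Nat.le_of_dvd
    (Nat.pos_of_ne_zero (Ideal.absNorm_eq_zero_iff.not.2 h.ne_zero)) (hp P h).2.1⟩, ?_⟩
  rintro i P ⟨hP, e⟩ Q ⟨hQ, e'⟩ h
  refine hf (p Q) ⟨hP, h⟩ ⟨hQ, rfl⟩ ?_
  exact (congrArg (f · P) h).symm.trans (e.trans e'.symm)

open UniqueFactorizationMonoid in
lemma card_ideals (X : ℕ) (J : Finset (Ideal (𝓞 L)))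
    (h : ∀ I ∈ J, I ≠ 0 ∧ Ideal.absNorm I ≤ X) : J.card ≤ X ^ 2 * 2 ^ Module.finrank ℚ L := by
  classical
  obtain ⟨p, ix, hp, hi⟩ := exists_code L
  let μ : Ideal (𝓞 L) → Fin (Module.finrank ℚ L) → Multiset (Ideal (𝓞 L)) := fun I i =>
    (normalizedFactors I).filter fun P => ix P = i
  have hμ : ∀ I i, ∀ P ∈ μ I i, Prime P ∧ ix P = i := fun I i P hP =>
    ⟨prime_of_normalized_factor P (Multiset.mem_filter.1 hP).1, (Multiset.mem_filter.1 hP).2⟩
  let n : Ideal (𝓞 L) → Fin (Module.finrank ℚ L) → ℕ := fun I i => ((μ I i).map p).prod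
  have hn : ∀ I i, normalizedFactors (n I i) = (μ I i).map p := fun I i =>
    normalizedFactors_prod_of_prime fun q hq => by
      obtain ⟨P, hP, rfl⟩ := Multiset.mem_map.1 hq
      exact (hp P (hμ I i P hP).1).1.prime
  have h1 : Set.InjOn n J := fun I hI I' hI' e => by
    have h2 : ∀ i, μ I i = μ I' i := fun i =>
      map_inj (hi i) (hμ I i) (hμ I' i) (by rw [← hn, ← hn, e])
    have h3 : normalizedFactors I = normalizedFactors I' := Multiset.ext.2 fun P => by
      rw [← Multiset.count_filter_of_pos (p := fun Q => ix Q = ix P) rfl,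
        ← Multiset.count_filter_of_pos (p := fun Q => ix Q = ix P) (s := normalizedFactors I') rfl]
      exact congrArg _ (h2 (ix P))
    rw [← Ideal.prod_normalizedFactors_eq_self (h I hI).1, h3,
      Ideal.prod_normalizedFactors_eq_self (h I' hI').1]
  have h4 : ∀ s : Multiset (Ideal (𝓞 L)), (∀ P ∈ s, Prime P) →
      0 < ∏ i, ((s.filter fun P => ix P = i).map p).prod ∧
      ∏ i, ((s.filter fun P => ix P = i).map p).prod ≤ Ideal.absNorm s.prod := by
    intro s
    induction s using Multiset.induction_on with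
    | empty => simp
    | cons P s ih =>
      intro hs
      obtain ⟨h5, h6⟩ := ih fun Q hQ => hs Q (Multiset.mem_cons_of_mem hQ)
      obtain ⟨h7, h8⟩ := hp P (hs P (Multiset.mem_cons_self _ _))
      have h9 : ∀ i, (((P ::ₘ s).filter fun P => ix P = i).map p).prod =
          (if ix P = i then p P else 1) * ((s.filter fun P => ix P = i).map p).prod := fun i => by
        split_ifs with e
        · rw [Multiset.filter_cons_of_pos (p := fun P => ix P = i) _ e, Multiset.map_cons, Multiset.prod_cons]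
        · rw [Multiset.filter_cons_of_neg (p := fun P => ix P = i) _ e, one_mul]
      simp only [h9, prod_mul_distrib, prod_ite_eq, mem_univ, if_true, Multiset.prod_cons, map_mul]
      exact ⟨Nat.mul_pos h7.pos h5, Nat.mul_le_mul h8 h6⟩
  have h5 := card_prod_le X (J.image n) fun z hz => by
    obtain ⟨I, hI, rfl⟩ := mem_image.1 hz
    have h6 := h4 _ (prime_of_normalized_factor (a := I))
    rw [Ideal.prod_normalizedFactors_eq_self (h I hI).1] at h6
    exact ⟨h6.1, h6.2.trans (h I hI).2⟩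
  rwa [card_image_of_injOn h1, Fintype.card_fin] at h5

variable [IsTotallyReal L]

lemma card_places : Fintype.card (InfinitePlace L) = Module.finrank ℚ L := by
  rw [InfinitePlace.card_eq_nrRealPlaces_add_nrComplexPlaces,
    IsTotallyReal.nrComplexPlaces_eq_zero, add_zero, IsTotallyReal.finrank]

lemma prod_places (α : 𝓞 L) :
    ∏ w : InfinitePlace L, w α = Ideal.absNorm (Ideal.span {α}) := by
  have h := InfinitePlace.prod_eq_abs_norm (α : L)
  simp only [IsTotallyReal.mult_eq, pow_one] at h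
  rw [h, Ideal.absNorm_span_singleton, ← Algebra.coe_norm_int, Nat.cast_natAbs]
  simp

open mixedEmbedding in
lemma mink (k : ℕ) (hk : (discr L).natAbs ≤ 2 ^ k) (a : InfinitePlace L → ℤ)
    (ha : (k : ℤ) < ∑ w, a w) : ∃ α : 𝓞 L, α ≠ 0 ∧ ∀ w : InfinitePlace L, w α < 2 ^ a w := by
  classical
  have h := exists_ne_zero_mem_ringOfIntegers_lt L (f := fun w => 2 ^ a w) (by
    rw [minkowskiBound, volume_fundamentalDomain_fractionalIdealLatticeBasis, Units.val_one,
      FractionalIdeal.absNorm_one, Rat.cast_one, ENNReal.ofReal_one, one_mul,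
      mixedEmbedding.finrank, volume_fundamentalDomain_latticeBasis, convexBodyLT_volume,
      convexBodyLTFactor, IsTotallyReal.nrComplexPlaces_eq_zero, ← IsTotallyReal.finrank]
    simp only [IsTotallyReal.mult_eq, pow_one, pow_zero, one_mul, mul_one]
    have h1 : NNReal.sqrt ‖discr L‖₊ < ∏ w : InfinitePlace L, (2 : NNReal) ^ a w := by
      rw [← NNReal.coe_lt_coe]
      push_cast
      rw [prod_two]
      have h2 : ‖discr L‖ ≤ (2 : ℝ) ^ k := by
        rw [Int.norm_eq_abs, ← Int.cast_abs, ← Nat.cast_natAbs]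
        exact_mod_cast hk
      have h3 : (1 : ℝ) ≤ 2 ^ k := one_le_pow₀ one_le_two
      calc √‖discr L‖ ≤ (2 : ℝ) ^ k := Real.sqrt_le_iff.2 ⟨by positivity, by nlinarith⟩
        _ = 2 ^ (k : ℤ) := (zpow_natCast _ _).symm
        _ < _ := zpow_lt_zpow_right₀ one_lt_two ha
    rw [mul_comm]
    exact_mod_cast mul_lt_mul_of_pos_left h1 (by positivity : (0 : NNReal) < 2 ^ _))
  simpa using h

end MUAux

open MUAux in
theorem MU_thm : MU := by
  intro L _ _ _ c m hc
  classical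
  set d := Module.finrank ℚ L with hd
  have d0 : 0 < d := Module.finrank_pos
  rcases Nat.eq_zero_or_pos m with rfl | m0
  · refine ⟨{1}, by simp, ?_, ?_⟩
    · exact (pow_le_one₀ le_rfl zero_le_one).trans (Nat.succ_le_of_lt (by simp [d0]))
    · simp only [mem_singleton]
      rintro _ rfl _ rfl σ
      simpa using one_le_pow₀ (one_le_two (α := ℝ))
  have hW := card_places L
  haveI : Nonempty (InfinitePlace L) := inferInstance
  let X : Finset (InfinitePlace L → ℕ) := Fintype.piFinset fun _ => range m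
  have hX : ∀ x ∈ X, ∀ w, x w < m := fun x hx w => mem_range.1 (Fintype.mem_piFinset.1 hx w)
  obtain ⟨x₀, hx₀, h1⟩ := big_fibre X ⟨fun _ => 0, Fintype.mem_piFinset.2 fun _ => mem_range.2 m0⟩
    (fun x => ∑ w, x w) (d * m) (by
      refine (card_le_card (t := range (d * m)) fun s hs => ?_).trans (card_range _).le
      obtain ⟨x, hx, rfl⟩ := mem_image.1 hs
      have := sum_lt_sum_of_nonempty univ_nonempty fun w _ => hX x hx w
      rwa [sum_const, card_univ, hW, smul_eq_mul, ← mem_range] at this)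
  set s := ∑ w, x₀ w
  set Y := X.filter fun x => ∑ w, x w = s with hY
  have h2 : m ^ (d - 1) ≤ d * Y.card := by
    rw [Fintype.card_piFinset, prod_const, card_range, card_univ, hW, ← hd] at h1
    refine Nat.le_of_mul_le_mul_left ?_ m0
    rw [← pow_succ', Nat.sub_add_cancel d0]
    exact h1.trans (le_of_eq (by ring))
  obtain ⟨u, hu1, hu2⟩ : ∃ u : ℤ, ((c * d : ℕ) : ℤ) < s + d * u ∧
      s + d * u ≤ (((c + 1) * d : ℕ) : ℤ) := by
    have d1 : (0 : ℤ) < d := by exact_mod_cast d0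
    have e1 := Int.mul_ediv_add_emod (((c : ℤ) + 1) * d - s) d
    have e2 := Int.emod_nonneg (((c : ℤ) + 1) * d - s) d1.ne'
    have e3 := Int.emod_lt_of_pos (((c : ℤ) + 1) * d - s) d1
    exact ⟨(((c : ℤ) + 1) * d - s) / d, by push_cast; linarith, by push_cast; linarith⟩
  have hS : ∀ x ∈ Y, ∑ w, ((x w : ℤ) + u) = s + d * u := fun x hx => by
    rw [sum_add_distrib, ← Nat.cast_sum, (mem_filter.1 hx).2, sum_const, card_univ, hW, nsmul_eq_mul]
  have h3 : ∀ x, ∃ α : 𝓞 L, x ∈ Y →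
      α ≠ 0 ∧ ∀ w : InfinitePlace L, w α < 2 ^ ((x w : ℤ) + u) := fun x => by
    by_cases hx : x ∈ Y
    · obtain ⟨α, h⟩ := mink L _ hc (fun w => x w + u) (by rw [hS x hx]; exact hu1)
      exact ⟨α, fun _ => h⟩
    · exact ⟨0, fun h => absurd h hx⟩
  choose α hα using h3
  have hpos : ∀ x ∈ Y, ∀ w : InfinitePlace L, 0 < w (α x) := fun x hx w =>
    InfinitePlace.pos_iff.2 (RingOfIntegers.coe_ne_zero_iff.2 (hα x hx).1)
  have hI : ∀ x ∈ Y, Ideal.span {α x} ≠ 0 := fun x hx =>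
    Ideal.span_singleton_eq_bot.not.2 (hα x hx).1
  have hN : ∀ x ∈ Y, 1 ≤ ∏ w : InfinitePlace L, w (α x) := fun x hx => by
    rw [prod_places]
    exact_mod_cast Nat.pos_of_ne_zero (Ideal.absNorm_eq_zero_iff.not.2 (hI x hx))
  have h4 : Y.card ≤ 2 ^ ((c + 1) * d + d) * (Y.image α).card := by
    refine card_le_mul_card_image Y _ fun β hβ => ?_
    let b : InfinitePlace L → ℤ := fun w => Int.log 2 (w β)
    have hb : ∀ x ∈ Y.filter fun x => α x = β, ∀ w, 0 ≤ (x w : ℤ) + u - (b w + 1) := by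
      intro x hx' w
      obtain ⟨hx, rfl⟩ := mem_filter.1 hx'
      have e1 := (Int.zpow_log_le_self (b := 2) one_lt_two (hpos x hx w)).trans_lt ((hα x hx).2 w)
      have e2 := (zpow_lt_zpow_iff_right₀ (one_lt_two (α := ℝ))).1 (by exact_mod_cast e1)
      exact sub_nonneg.2 e2
    have hb' : 0 ≤ ∑ w, (b w + 1) := by
      obtain ⟨x, hx, rfl⟩ := mem_image.1 hβ
      rw [← zpow_le_zpow_iff_right₀ (one_lt_two (α := ℝ)), zpow_zero, ← prod_two]
      refine (hN x hx).trans (prod_le_prod (fun w _ => (hpos x hx w).le) fun w _ => ?_)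
      exact_mod_cast (Int.lt_zpow_succ_log_self (b := 2) one_lt_two (w (α x))).le
    let z : (InfinitePlace L → ℕ) → InfinitePlace L → ℕ := fun x w =>
      ((x w : ℤ) + u - (b w + 1)).toNat
    have hz : ∀ x ∈ Y.filter fun x => α x = β, ∀ w, (z x w : ℤ) = x w + u - (b w + 1) :=
      fun x hx w => Int.toNat_of_nonneg (hb x hx w)
    have hinj : Set.InjOn z (Y.filter fun x => α x = β) := fun x hx y hy e => funext fun w => by
      have e1 := hz x hx w
      rw [e, hz y hy w] at e1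
      omega
    rw [← card_image_of_injOn hinj, hd, ← hW]
    refine card_sum_le _ _ fun y hy => ?_
    obtain ⟨x, hx, rfl⟩ := mem_image.1 hy
    have e1 : ((∑ w, z x w : ℕ) : ℤ) = s + d * u - ∑ w, (b w + 1) := by
      rw [Nat.cast_sum, sum_congr rfl fun w _ => hz x hx w, sum_sub_distrib,
        hS x (mem_filter.1 hx).1]
    rw [hW, ← hd]
    omega
  have hY0 : x₀ ∈ Y := mem_filter.2 ⟨hx₀, rfl⟩
  obtain ⟨α₀, hα₀, h5⟩ := big_fibre (Y.image α) ⟨_, mem_image_of_mem α hY0⟩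
    (fun β => Ideal.span {β}) _ (card_ideals L (2 ^ ((c + 1) * d)) _ fun I hI' => by
      obtain ⟨_, h, rfl⟩ := mem_image.1 hI'
      obtain ⟨x, hx, rfl⟩ := mem_image.1 h
      refine ⟨hI x hx, ?_⟩
      have e1 := prod_le_prod (s := univ) (fun w _ => (hpos x hx w).le) fun w _ => ((hα x hx).2 w).le
      rw [prod_places, prod_two, hS x hx] at e1
      have e2 := e1.trans (zpow_le_zpow_right₀ one_le_two hu2)
      rw [zpow_natCast] at e2
      exact_mod_cast e2)
  set A := (Y.image α).filter fun β => Ideal.span {β} = Ideal.span {α₀}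
  have h6 : ∀ β, ∃ ε : (𝓞 L)ˣ, β ∈ A → α₀ * ε = β := fun β => by
    by_cases hβ : β ∈ A
    · obtain ⟨ε, h⟩ := Ideal.span_singleton_eq_span_singleton.1 (mem_filter.1 hβ).2.symm
      exact ⟨ε, fun _ => h⟩
    · exact ⟨1, fun h => absurd h hβ⟩
  choose ε hε using h6
  have hA0 : α₀ ∈ A := mem_filter.2 ⟨hα₀, rfl⟩
  have hne : α₀ ≠ 0 := by
    obtain ⟨x, hx, rfl⟩ := mem_image.1 hα₀
    exact (hα x hx).1
  refine ⟨A.image ε, mem_image.2 ⟨α₀, hA0, Units.ext (mul_left_cancel₀ hne (by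
    rw [hε _ hA0]; simp))⟩, ?_, ?_⟩
  · rw [card_image_of_injOn fun β hβ β' hβ' e => by rw [← hε β hβ, e, hε β' hβ']]
    refine h2.trans ?_
    rw [mul_assoc]
    refine Nat.mul_le_mul_left _ (h4.trans ((Nat.mul_le_mul_left _ h5).trans (le_of_eq ?_)))
    rw [← hd]
    ring
  · intro _ h _ h' σ
    obtain ⟨β, hβ, rfl⟩ := mem_image.1 h
    obtain ⟨β', hβ', rfl⟩ := mem_image.1 h'
    have e1 : ((ε β * (ε β')⁻¹ : (𝓞 L)ˣ) : 𝓞 L) * β' = β := by
      have e0 : ((ε β * (ε β')⁻¹ : (𝓞 L)ˣ) : 𝓞 L) * (α₀ * ε β') = α₀ * ε β := by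
        rw [Units.val_mul, mul_comm α₀, mul_assoc, Units.inv_mul_cancel_left, mul_comm]
      rwa [hε β hβ, hε β' hβ'] at e0
    obtain ⟨x, hx, rfl⟩ := mem_image.1 (mem_filter.1 hβ).1
    obtain ⟨y, hy, rfl⟩ := mem_image.1 (mem_filter.1 hβ').1
    let w := InfinitePlace.mk σ
    have e2 : ‖σ ((ε (α x) * (ε (α y))⁻¹ : (𝓞 L)ˣ) : 𝓞 L)‖ * w (α y) = w (α x) := by
      rw [← InfinitePlace.apply, ← map_mul]
      exact congrArg w (by exact_mod_cast congrArg (algebraMap (𝓞 L) L) e1)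
    have e3 : w (α x) ≤ 2 ^ ((m : ℤ) + u) := ((hα x hx).2 w).le.trans (zpow_le_zpow_right₀ one_le_two
      (by have := hX x (mem_filter.1 hx).1 w; omega))
    have e4 : 1 ≤ w (α y) * 2 ^ ((((c + 1) * d : ℕ) : ℤ) - u) := by
      refine (hN y hy).trans ?_
      rw [← mul_prod_erase univ _ (mem_univ w)]
      refine mul_le_mul_of_nonneg_left ((prod_le_prod (fun w _ => (hpos y hy w).le)
        fun w _ => ((hα y hy).2 w).le).trans ?_) (hpos y hy w).le
      rw [prod_two]
      refine zpow_le_zpow_right₀ one_le_two ?_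
      have e5 := add_sum_erase univ (fun w => (y w : ℤ) + u) (mem_univ w)
      rw [hS y hy] at e5
      omega
    calc _ ≤ ‖σ ((ε (α x) * (ε (α y))⁻¹ : (𝓞 L)ˣ) : 𝓞 L)‖ *
          (w (α y) * 2 ^ ((((c + 1) * d : ℕ) : ℤ) - u)) := le_mul_of_one_le_right (norm_nonneg _) e4
      _ ≤ 2 ^ ((m : ℤ) + u) * 2 ^ ((((c + 1) * d : ℕ) : ℤ) - u) := by
          rw [← mul_assoc, e2]
          exact mul_le_mul_of_nonneg_right e3 (by positivity)
      _ = _ := by
          rw [← zpow_add₀ two_ne_zero, ← zpow_natCast]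
          congr 1
          push_cast
          ring

end Pool.Agent.Lib.MP_de9007_nt.PS
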