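import Pool.Agent.Lib.MP_de9007_nt.PS.Stmt

/-! The `q`-adic Schwarz lemma, by a truncated exponential in `ZMod (q ^ n)`. -/

namespace Pool.Agent.Lib.MP_de9007_nt.PS

open Finset Polynomial

namespace SWAux

/-- The truncated exponential. -/
def ex {A : Type*} [CommRing A] (n : ℕ) (c : ℕ → A) (y : A) : A := ∑ k ∈ range n, c k * y ^ k

theorem map_ex {A B : Type*} [CommRing A] [CommRing B] (f : A →+* B) (n : ℕ) (c : ℕ → A)
    (y : A) : f (ex n c y) = ex n (fun k => f (c k)) (f y) := by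
  simp [ex, map_sum]

theorem coeff_ex {A : Type*} [CommRing A] (n : ℕ) (c : ℕ → A) (a : A) (d : ℕ) (hd : d < n) :
    (ex n (fun k => C (c k)) (C a * X)).coeff d = c d * a ^ d := by
  unfold ex
  rw [finsetSum_coeff, Finset.sum_eq_single d]
  · rw [mul_pow, ← C_pow, ← mul_assoc, ← C_mul, coeff_C_mul_X_pow, if_pos rfl]
  · intro k _ hk
    rw [mul_pow, ← C_pow, ← mul_assoc, ← C_mul, coeff_C_mul_X_pow, if_neg (Ne.symm hk)]
  · intro h
    exact absurd (mem_range.2 hd) h

theorem ex_add {A : Type*} [CommRing A] {n : ℕ} {c : ℕ → A}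
    (hc : ∀ k < n, c k * (k.factorial : A) = 1) {p : A} (hp : p ^ n = 0) (a b : A) :
    ex n c (p * a + p * b) = ex n c (p * a) * ex n c (p * b) := by
  have h1 : (X : A[X]) ^ n ∣ ex n (fun k => C (c k)) (C (a + b) * X) -
      ex n (fun k => C (c k)) (C a * X) * ex n (fun k => C (c k)) (C b * X) := by
    rw [X_pow_dvd_iff]
    intro d hd
    rw [coeff_sub, coeff_mul, coeff_ex _ _ _ _ hd, (Commute.all a b).add_pow', mul_sum,
      sub_eq_zero]
    refine Finset.sum_congr rfl fun m hm => ?_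
    have hm' : m.1 + m.2 = d := mem_antidiagonal.1 hm
    rw [coeff_ex _ _ _ _ (by omega : m.1 < n), coeff_ex _ _ _ _ (by omega : m.2 < n)]
    have h2 : ((d.choose m.1 : ℕ) : A) * (m.1.factorial : A) * (m.2.factorial : A) =
        (d.factorial : A) := by
      have h3 := Nat.choose_mul_factorial_mul_factorial (by omega : m.1 ≤ d)
      rw [(by omega : d - m.1 = m.2)] at h3
      exact_mod_cast congrArg (Nat.cast : ℕ → A) h3
    have h4 := hc d hd
    have h5 := hc m.1 (by omega)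
    have h6 := hc m.2 (by omega)
    have h7 : c d * ((d.choose m.1 : ℕ) : A) = c m.1 * c m.2 := by
      calc c d * ((d.choose m.1 : ℕ) : A)
          = c d * ((d.choose m.1 : ℕ) : A) * (c m.1 * (m.1.factorial : A)) *
            (c m.2 * (m.2.factorial : A)) := by rw [h5, h6, mul_one, mul_one]
        _ = c d * (((d.choose m.1 : ℕ) : A) * (m.1.factorial : A) * (m.2.factorial : A)) *
            (c m.1 * c m.2) := by ring
        _ = c m.1 * c m.2 := by rw [h2, h4, one_mul]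
    rw [nsmul_eq_mul]
    linear_combination (a ^ m.1 * b ^ m.2) * h7
  obtain ⟨w, hw⟩ := h1
  have h8 := congrArg (evalRingHom p) hw
  simp only [map_sub, map_mul, map_pow, map_ex, coe_evalRingHom, eval_C, eval_X, hp,
    zero_mul] at h8
  rw [sub_eq_zero] at h8
  rw [(by ring : p * a + p * b = (a + b) * p), mul_comm p a, mul_comm p b]
  exact h8

theorem ex_zero {A : Type*} [CommRing A] {n : ℕ} {c : ℕ → A}
    (hc : ∀ k < n, c k * (k.factorial : A) = 1) {p : A} (hp : p ^ n = 0) : ex n c 0 = 1 := by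
  rcases n with _ | n
  · rw [pow_zero] at hp
    rw [hp]
    simp [ex]
  · have h := hc 0 (by omega)
    simp only [Nat.factorial_zero, Nat.cast_one, mul_one] at h
    simp [ex, Finset.sum_range_succ', h]

theorem ex_mul_nat {A : Type*} [CommRing A] {n : ℕ} {c : ℕ → A}
    (hc : ∀ k < n, c k * (k.factorial : A) = 1) {p : A} (hp : p ^ n = 0) (a : A) (z : ℕ) :
    ex n c (p * a * z) = ex n c (p * a) ^ z := by
  induction z with
  | zero => simpa using ex_zero hc hp
  | succ z ih =>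
    rw [pow_succ, ← ih, mul_assoc p a (z : A), ← ex_add hc hp]
    congr 1
    push_cast
    ring

theorem ex_shape {A : Type*} [CommRing A] {n : ℕ} {c : ℕ → A}
    (hc : ∀ k < n, c k * (k.factorial : A) = 1) {d : A} (hd : d ^ n = 0) :
    ∃ w, ex n c d = 1 + d * (1 + d * w) := by
  rcases n with _ | _ | n
  · rw [pow_zero] at hd
    have := subsingleton_of_zero_eq_one hd.symm
    exact ⟨0, Subsingleton.elim _ _⟩
  · have h := hc 0 (by omega)
    simp only [Nat.factorial_zero, Nat.cast_one, mul_one] at h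
    simp only [zero_add, pow_one] at hd
    exact ⟨0, by simp [ex, h, hd]⟩
  · have h := hc 0 (by omega)
    have h' := hc 1 (by omega)
    simp only [Nat.factorial_zero, Nat.factorial_one, Nat.cast_one, mul_one] at h h'
    refine ⟨∑ k ∈ range n, c (k + 1 + 1) * d ^ k, ?_⟩
    unfold ex
    rw [Finset.sum_range_succ', Finset.sum_range_succ', h]
    simp only [zero_add]
    rw [h', mul_add, mul_sum, mul_sum]
    have : ∑ k ∈ range n, c (k + 1 + 1) * d ^ (k + 1 + 1) =
        ∑ k ∈ range n, d * (d * (c (k + 1 + 1) * d ^ k)) :=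
      Finset.sum_congr rfl fun k _ => by ring
    rw [this]
    ring

theorem ex_inj {A : Type*} [CommRing A] {n : ℕ} {c : ℕ → A}
    (hc : ∀ k < n, c k * (k.factorial : A) = 1) {p : A} (hp : p ^ n = 0) {y y' : A}
    (hy : p ∣ y) (hy' : p ∣ y') (h : ex n c y = ex n c y') : y = y' := by
  obtain ⟨a, rfl⟩ := hy
  obtain ⟨b, rfl⟩ := hy'
  have h1 : ex n c (p * a + p * -b) = 1 := by
    rw [ex_add hc hp, h, ← ex_add hc hp, ← ex_zero hc hp]
    congr 1
    ring
  have h2 : (p * a + p * -b) ^ n = 0 := by rw [← mul_add, mul_pow, hp, zero_mul]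
  obtain ⟨w, hw⟩ := ex_shape hc h2
  have h3 : IsUnit (1 + (p * a + p * -b) * w) :=
    IsNilpotent.isUnit_one_add ⟨n, by rw [mul_pow, h2, zero_mul]⟩
  have h4 : (p * a + p * -b) * (1 + (p * a + p * -b) * w) = 0 := by
    linear_combination h1 - hw
  have h5 := (h3.mul_left_eq_zero).1 h4
  linear_combination h5

theorem exists_lg {A : Type*} [CommRing A] [Finite A] {n : ℕ} {c : ℕ → A}
    (hc : ∀ k < n, c k * (k.factorial : A) = 1) {p : A} (hp : p ^ n = 0) :
    ∃ lg : A → A, (∀ u, p ∣ u - 1 → p ∣ lg u ∧ ex n c (lg u) = u) ∧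
      ∀ u v, p ∣ u - 1 → p ∣ v - 1 → lg (u * v) = lg u + lg v := by
  have h0 : ∀ y : A, p ∣ y → p ∣ ex n c y - 1 := by
    intro y hy
    have h2 : y ^ n = 0 := by
      obtain ⟨a, rfl⟩ := hy
      rw [mul_pow, hp, zero_mul]
    obtain ⟨w, hw⟩ := ex_shape hc h2
    rw [hw, add_sub_cancel_left]
    exact hy.mul_right _
  let f : {y : A // p ∣ y} → {y : A // p ∣ y} := fun y => ⟨ex n c y.1 - 1, h0 y.1 y.2⟩
  have hf : Function.Injective f := by
    intro y y' h
    have h1 : ex n c y.1 - 1 = ex n c y'.1 - 1 := congrArg Subtype.val h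
    exact Subtype.ext (ex_inj hc hp y.2 y'.2 (sub_left_injective h1))
  have hs := Finite.injective_iff_surjective.1 hf
  have h3 : ∀ u : A, p ∣ u - 1 → ∃ y, p ∣ y ∧ ex n c y = u := by
    intro u hu
    obtain ⟨y, hy⟩ := hs ⟨u - 1, hu⟩
    have h1 : ex n c y.1 - 1 = u - 1 := congrArg Subtype.val hy
    exact ⟨y.1, y.2, sub_left_injective h1⟩
  choose! lg hlg using h3
  refine ⟨lg, hlg, fun u v hu hv => ?_⟩
  have huv : p ∣ u * v - 1 := by
    rw [(by ring : u * v - 1 = (u - 1) * v + (v - 1))]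
    exact (hu.mul_right _).add hv
  refine ex_inj hc hp (hlg _ huv).1 ((hlg u hu).1.add (hlg v hv).1) ?_
  obtain ⟨a, ha⟩ := (hlg u hu).1
  obtain ⟨b, hb⟩ := (hlg v hv).1
  rw [(hlg _ huv).2, ha, hb, ex_add hc hp, ← ha, ← hb, (hlg u hu).2, (hlg v hv).2]

theorem vanish {A ι : Type*} [CommRing A] {n t : ℕ} {c : ℕ → A}
    (hc : ∀ k < n, c k * (k.factorial : A) = 1) {p : A} (hp : p ^ n = 0) (I : Finset ι)
    (a l : ι → A) (Z : Finset ℕ) (hl : ∀ i ∈ I, p ∣ l i) (hn : n ≤ Z.card * t)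
    (hZ : ∀ z ∈ Z, ∀ z' ∈ Z, z ≠ z' → IsUnit ((z : A) - z'))
    (h0 : ∀ z ∈ Z, ∀ k < t, ∑ i ∈ I, a i * l i ^ k * ex n c (l i) ^ z = 0) (z : ℕ) :
    ∑ i ∈ I, a i * ex n c (l i) ^ z = 0 := by
  rcases subsingleton_or_nontrivial A with hA | hA
  · exact Subsingleton.elim _ _
  have hc' : ∀ k < n, (fun k => C (c k)) k * ((k.factorial : ℕ) : A[X]) = 1 := by
    intro k hk
    rw [← map_natCast (C : A →+* A[X]), ← C_mul, hc k hk, C_1]
  have hp' : (C p : A[X]) ^ n = 0 := by rw [← C_pow, hp, C_0]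
  have hz : ∀ i ∈ I, ∀ z : ℕ, ex n c (l i * z) = ex n c (l i) ^ z := by
    intro i hi z
    obtain ⟨b, hb⟩ := hl i hi
    rw [hb, ex_mul_nat hc hp]
  set Φ : A[X] := ∑ i ∈ I, C (a i) * ex n (fun k => C (c k)) (C (l i) * X) with hΦ
  have h1 : ∀ z ∈ Z, (X - C (z : A)) ^ t ∣ Φ := by
    intro z hzZ
    have h2 : Φ = ∑ k ∈ range n,
        C (c k * ∑ i ∈ I, a i * l i ^ k * ex n c (l i) ^ z) * (X - C (z : A)) ^ k := by
      have h3 : ∀ i ∈ I, C (a i) * ex n (fun k => C (c k)) (C (l i) * X) =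
          ∑ k ∈ range n, C (c k * (a i * l i ^ k * ex n c (l i) ^ z)) * (X - C (z : A)) ^ k := by
        intro i hi
        obtain ⟨b, hb⟩ := hl i hi
        have h4 : C (l i) * X = C p * (C b * C (z : A)) + C p * (C b * (X - C (z : A))) := by
          rw [hb, C_mul]
          ring
        have h5 : ex n (fun k => C (c k)) (C p * (C b * C (z : A))) = C (ex n c (l i) ^ z) := by
          rw [← hz i hi, map_ex, hb, C_mul, C_mul, mul_assoc]
        rw [h4, ex_add hc' hp', h5, ← mul_assoc (C p), ← C_mul, ← hb]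
        rw [ex.eq_1 n (fun k => C (c k)), mul_sum, mul_sum]
        refine Finset.sum_congr rfl fun k _ => ?_
        simp only [C_mul, C_pow, mul_pow]
        ring
      rw [hΦ, Finset.sum_congr rfl h3, Finset.sum_comm]
      refine Finset.sum_congr rfl fun k _ => ?_
      rw [mul_sum, map_sum, sum_mul]
    rw [h2]
    refine Finset.dvd_sum fun k _ => ?_
    rcases lt_or_ge k t with hk | hk
    · rw [h0 z hzZ k hk, mul_zero, C_0, zero_mul]
      exact dvd_zero _
    · exact (pow_dvd_pow _ hk).mul_left _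
  have h6 : ∏ z ∈ Z, (X - C (z : A)) ^ t ∣ Φ := by
    refine Finset.prod_dvd_of_coprime ?_ h1
    intro z hz1 z' hz2 hne
    exact (isCoprime_X_sub_C_of_isUnit_sub (hZ z hz1 z' hz2 hne)).pow
  have h7 : (∏ z ∈ Z, (X - C (z : A)) ^ t).Monic :=
    monic_prod_of_monic _ _ fun z _ => (monic_X_sub_C _).pow _
  have h8 : (∏ z ∈ Z, (X - C (z : A)) ^ t).natDegree = Z.card * t := by
    rw [natDegree_prod_of_monic _ _ fun z _ => (monic_X_sub_C _).pow _]
    rw [Finset.sum_congr rfl fun (z : ℕ) _ => (monic_X_sub_C (z : A)).natDegree_pow t]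
    simp only [natDegree_X_sub_C, mul_one, sum_const, smul_eq_mul]
  have h9 : Φ.degree < n := by
    rw [hΦ]
    refine (degree_sum_le _ _).trans_lt ((Finset.sup_lt_iff (WithBot.bot_lt_coe n)).2 ?_)
    intro i _
    rw [ex.eq_1, mul_sum]
    refine (degree_sum_le _ _).trans_lt ((Finset.sup_lt_iff (WithBot.bot_lt_coe n)).2 ?_)
    intro k hk
    rw [mul_pow, ← C_pow, ← mul_assoc, ← mul_assoc, ← C_mul, ← C_mul]
    exact (degree_C_mul_X_pow_le _ _).trans_lt (WithBot.coe_lt_coe.2 (mem_range.1 hk))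
  have h10 : Φ = 0 := by
    by_contra hne
    refine h7.not_dvd_of_degree_lt hne ?_ h6
    rw [degree_eq_natDegree h7.ne_zero, h8]
    exact h9.trans_le (by exact_mod_cast hn)
  have h11 := congrArg (evalRingHom (z : A)) (hΦ.symm.trans h10)
  simp only [map_sum, map_mul, map_ex, coe_evalRingHom, eval_C, eval_X, map_zero] at h11
  rw [← h11]
  exact Finset.sum_congr rfl fun i hi => by rw [hz i hi]

theorem moments {A ι κ : Type*} [CommRing A] [Fintype κ] (I : Finset ι) (b l : ι → A)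
    (x : ι → κ → ℤ) (α : κ → A) (β : A) (t : ℕ)
    (hl : ∀ i ∈ I, l i = ∑ m, (x i m : A) * α m + β)
    (h0 : ∀ τ : Multiset κ, τ.card < t → ∑ i ∈ I, (((τ.map (x i)).prod : ℤ) : A) * b i = 0)
    (k : ℕ) : ∀ τ : Multiset κ, k + τ.card < t →
      ∑ i ∈ I, (((τ.map (x i)).prod : ℤ) : A) * l i ^ k * b i = 0 := by
  induction k with
  | zero =>
    intro τ hτ
    simpa using h0 τ (by omega)
  | succ k ih =>
    intro τ hτ
    have h1 : ∀ i ∈ I, (((τ.map (x i)).prod : ℤ) : A) * l i ^ (k + 1) * b i =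
        ∑ m, α m * (((((m ::ₘ τ).map (x i)).prod : ℤ) : A) * l i ^ k * b i) +
          β * ((((τ.map (x i)).prod : ℤ) : A) * l i ^ k * b i) := by
      intro i hi
      have h2 : ∑ m, α m * (((((m ::ₘ τ).map (x i)).prod : ℤ) : A) * l i ^ k * b i) =
          (∑ m, (x i m : A) * α m) * ((((τ.map (x i)).prod : ℤ) : A) * l i ^ k * b i) := by
        rw [sum_mul]
        refine Finset.sum_congr rfl fun m _ => ?_
        rw [Multiset.map_cons, Multiset.prod_cons, Int.cast_mul]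
        ring
      rw [h2, ← add_mul, ← hl i hi]
      ring
    rw [Finset.sum_congr rfl h1, Finset.sum_add_distrib, ← mul_sum, ih τ (by omega), mul_zero,
      add_zero, Finset.sum_comm]
    refine Finset.sum_eq_zero fun m _ => ?_
    rw [← mul_sum, ih (m ::ₘ τ) (by rw [Multiset.card_cons]; omega), mul_zero]

theorem unit_int {q : ℕ} (hq : q.Prime) (n : ℕ) {m : ℤ} (hm : ¬ (q : ℤ) ∣ m) :
    IsUnit (m : ZMod (q ^ n)) := by
  have h1 : IsCoprime ((q : ℤ) ^ n) m :=
    ((Nat.prime_iff_prime_int.1 hq).coprime_iff_not_dvd.2 hm).pow_left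
  obtain ⟨u, v, h⟩ := h1
  have h2 := congrArg (Int.cast : ℤ → ZMod (q ^ n)) h
  have h3 : ((q : ZMod (q ^ n))) ^ n = 0 := by
    rw [← Nat.cast_pow, ZMod.natCast_self]
  push_cast at h2
  rw [h3, mul_zero, zero_add] at h2
  exact IsUnit.of_mul_eq_one_right v h2

theorem fermat {q : ℕ} [Fact q.Prime] (u : ℤ_[q]ˣ) :
    (q : ℤ_[q]) ∣ (u : ℤ_[q]) ^ (q - 1) - 1 := by
  rw [← Ideal.mem_span_singleton, ← PadicInt.maximalIdeal_eq_span_p, ← PadicInt.ker_toZMod,
    RingHom.mem_ker, map_sub, map_pow, map_one, sub_eq_zero]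
  exact ZMod.pow_card_sub_one_eq_one (u.isUnit.map PadicInt.toZMod).ne_zero

theorem norm_le_iff {q : ℕ} [Fact q.Prime] (n : ℕ) (w : ℤ_[q]) :
    ‖(w : ℚ_[q])‖ ≤ (q : ℝ) ^ (-(n : ℤ)) ↔ PadicInt.toZModPow n w = 0 := by
  rw [← RingHom.mem_ker, PadicInt.ker_toZModPow, ← PadicInt.norm_le_pow_iff_mem_span_pow,
    PadicInt.norm_def]

theorem lift_one {q : ℕ} [Fact q.Prime] {r : ℚ_[q]} (hr : ‖r - 1‖ < 1) :
    ∃ u : ℤ_[q]ˣ, ((u : ℤ_[q]) : ℚ_[q]) = r ∧ (q : ℤ_[q]) ∣ (u : ℤ_[q]) - 1 := by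
  let s : ℤ_[q] := ⟨r - 1, hr.le⟩
  have hs : ‖s‖ < 1 := hr
  have h1 : ‖1 + s‖ = 1 := by
    rw [PadicInt.norm_add_eq_max_of_ne (by rw [norm_one]; exact hs.ne'), norm_one]
    exact max_eq_left hs.le
  obtain ⟨u, hu⟩ := PadicInt.isUnit_iff.2 h1
  refine ⟨u, ?_, ?_⟩
  · rw [hu, PadicInt.coe_add, PadicInt.coe_one]
    change 1 + (r - 1) = r
    ring
  · rw [hu, add_sub_cancel_left]
    exact (PadicInt.norm_lt_one_iff_dvd s).1 hs

end SWAux

open SWAux in
theorem SW_thm : SW := by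
  intro q hq n t e ι κ _ I a k x r g ρ φ Z hnq he hn hZ hr hg hρ hφ hgq hrel hvan z
  have hqp : q.Prime := hq.out
  have : NeZero (q ^ n) := ⟨pow_ne_zero _ hqp.ne_zero⟩
  have hp : (q : ZMod (q ^ n)) ^ n = 0 := by rw [← Nat.cast_pow, ZMod.natCast_self]
  have hc0 : ∀ k < n, ∃ y : ZMod (q ^ n), y * (k.factorial : ZMod (q ^ n)) = 1 := by
    intro k hk
    have h1 : ¬ (q : ℤ) ∣ ((k.factorial : ℕ) : ℤ) := by
      rw [Int.natCast_dvd_natCast, hqp.dvd_factorial]
      omega
    have h2 := unit_int hqp n h1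
    rw [Int.cast_natCast] at h2
    exact h2.exists_left_inv
  choose! c hc using hc0
  obtain ⟨lg, hlg, hadd⟩ := exists_lg hc hp
  have hlg1 : lg 1 = 0 := by
    have h := hadd 1 1 (by simp) (by simp)
    rw [mul_one] at h
    linear_combination -h
  have hlgpow : ∀ u : ZMod (q ^ n), (q : ZMod (q ^ n)) ∣ u - 1 → ∀ m : ℕ,
      lg (u ^ m) = m * lg u := by
    intro u hu m
    induction m with
    | zero => simp [hlg1]
    | succ m ih =>
      rw [pow_succ, hadd _ _ (hu.trans (sub_one_dvd_pow_sub_one u m)) hu, ih]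
      push_cast
      ring
  set π : ℤ_[q] →+* ZMod (q ^ n) := PadicInt.toZModPow n with hπ
  have hdv : ∀ w : ℤ_[q], (q : ℤ_[q]) ∣ w - 1 → (q : ZMod (q ^ n)) ∣ π w - 1 := by
    intro w hw
    have h := map_dvd π hw
    rwa [map_natCast, map_sub, map_one] at h
  let Lam : ℤ_[q]ˣ →* Multiplicative (ZMod (q ^ n)) := MonoidHom.mk'
    (fun u => Multiplicative.ofAdd (lg (π ((u : ℤ_[q]) ^ (q - 1))))) (by
      intro u v
      rw [← ofAdd_add, Units.val_mul, mul_pow, map_mul,
        hadd _ _ (hdv _ (fermat u)) (hdv _ (fermat v))])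
  have hLam : ∀ u : ℤ_[q]ˣ, (Lam u).toAdd = lg (π ((u : ℤ_[q]) ^ (q - 1))) := fun u => rfl
  let j : ℤ_[q]ˣ →* ℚ_[q] := (PadicInt.Coe.ringHom (p := q)).toMonoidHom.comp (Units.coeHom _)
  have hj : ∀ u : ℤ_[q]ˣ, j u = ((u : ℤ_[q]) : ℚ_[q]) := fun u => rfl
  have hjinj : Function.Injective j := fun u v h => Units.ext (Subtype.ext h)
  have hr0 : ∀ i ∈ I, ∃ u : ℤ_[q]ˣ, ((u : ℤ_[q]) : ℚ_[q]) = r i ∧
      (q : ℤ_[q]) ∣ (u : ℤ_[q]) - 1 := fun i hi => lift_one (hr i hi)
  choose! R hR using hr0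
  have hG : Lam (PadicInt.mkUnits hg) = 1 := by
    have h1 : π (((PadicInt.mkUnits hg : ℤ_[q]ˣ) : ℤ_[q]) ^ (q - 1) - 1) = 0 := by
      rw [hπ, ← norm_le_iff, PadicInt.coe_sub, PadicInt.coe_pow, PadicInt.mkUnits_eq,
        PadicInt.coe_one]
      exact hgq
    rw [map_sub, map_one, sub_eq_zero] at h1
    apply Multiplicative.toAdd.injective
    rw [hLam, h1, hlg1, toAdd_one]
  have hunit : IsUnit (((e * (q - 1 : ℕ) : ℕ) : ℤ) : ZMod (q ^ n)) := by
    refine unit_int hqp n ?_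
    rw [Int.natCast_dvd_natCast, hqp.dvd_mul]
    rintro (h | h)
    · exact he h
    · have h2 := hqp.two_le
      have h3 := Nat.le_of_dvd (by omega) h
      omega
  obtain ⟨v, hv⟩ := hunit.exists_left_inv
  rw [Int.cast_natCast, Nat.cast_mul] at hv
  have hl : ∀ i ∈ I, lg (π (R i)) =
      ∑ m, (x i m : ZMod (q ^ n)) * (v * (Lam (PadicInt.mkUnits (hφ m))).toAdd) +
        -(v * (Lam (PadicInt.mkUnits hρ)).toAdd) := by
    intro i hi
    have h1 : R i ^ e * PadicInt.mkUnits hρ =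
        PadicInt.mkUnits hg ^ k i * ∏ m, PadicInt.mkUnits (hφ m) ^ x i m := by
      apply hjinj
      simp only [map_mul, map_pow, map_zpow, map_prod]
      simp only [hj, PadicInt.mkUnits_eq, (hR i hi).1]
      exact hrel i hi
    have h2 := congrArg (fun u => (Lam u).toAdd) h1
    simp only [map_mul, map_pow, map_zpow, map_prod, hG, one_zpow, one_mul, toAdd_mul, toAdd_pow,
      toAdd_prod, toAdd_zpow, nsmul_eq_mul, zsmul_eq_mul] at h2
    rw [hLam (R i), map_pow, hlgpow _ (hdv _ (hR i hi).2)] at h2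
    have h3 : ∑ m, (x i m : ZMod (q ^ n)) * (v * (Lam (PadicInt.mkUnits (hφ m))).toAdd) =
        v * ∑ m, (x i m : ZMod (q ^ n)) * (Lam (PadicInt.mkUnits (hφ m))).toAdd := by
      rw [mul_sum]
      exact Finset.sum_congr rfl fun m _ => by ring
    rw [h3, ← h2]
    linear_combination (-lg (π (R i))) * hv
  have hex : ∀ i ∈ I, ex n c (lg (π (R i))) = π (R i) := fun i hi => (hlg _ (hdv _ (hR i hi).2)).2
  have hmain := vanish (t := t) hc hp I (fun i => (a i : ZMod (q ^ n))) (fun i => lg (π (R i))) Z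
    (fun i hi => (hlg _ (hdv _ (hR i hi).2)).1) hn (by
      intro z hz z' hz' hne
      have h := unit_int hqp n (fun h => hne (hZ z hz z' hz' h))
      rwa [Int.cast_sub, Int.cast_natCast, Int.cast_natCast] at h) (by
      intro z hz s hs
      have h1 := moments I (fun i => (a i : ZMod (q ^ n)) * π (R i) ^ z) (fun i => lg (π (R i))) x
        _ _ t hl (by
          intro τ hτ
          have h2 : ∑ i ∈ I, ((a i * mon (x i) τ : ℤ) : ℤ_[q]) * (R i : ℤ_[q]) ^ z = 0 := by
            apply Subtype.ext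
            have h3 := hvan z hz τ hτ
            rw [PadicInt.coe_zero, ← h3]
            change (PadicInt.Coe.ringHom (p := q)) _ = _
            rw [map_sum]
            refine Finset.sum_congr rfl fun i hi => ?_
            rw [map_mul, map_pow, map_intCast, ← (hR i hi).1]
            rfl
          have h4 := congrArg π h2
          rw [map_sum, map_zero] at h4
          rw [← h4]
          refine Finset.sum_congr rfl fun i _ => ?_
          rw [map_mul, map_pow, map_intCast, Int.cast_mul, mon]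
          ring) s 0 (by simpa using hs)
      rw [← h1]
      refine Finset.sum_congr rfl fun i hi => ?_
      rw [hex i hi]
      simp only [Multiset.map_zero, Multiset.prod_zero, Int.cast_one]
      ring) z
  have h5 : ∑ i ∈ I, (a i : ℚ_[q]) * r i ^ z =
      ((∑ i ∈ I, (a i : ℤ_[q]) * (R i : ℤ_[q]) ^ z : ℤ_[q]) : ℚ_[q]) := by
    change _ = (PadicInt.Coe.ringHom (p := q)) _
    rw [map_sum]
    refine Finset.sum_congr rfl fun i hi => ?_
    rw [map_mul, map_pow, map_intCast, ← (hR i hi).1]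
    rfl
  rw [h5, norm_le_iff, ← hπ, map_sum, ← hmain]
  refine Finset.sum_congr rfl fun i hi => ?_
  rw [map_mul, map_pow, map_intCast, hex i hi]

end Pool.Agent.Lib.MP_de9007_nt.PS
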