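import Pool.Agent.Lib.MP_de9007_nt.PS.Stmt
import Pool.Agent.Lib.MP_df1788_co.Tower

/-! Totally real towers of bounded root discriminant with a place of degree one above `q`. -/

namespace Pool.Agent.Lib.MP_de9007_nt.PS

open NumberField Polynomial Pool.Agent.Stark Pool.Agent.Lib.MP_df1788_co

namespace TWAux

section Val

variable {F : Type} [Field F] [CharZero F] (w : Valuation F (WithZero (Multiplicative ℤ)))

omit [CharZero F] in
theorem w_int (n : ℤ) : w n ≤ 1 := intCast_mem w.integer n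

/-- `x` is a limit of rational numbers. -/
def Ap (x : F) : Prop := ∀ γ : WithZero (Multiplicative ℤ), γ ≠ 0 → ∃ r : ℚ, w (x - r) ≤ γ

variable {w}

theorem Ap.lin {x : F} (h : Ap w x) (a b : ℚ) : Ap w (a + b * x) := by
  intro γ hγ
  by_cases hb : b = 0
  · exact ⟨a, by simp [hb]⟩
  have h0 : w b ≠ 0 := by simpa using hb
  obtain ⟨r, hr⟩ := h (γ / w b) (div_ne_zero hγ h0)
  refine ⟨a + b * r, ?_⟩
  rw [show (a : F) + b * x - ((a + b * r : ℚ) : F) = b * (x - r) by push_cast; ring, map_mul,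
    mul_comm]
  exact (le_div_iff₀ (zero_lt_iff.2 h0)).1 hr

variable {q : ℕ} [Fact q.Prime]

omit [CharZero F] in
theorem ap_rt (hq : w q < 1) (h2 : q ≠ 2) {x : F} {k : ℕ} (hx : x ^ 2 = (q * k + 1 : ℕ)) :
    Ap w x := by
  intro γ hγ
  obtain ⟨N, hN⟩ := exists_pow_lt₀ hq (Units.mk0 γ hγ)
  obtain ⟨s, hs⟩ : Odd (q ^ (2 * N)) := ((Fact.out : q.Prime).odd_of_ne_two h2).pow
  obtain ⟨c, hc⟩ := dvd_sub_pow_of_dvd_sub (R := ℤ) (p := q) (a := q * k + 1) (b := 1)
    ⟨k, by ring⟩ (2 * N)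
  rw [hs, one_pow] at hc
  obtain ⟨t, ht⟩ : ∃ t : ℤ, t = (q * k + 1) ^ (s + 1) := ⟨_, rfl⟩
  have h1 : (x - t) * (x + t) = q ^ N * q ^ N * ((-(q * (q * k + 1) * c) : ℤ) : F) := by
    have h3 := congrArg (Int.cast : ℤ → F) hc
    rw [ht]
    push_cast at h3 hx ⊢
    linear_combination hx - (q * k + 1) * h3
  have h3 : w (x - t) * w (x + t) ≤ w q ^ N * w q ^ N := by
    rw [← map_mul, h1, map_mul, map_mul, map_pow]
    exact mul_le_of_le_one_right' (w_int w _)
  rcases le_or_gt (w (x - t)) (w q ^ N) with h4 | h4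
  · exact ⟨t, by exact_mod_cast h4.trans hN.le⟩
  rcases le_or_gt (w (x + t)) (w q ^ N) with h5 | h5
  · exact ⟨-t, by rw [Rat.cast_neg, sub_neg_eq_add]; exact_mod_cast h5.trans hN.le⟩
  · exact absurd h3 (not_le.2 (mul_lt_mul'' h4 h5 zero_le zero_le))

theorem norm_le (hq : w q < 1) {r : ℚ} (h : w r ≤ 1) : ‖(r : ℚ_[q])‖ ≤ 1 := by
  refine Padic.norm_rat_le_one fun hd => ?_
  obtain ⟨k, hk⟩ := hd
  have hc : IsCoprime r.num (q : ℤ) :=
    Int.isCoprime_iff_gcd_eq_one.2 (Nat.Coprime.coprime_dvd_right ⟨k, hk⟩ r.reduced)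
  obtain ⟨a, b, hab⟩ := hc
  have h1 : (r : F) * (q * k) = r.num := by
    rw [← Nat.cast_mul, ← hk]
    exact_mod_cast congrArg (Rat.cast : ℚ → F) (Rat.mul_den_eq_num r)
  have h2 : (1 : F) = q * ((a * k : ℤ) * r + b) := by
    have h3 := congrArg (Int.cast : ℤ → F) hab
    push_cast at h3 ⊢
    linear_combination -h3 - a * h1
  have h3 : w ((a * k : ℤ) * r + b) ≤ 1 :=
    (w.map_add _ _).trans (max_le (by rw [map_mul]; exact mul_le_one' (w_int w _) h) (w_int w _))
  have h4 := congrArg w h2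
  rw [map_one, map_mul] at h4
  exact absurd h4 ((mul_le_of_le_one_right' h3).trans_lt hq).ne'

theorem root (hq : w q < 1) (f : ℤ[X]) {x : F} (hx : w x ≤ 1) (h0 : aeval x f = 0)
    (hd : Ap w x) : ∃ y : ℚ_[q], aeval y f = 0 := by
  have hp : q.Prime := Fact.out
  have q0 : (q : F) ≠ 0 := Nat.cast_ne_zero.2 hp.ne_zero
  obtain ⟨z, -, hz⟩ := isCompact_univ.exists_isMinOn (α := ℝ)
    (f := fun z : ℤ_[q] => ‖aeval (z : ℚ_[q]) f‖) Set.univ_nonempty
    (f.continuous_aeval.comp continuous_subtype_val).norm.continuousOn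
  refine ⟨z, norm_le_zero_iff.1 (ge_of_tendsto' (tendsto_pow_atTop_nhds_zero_of_lt_one
    (r := (q : ℝ)⁻¹) (by positivity) (inv_lt_one_of_one_lt₀ (by exact_mod_cast hp.one_lt)))
    fun j => ?_)⟩
  obtain ⟨r, hr⟩ := hd (w q ^ j) (pow_ne_zero _ (by simpa using hp.ne_zero))
  have h1 : w (x - r) ≤ 1 := hr.trans (pow_le_one' hq.le j)
  have h2 : w r ≤ 1 := by
    rw [show (r : F) = x - (x - r) by ring]
    exact (w.map_sub _ _).trans (max_le hx h1)
  have h3 : w (aeval (r : F) f) ≤ w q ^ j := by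
    obtain ⟨c, hc⟩ := sub_dvd_eval_sub (⟨r, h2⟩ : w.integer) ⟨x, hx⟩
      (f.map (algebraMap ℤ w.integer))
    rw [eval_map_algebraMap, eval_map_algebraMap] at hc
    have h4 := congrArg (w.integer.subtype.toIntAlgHom) hc
    rw [map_sub, map_mul, map_sub, ← aeval_algHom_apply, ← aeval_algHom_apply] at h4
    change aeval (r : F) f - aeval x f = (r - x) * c.1 at h4
    rw [h0, sub_zero] at h4
    rw [h4, map_mul, w.map_sub_swap]
    exact (mul_le_of_le_one_right' c.2).trans hr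
  have h5 : ∀ (G : Type) [Field G] [CharZero G], ((aeval r f : ℚ) : G) = aeval (r : G) f :=
    fun G _ _ => (aeval_algHom_apply (Rat.castHom G).toIntAlgHom r f).symm
  have h4 : ‖((aeval r f / q ^ j : ℚ) : ℚ_[q])‖ ≤ 1 := norm_le hq (by
    rw [Rat.cast_div, Rat.cast_pow, Rat.cast_natCast, h5, map_div₀, map_pow]
    exact div_le_one_of_le₀ h3 zero_le)
  rw [Rat.cast_div, Rat.cast_pow, Rat.cast_natCast, h5, norm_div, norm_pow, Padic.norm_p,
    div_le_one (by have := hp.pos; positivity)] at h4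
  exact (hz (Set.mem_univ (⟨r, norm_le hq h2⟩ : ℤ_[q]))).trans h4

theorem emb_of (hq : w q < 1) (hd : ∀ x, Ap w x) {L : Type} [Field L] [NumberField L]
    (ι : L →+* F) : Nonempty (L →+* ℚ_[q]) := by
  let pb := Field.powerBasisOfFiniteOfSeparable ℚ L
  obtain ⟨d, d0, hi⟩ := (IsFractionRing.isAlgebraic_iff ℤ ℚ L).2
    (Algebra.IsAlgebraic.isAlgebraic pb.gen) |>.exists_integral_multiple
  have h1 : aeval (ι (d • pb.gen)) (minpoly ℤ (d • pb.gen)) = 0 := by
    rw [show ι (d • pb.gen) = ι.toIntAlgHom (d • pb.gen) from rfl, aeval_algHom_apply,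
      minpoly.aeval, map_zero]
  have h2 : IsIntegral w.integer (ι (d • pb.gen)) :=
    ⟨(minpoly ℤ (d • pb.gen)).map (algebraMap ℤ _), (minpoly.monic hi).map _, by
      rw [← aeval_def, aeval_map_algebraMap, h1]⟩
  obtain ⟨y, hy⟩ := root hq _ ((Valuation.integer.integers w).mem_of_integral h2) h1 (hd _)
  rw [← aeval_map_algebraMap ℚ, ← minpoly.isIntegrallyClosed_eq_field_fractions' ℚ hi] at hy
  have d1 : (d : ℚ) ≠ 0 := Int.cast_ne_zero.2 d0
  obtain ⟨c, hc⟩ := minpoly.dvd ℚ (d • pb.gen)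
    (p := (minpoly ℚ pb.gen).comp (C (d : ℚ)⁻¹ * X)) (by
      rw [aeval_comp, map_mul, aeval_C, aeval_X, zsmul_eq_mul, ← map_intCast (algebraMap ℚ L),
        ← mul_assoc, ← map_mul, inv_mul_cancel₀ d1, map_one, one_mul, minpoly.aeval])
  have h3 := congrArg (aeval y) hc
  rw [map_mul, hy, zero_mul, aeval_comp] at h3
  exact ⟨(pb.lift _ h3).toRingHom⟩

end Val

variable {K : Type} [Field K] [NumberField K] {m : ℕ} (E : Quad ℚ K (m : ℚ))

theorem rt_sq : E.rt ^ 2 = (m : K) := by rw [E.sq, map_natCast]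

include E in
theorem ap_all {q : ℕ} [Fact q.Prime] (h2 : q ≠ 2) (Q : Pr K) (hq : wv Q q < 1) {t k : ℕ}
    (ht : t ≠ 0) (h : m * t ^ 2 = q * k + 1) (x : Kc Q) : Ap (wv Q) x := by
  have : CharZero (Kc Q) := algebraRat.charZero _
  have h1 : Ap (wv Q) (emb Q (E.rt * t)) := ap_rt hq h2 (k := k) (by
    rw [← map_pow, mul_pow, rt_sq, ← h, ← map_natCast (emb Q), Nat.cast_mul, Nat.cast_pow])
  intro γ hγ
  obtain ⟨y, hy⟩ := exists_approx Q x (-WithZero.log γ)
  rw [mem_pw, neg_neg, WithZero.exp_log hγ] at hy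
  obtain ⟨a, b, rfl⟩ := E.span y
  obtain ⟨r, hr⟩ := h1.lin a (b / t) γ hγ
  refine ⟨r, ?_⟩
  have t0 : (t : Kc Q) ≠ 0 := Nat.cast_ne_zero.2 ht
  have h3 : emb Q (algebraMap ℚ K a + algebraMap ℚ K b * E.rt) =
      a + (b / t : ℚ) * emb Q (E.rt * t) := by
    rw [map_add, map_mul, map_mul, eq_ratCast, eq_ratCast, map_ratCast, map_ratCast, map_natCast,
      Rat.cast_div, Rat.cast_natCast]
    field_simp
  rw [h3] at hy
  generalize (a : Kc Q) + (b / t : ℚ) * emb Q (E.rt * t) = u at hy hr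
  rw [show x - r = (u - r) - (u - x) by ring]
  exact ((wv Q).map_sub _ _).trans (max_le hr hy)

include E in
theorem sq_cases {y : ℕ} (h : IsSquare (y : K)) : IsSquare y ∨ IsSquare (m * y) := by
  obtain ⟨z, hz⟩ := h
  obtain ⟨g, h, rfl⟩ := E.span z
  have h1 : algebraMap ℚ K (g ^ 2 + m * h ^ 2 - y) + algebraMap ℚ K (2 * g * h) * E.rt = 0 := by
    simp only [map_sub, map_add, map_mul, map_pow, map_natCast, map_ofNat]
    rw [hz, ← rt_sq E]
    ring
  obtain ⟨h2, h3⟩ := E.indep h1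
  rw [← Rat.isSquare_natCast_iff, ← Rat.isSquare_natCast_iff]
  rcases mul_eq_zero.1 h3 with c | c
  · have c' : g = 0 := by simpa using c
    exact Or.inr ⟨m * h, by push_cast; rw [c'] at h2; linear_combination (-(m : ℚ)) * h2⟩
  · exact Or.inl ⟨g, by rw [c] at h2; linear_combination -h2⟩

theorem cl_prod {ι : Type} (x : ι → ℕ) (hx : ∀ i, 0 < x i) (s : Finset ι) :
    cl ((∏ i ∈ s, x i : ℕ) : K) = ∑ i ∈ s, cl (x i : K) := by
  classical
  induction s using Finset.induction_on with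
  | empty => simpa using (cl_eq_zero (one_ne_zero : (1 : K) ≠ 0)).2 ⟨1, by simp⟩
  | insert i s hi ih =>
    rw [Finset.prod_insert hi, Finset.sum_insert hi, Nat.cast_mul, cl_mul, ih]
    · exact Nat.cast_ne_zero.2 (hx i).ne'
    · exact Nat.cast_ne_zero.2 (Finset.prod_pos fun j _ => hx j).ne'

theorem not_sq {p b : ℕ} (hp : p.Prime) (h : p.Coprime b) : ¬ IsSquare (p * b) :=
  BaseAux.not_sq hp dvd_rfl (fun c => by
    have := Nat.le_of_dvd hp.pos c
    have := hp.two_le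
    nlinarith) h

section Primes

variable {p : Fin 10 → ℕ} (hp : ∀ i, (p i).Prime) (hi : Function.Injective p)

include hp hi in
theorem cop {i j : Fin 10} (h : i ≠ j) : (p i).Coprime (p j) :=
  (Nat.coprime_primes (hp i) (hp j)).2 fun c => h (hi c)

include hp hi in
theorem cop_rest (i : Fin 10) : (p i).Coprime (∏ j ∈ Finset.univ.erase i, p j) :=
  Nat.Coprime.prod_right fun _ hj => cop hp hi (Finset.ne_of_mem_erase hj).symm

include hp hi in
theorem m_ns : ¬ IsSquare ((∏ i, p i : ℕ) : ℚ) := by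
  rw [Rat.isSquare_natCast_iff, ← Finset.mul_prod_erase _ _ (Finset.mem_univ 0)]
  exact not_sq (hp 0) (cop_rest hp hi 0)

include hp hi in
theorem indep (E : Quad ℚ K ((∏ i, p i : ℕ) : ℚ)) :
    LinearIndependent (ZMod 2) fun i : Fin 8 => cl ((p i.succ.succ * p 0 : ℕ) : K) := by
  have h0 : ∀ i : Fin 8, 0 < p i.succ.succ * p 0 := fun i => Nat.mul_pos (hp _).pos (hp _).pos
  rw [Fintype.linearIndependent_iff]
  intro g hg i
  by_contra hne
  have h1 : ∑ j ∈ Finset.univ.filter (fun j => g j ≠ 0),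
      cl ((p j.succ.succ * p 0 : ℕ) : K) = 0 := by
    rw [← hg, Finset.sum_filter]
    refine Finset.sum_congr rfl fun j _ => ?_
    rcases zmod2_cases (g j) with c | c <;> simp [c]
  rw [← cl_prod _ h0, cl_eq_zero (Nat.cast_ne_zero.2 (Finset.prod_pos fun j _ => h0 j).ne')] at h1
  rcases sq_cases E h1 with c | c
  · rw [← Finset.mul_prod_erase _ _ (a := i) (by simpa using hne), mul_assoc] at c
    have h2 := cop hp hi (Fin.succ_ne_zero i.succ)
    exact not_sq (hp _) (h2.mul_right (Nat.Coprime.prod_right fun j hj => (cop hp hi fun e =>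
      Finset.ne_of_mem_erase hj (Fin.succ_injective _ (Fin.succ_injective _ e)).symm).mul_right
        h2)) c
  · rw [← Finset.mul_prod_erase _ _ (Finset.mem_univ (Fin.succ 0)), mul_assoc] at c
    exact not_sq (hp _) ((cop_rest hp hi _).mul_right (Nat.Coprime.prod_right fun j _ =>
      (cop hp hi fun e => Fin.succ_ne_zero j (Fin.succ_injective _ e).symm).mul_right
        (cop hp hi (Fin.succ_ne_zero 0)))) c

include hp hi in
theorem main (E : Quad ℚ K ((∏ i, p i : ℕ) : ℚ)) (h8 : ∀ i, p i % 8 = 1) {q : ℕ} [Fact q.Prime]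
    (h2 : q ≠ 2) {ε : ZMod q} (hε : ε ^ 2 = 1) (hq : ∀ i, (p i : ZMod q) ^ (q / 2) = ε)
    (hz : ∀ i, (p i : ZMod q) ≠ 0) (j : ℕ) :
    ∃ (L : Type) (_ : Field L) (_ : NumberField L), IsTotallyReal L ∧
      Module.finrank ℚ L = 2 ^ (j + 1) ∧ (discr L).natAbs = (discr K).natAbs ^ 2 ^ j ∧
      Nonempty (L →+* ℚ_[q]) := by
  classical
  have hK := E.finrank_eq
  have q1 : q.Prime := Fact.out
  have h0 : ∀ i : Fin 8, 0 < p i.succ.succ * p 0 := fun i => Nat.mul_pos (hp _).pos (hp _).pos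
  have hr : IsTotallyReal K := ExtAux.real E fun ψ => by
    rw [map_natCast]
    exact_mod_cast Finset.prod_pos fun i _ => (hp i).pos
  obtain ⟨Q, hQ⟩ := BaseAux.exists_above hK q1.two_le
  obtain ⟨T, hT⟩ : ∃ T, T = insert Q (dv (2 : K)).support := ⟨_, rfl⟩
  have h4 : ∀ P ∉ T, og P (2 : K) = 0 := fun P hP =>
    Finsupp.notMem_support_iff.1 fun c => hP (hT ▸ Finset.mem_insert_of_mem c)
  have h3 : T.card ≤ 3 := by
    have := BaseAux.card_two hK
    have := Finset.card_insert_le Q (dv (2 : K)).support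
    rw [hT]
    omega
  have := (obs T h4).1
  have hV := le_card_Vs (T := T) _ (fun i => ⟨Nat.cast_ne_zero.2 (h0 i).ne', fun P _ => ?_,
    fun P hP => ?_, fun φ => ?_⟩) (indep hp hi E)
  rotate_left
  · have e : ∏ i, p i = p i.succ.succ * p 0 *
        ∏ j ∈ (Finset.univ.erase i.succ.succ).erase 0, p j := by
      rw [mul_assoc, Finset.mul_prod_erase _ _ (Finset.mem_erase.2
        ⟨(Fin.succ_ne_zero _).symm, Finset.mem_univ _⟩), Finset.mul_prod_erase _ _
        (Finset.mem_univ _)]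
    refine BaseAux.even_og P (Nat.Coprime.prod_right fun j hj => Nat.Coprime.mul_left
      (cop hp hi (Finset.ne_of_mem_erase (Finset.mem_of_mem_erase hj)).symm)
      (cop hp hi (Finset.ne_of_mem_erase hj).symm)) (h0 i).ne'
      (Finset.prod_pos fun j _ => (hp j).pos).ne' (r := E.rt) (by rw [← e, rt_sq])
  · rcases Finset.mem_insert.1 (hT ▸ hP) with rfl | c
    · obtain ⟨t, k, ht, e⟩ := BaseAux.exists_sq (l := q) (z := p i.succ.succ * p 0)
        (by rw [Nat.cast_mul, mul_pow, hq, hq, ← sq, hε])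
        (by rw [Nat.cast_mul]; exact mul_ne_zero (hz _) (hz _))
      refine BaseAux.lsq_odd _ (Nat.Coprime.pow_right 2
        ((Nat.coprime_primes q1 Nat.prime_two).2 h2)) hQ (Nat.cast_ne_zero.2 ht) (k := k) ?_
      rw [← e]; push_cast; rfl
    · refine BaseAux.lsq_two P (Finsupp.mem_support_iff.1 c) one_ne_zero
        (k := p i.succ.succ * p 0 / 8) ?_
      have e : p i.succ.succ * p 0 % 8 = 1 := by rw [Nat.mul_mod, h8, h8]
      rw [one_pow, mul_one]
      exact congrArg Nat.cast (by omega)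
  · rw [map_natCast]; exact_mod_cast h0 i
  have ht : Fintype.card (InfinitePlace K) ≤ 2 := by
    have := InfinitePlace.card_add_two_mul_card_eq_rank K
    rw [InfinitePlace.card_eq_nrRealPlaces_add_nrComplexPlaces]
    omega
  obtain ⟨L, _, _, _, h⟩ : ∃ (L : Type) (_ : Field L) (_ : NumberField L) (_ : Algebra K L),
      Tow K L T j := by
    induction j with
    | zero =>
      exact ⟨K, _, _, _, inferInstance, Module.finrank_self K, hr,
        fun Q => eI_split (Algebra.ofId K _) rfl, fun q _ => ⟨Algebra.ofId K _⟩⟩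
    | succ j ih =>
      obtain ⟨L, _, _, _, h⟩ := ih
      exact step h h4 (by norm_num) hV (by omega)
  refine ⟨L, inferInstance, inferInstance, h.real, ?_, ?_, ?_⟩
  · rw [← Module.finrank_mul_finrank ℚ K L, hK, h.deg, pow_succ']
  · rw [discr_unr h.unr, h.deg]
  · have : CharZero (Kc Q) := algebraRat.charZero _
    have e1 : wv Q q < 1 := by
      rw [← map_natCast (emb Q), ComplAux.wv_emb]
      exact (BaseAux.val_nat Q q).2.2 hQ
    obtain ⟨t, k, ht, e⟩ := BaseAux.exists_sq (l := q) (z := ∏ i, p i)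
      (by rw [Nat.cast_prod, ← Finset.prod_pow, Finset.prod_congr rfl fun i _ => hq i,
        Finset.prod_const, Finset.card_univ, Fintype.card_fin, show 10 = 2 * 5 from rfl, pow_mul,
        hε, one_pow])
      (by rw [Nat.cast_prod]; exact Finset.prod_ne_zero_iff.2 fun i _ => hz i)
    exact emb_of e1 (ap_all E h2 Q e1 ht e)
      (h.spl Q (hT ▸ Finset.mem_insert_self _ _)).some.toRingHom

end Primes

end TWAux

open TWAux in
theorem TW_thm : TW := by
  classical
  obtain ⟨P, hP, hc⟩ := (Nat.infinite_setOfPred_prime_modEq_one (k := 8)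
    (by norm_num)).exists_subset_card_eq 19
  have hD : ∀ m : ℕ, ∃ D : ℕ, ¬ IsSquare (m : ℚ) → ∃ (K : Type) (_ : Field K) (_ : NumberField K),
      Nonempty (Quad ℚ K (m : ℚ)) ∧ (discr K).natAbs ≤ D := fun m => by
    by_cases h : IsSquare (m : ℚ)
    · exact ⟨0, fun c => absurd h c⟩
    obtain ⟨K, _, _, alg, hE⟩ := exists_quad h
    obtain rfl : alg = DivisionRing.toRatAlgebra := Subsingleton.elim _ _
    exact ⟨_, fun _ => ⟨K, inferInstance, inferInstance, hE, le_rfl⟩⟩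
  choose D hD using hD
  refine ⟨P.powerset.sup (fun A => D (∏ a ∈ A, a)) + P.sup id + 2, fun q _ hq j => ?_⟩
  have hz : ∀ a ∈ P, (a : ZMod q) ≠ 0 := fun a ha c => by
    have h1 := Nat.le_of_dvd (hP ha).1.pos ((ZMod.natCast_eq_zero_iff _ _).1 c)
    have h2 : a ≤ P.sup id := Finset.le_sup (f := id) ha
    omega
  obtain ⟨A, ε, hA, h10, hε, hAε⟩ : ∃ (A : Finset ℕ) (ε : ZMod q), A ⊆ P ∧ A.card = 10 ∧
      ε ^ 2 = 1 ∧ ∀ a ∈ A, (a : ZMod q) ^ (q / 2) = ε := by
    have h1 := Finset.card_filter_add_card_filter_not (s := P)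
      (fun a : ℕ => (a : ZMod q) ^ (q / 2) = 1)
    rcases le_or_gt 10 (P.filter fun a : ℕ => (a : ZMod q) ^ (q / 2) = 1).card with h | h
    · obtain ⟨A, h2, h3⟩ := Finset.exists_subset_card_eq h
      exact ⟨A, 1, h2.trans (Finset.filter_subset _ _), h3, one_pow 2,
        fun a ha => (Finset.mem_filter.1 (h2 ha)).2⟩
    · obtain ⟨A, h2, h3⟩ := Finset.exists_subset_card_eq
        (show 10 ≤ (P.filter fun a : ℕ => ¬ (a : ZMod q) ^ (q / 2) = 1).card by omega)
      exact ⟨A, -1, h2.trans (Finset.filter_subset _ _), h3, neg_one_sq, fun a ha =>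
        (ZMod.pow_div_two_eq_neg_one_or_one q (hz a (Finset.mem_filter.1 (h2 ha)).1)).resolve_left
          (Finset.mem_filter.1 (h2 ha)).2⟩
  obtain ⟨p, hp, hi, hm⟩ : ∃ p : Fin 10 → ℕ, (∀ i, p i ∈ A) ∧ Function.Injective p ∧
      ∏ i, p i = ∏ a ∈ A, a :=
    ⟨fun i => (A.equivFinOfCardEq h10).symm i, fun i => Subtype.property _,
      Subtype.val_injective.comp (Equiv.injective _), by
        rw [← Finset.prod_coe_sort A]
        exact Equiv.prod_comp (A.equivFinOfCardEq h10).symm fun a => a.1⟩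
  have hp1 : ∀ i, (p i).Prime := fun i => (hP (hA (hp i))).1
  obtain ⟨K, _, _, ⟨E⟩, hK⟩ := hD _ (m_ns hp1 hi)
  obtain ⟨L, _, _, h1, h2, h3, h4⟩ := main hp1 hi E (fun i => (hP (hA (hp i))).2) (by omega) hε
    (fun i => hAε _ (hp i)) (fun i => hz _ (hA (hp i))) j
  refine ⟨L, inferInstance, inferInstance, h1, h2, ?_, h4⟩
  have h5 : D (∏ a ∈ A, a) ≤ P.powerset.sup fun A => D (∏ a ∈ A, a) :=
    Finset.le_sup (f := fun A => D (∏ a ∈ A, a)) (Finset.mem_powerset.2 hA)
  rw [h3, h2, pow_succ', ← mul_assoc, pow_mul]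
  refine Nat.pow_le_pow_left (hK.trans (Nat.lt_two_pow_self.le.trans
    (Nat.pow_le_pow_right two_pos ?_))) _
  rw [hm]
  omega

end Pool.Agent.Lib.MP_de9007_nt.PS
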