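import Pool.Agent.Lib.MP_de9007_nt.PS.Core
import Pool.Agent.Lib.MP_de9007_nt.PS.TW
import Pool.Agent.Lib.MP_de9007_nt.PS.BSL
import Pool.Agent.Lib.MP_de9007_nt.PS.MU
import Pool.Agent.Lib.MP_de9007_nt.PS.FM
import Pool.Agent.Lib.MP_de9007_nt.PS.SW
import Pool.Agent.Lib.MP_de9007_nt.PS.KD

/-! Choice of the parameters. -/

namespace Pool.Agent.Lib.MP_de9007_nt.PS

open NumberField

theorem choose_le {r m M : ℕ} (hM : 3 ≤ M) (h : m ≤ r * M) : (r + m).choose m ≤ (4 * M) ^ r := by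
  rw [← Nat.choose_symm_add]
  have h1 : ((r + m).choose r : ℝ) ≤ ((r + m : ℕ) : ℝ) ^ r / r.factorial := by
    exact_mod_cast Nat.choose_le_pow_div (α := ℝ) r (r + m)
  have h2 := Real.pow_div_factorial_le_exp (r : ℝ) (Nat.cast_nonneg _) r
  have h3 : Real.exp r ≤ 3 ^ r := by
    rw [← Real.exp_one_pow]
    gcongr
    exact Real.exp_one_lt_three.le
  have h4 : ((r + m : ℕ) : ℝ) ≤ (M + 1) * r := by
    exact_mod_cast (by nlinarith : r + m ≤ (M + 1) * r)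
  have h5 : (3 : ℝ) ≤ M := by exact_mod_cast hM
  have h6 : ((r + m).choose r : ℝ) ≤ (4 * M) ^ r :=
    calc _ ≤ _ := h1
      _ ≤ ((M + 1) * r) ^ r / r.factorial := by gcongr
      _ = (M + 1) ^ r * (r ^ r / r.factorial) := by rw [mul_pow]; ring
      _ ≤ (M + 1) ^ r * 3 ^ r := by gcongr; exact h2.trans h3
      _ ≤ _ := by
        rw [← mul_pow]
        exact pow_le_pow_left₀ (by positivity) (by linarith) _
  exact_mod_cast h6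

theorem ar4 {c r s J u N δ : ℕ} (hδ : δ = 2 ^ (3 * c + 14)) (a2 : u ≤ 2 ^ s)
    (a6 : 16 * (r + 1) ≤ u) (a3 : 10 * s + 3 * c + 10 ≤ r + 1) (a7 : J + 1 ≤ u)
    (N1 : N ≤ 2 ^ (1 + 5 * s + (J + 6) * r)) :
    2 * N ^ 2 * ((2 * (r + 1) * (δ * 2 ^ (J + 1)) * 5 ^ (r + 1) + 1) ^ (r + 1)) ^
      (2 * (2 * (r + 1 + 1) * 2 ^ (J + 1))) ≤ (2 ^ ((δ + 1) * 2 ^ (J + 1))) ^ (2 * 2 ^ (4 * s)) := by
  have d1 : r + 1 ≤ 2 ^ s := by omega
  have b1 : 2 * (r + 1) * (δ * 2 ^ (J + 1)) * 5 ^ (r + 1) < 2 ^ (2 * u) :=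
    calc 2 * (r + 1) * (δ * 2 ^ (J + 1)) * 5 ^ (r + 1)
        ≤ 2 * 2 ^ s * (δ * 2 ^ (J + 1)) * 8 ^ (r + 1) := by
          gcongr
          norm_num
      _ = 2 ^ (s + 3 * c + J + 3 * r + 19) := by
          rw [hδ, show 8 = 2 ^ 3 by norm_num, ← pow_mul]; ring
      _ < 2 ^ (2 * u) := Nat.pow_lt_pow_right one_lt_two (by omega)
  rw [← Nat.succ_le_iff, Nat.succ_eq_add_one] at b1
  calc _ ≤ 2 * (2 ^ (1 + 5 * s + (J + 6) * r)) ^ 2 *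
        ((2 ^ (2 * u)) ^ (r + 1)) ^ (2 * (2 * (r + 1 + 1) * 2 ^ (J + 1))) := by gcongr
    _ ≤ _ := by
      obtain ⟨P, hP⟩ : ∃ P, P = 2 ^ (J + 1) := ⟨_, rfl⟩
      have b2 : u ^ 4 ≤ 2 ^ (4 * s) := by
        rw [mul_comm, pow_mul]; gcongr
      have b3 : 1 ≤ P := hP ▸ Nat.one_le_two_pow
      rw [← hP, ← pow_mul, ← pow_mul, ← pow_mul, ← pow_mul, ← pow_succ', ← pow_add]
      refine Nat.pow_le_pow_right two_pos ?_
      have b4 : (J + 6) * r ≤ 2 * u * u := Nat.mul_le_mul (by omega) (by omega)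
      have b5 : (r + 1) * (4 * (r + 2)) ≤ u * u := Nat.mul_le_mul (by omega) (by omega)
      have b6 : 16 ≤ u := by omega
      have b7 : (1 + 5 * s + (J + 6) * r) * 2 + 1 ≤ u * (u * u) := by
        have : 10 * s + 3 ≤ u := by omega
        have : 16 * (u * u) ≤ u * (u * u) := Nat.mul_le_mul_right _ b6
        nlinarith
      calc _ = ((1 + 5 * s + (J + 6) * r) * 2 + 1) * 1 +
            2 * u * ((r + 1) * (4 * (r + 2))) * P := by ring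
        _ ≤ u * (u * u) * P + 2 * u * (u * u) * P := by gcongr
        _ = 1 * P * (3 * u ^ 3) := by ring
        _ ≤ (δ + 1) * P * (2 * u ^ 4) := by
          refine Nat.mul_le_mul (Nat.mul_le_mul_right _ (by omega)) ?_
          rw [show 2 * u ^ 4 = 2 * u * u ^ 3 by ring]
          exact Nat.mul_le_mul_right _ (by omega)
        _ ≤ _ := by gcongr

theorem key {c d l s h h' q : ℕ} [Fact q.Prime] {L : Type} [Field L] [NumberField L]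
    [IsTotallyReal L] (ψ : L →+* ℚ_[q]) (hd : Module.finrank ℚ L = d)
    (hc : (discr L).natAbs ≤ 2 ^ (c * d)) {a b : ℤ} (hab : a.natAbs ≠ b.natAbs)
    (h1 : |a| ≤ 2 ^ h) (h2 : |b| ≤ 2 ^ h) (qa : ¬ (q : ℤ) ∣ a) (qb : ¬ (q : ℤ) ∣ b)
    (p1 : 2 * h ≤ 2 ^ h') (a1 : 16 * (2 ^ (3 * c + 14) + 1) * d ≤ l + 1) (a2 : l + 1 ≤ 2 ^ s)
    (a3 : 10 * s + 3 * c + 10 + h' ≤ d) (a4 : 2 ^ l ≤ q) (a5 : q ≤ 2 ^ (l + 1)) {n : ℕ}
    (hn : (q : ℤ) ^ n ∣ a ^ (q - 1) - b ^ (q - 1)) : n * 2 ^ d ≤ q := by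
  obtain ⟨δ, hδ⟩ : ∃ δ, δ = 2 ^ (3 * c + 14) := ⟨_, rfl⟩
  have δ1 : 3 * c + 14 < δ := hδ ▸ Nat.lt_two_pow_self
  rw [← hδ] at a1
  have a6 : 16 * d ≤ l + 1 := le_trans (by nlinarith) a1
  obtain ⟨r, rfl⟩ : ∃ r, d = r + 1 := ⟨d - 1, by omega⟩
  obtain ⟨J₀, hJ₀⟩ : ∃ J₀, J₀ + 3 * r = l + 6 * s + 3 * c + 7 := ⟨l + 6 * s + 3 * c + 7 - 3 * r, by omega⟩
  obtain ⟨J, hJ⟩ : ∃ J, J + 1 = h' + J₀ := ⟨h' + J₀ - 1, by omega⟩
  have q2 : q ≠ 2 := by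
    rintro rfl
    have := (Nat.pow_le_pow_iff_right one_lt_two).1 (a4.trans_eq (pow_one 2).symm)
    omega
  have d1 : r + 1 ≤ 2 ^ s := by omega
  have W : 2 ^ (J + 1 + (r + 1)) * 2 ^ (4 * s) * 2 ^ (r + 1) ≤ q := by
    rw [← pow_add, ← pow_add]
    exact (Nat.pow_le_pow_right two_pos (by omega)).trans a4
  obtain ⟨N, hN⟩ : ∃ N, N = 2 * (r + 1) * (2 ^ (4 * s) *
    (r + 1 - 1 + 2 * (r + 1 + 1) * 2 ^ (J + 1)).choose (2 * (r + 1 + 1) * 2 ^ (J + 1))) := ⟨_, rfl⟩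
  have N1 : N ≤ 2 ^ (1 + 5 * s + (J + 6) * r) := by
    have b1 := choose_le (r := r) (m := 2 * (r + 1 + 1) * 2 ^ (J + 1)) (M := 2 ^ (J + 4))
      (le_trans (by norm_num) (Nat.pow_le_pow_right two_pos (by omega : 2 ≤ J + 4))) (by
        rw [show r * 2 ^ (J + 4) = 8 * r * 2 ^ (J + 1) by ring]
        exact Nat.mul_le_mul_right _ (by omega))
    rw [hN, Nat.add_sub_cancel]
    calc _ ≤ 2 * 2 ^ s * (2 ^ (4 * s) * (4 * 2 ^ (J + 4)) ^ r) := by gcongr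
      _ = _ := by rw [show 4 * 2 ^ (J + 4) = 2 ^ (J + 6) by ring, ← pow_mul]; ring
  have := core BX_thm MU_thm (FM_thm BX_thm) SG_thm LV_thm SW_thm KD_thm ψ q2 hd hc hab h1 h2 qa qb
    (δ := δ) (J := J + 1) (S := 2 ^ (4 * s)) (m := δ * 2 ^ J) (by positivity) hJ (by omega) p1 ?_
    hN rfl ?_ ?_ ?_ (le_trans (Nat.le_mul_of_pos_right _ (by positivity)) W) ?_
  · refine le_trans (Nat.mul_le_mul_right _ (le_of_not_ge fun hle => this ?_)) W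
    exact (pow_dvd_pow _ hle).trans hn
  · have b1 : r + 1 ≤ 2 ^ J := le_trans (by omega) Nat.lt_two_pow_self.le
    have b2 : (c + 1) * (r + 1) ≤ δ * 2 ^ J := Nat.mul_le_mul (by omega) b1
    rw [pow_succ]
    linarith
  · calc _ ≤ 2 ^ s * 2 ^ ((3 * c + 5) * (r + 1)) * (2 ^ (l + 1) * 2 ^ (1 + 5 * s + (J + 6) * r)) := by
          gcongr
      _ = _ := by
        rw [hδ, Nat.add_sub_cancel, ← pow_add, ← pow_add, ← pow_add, ← pow_add, ← pow_mul, ← pow_add]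
        congr 1
        nlinarith
  · exact ar4 hδ a2 a6 (by omega) (by omega) N1
  · have b1 : 2 * 2 ^ δ + 1 ≤ 2 ^ (δ + 2) := by
      have := Nat.one_le_two_pow (n := δ)
      rw [pow_add]; omega
    have b2 : 2 * (r + 1) + 1 ≤ 2 ^ (4 * s) :=
      le_trans (by omega) (a2.trans (Nat.pow_le_pow_right two_pos (by omega)))
    refine Nat.mul_le_mul ((Nat.pow_le_pow_left b1 _).trans ?_) b2
    rw [← pow_mul]
    refine Nat.pow_le_pow_right two_pos ?_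
    have : l + 1 ≤ J + 1 + 3 * (r + 1) := by omega
    nlinarith
  · rw [← pow_mul, mul_right_comm, pow_mul]
    refine Nat.pow_lt_pow_left (lt_of_lt_of_le (Nat.pow_lt_pow_right one_lt_two ?_) a4)
      (by positivity)
    nlinarith

theorem log_small (K l : ℕ) (h : 2 ^ (K + 6) ≤ l) : K * (Nat.log 2 l + 1) ≤ l := by
  have h1 : K + 6 ≤ Nat.log 2 l := Nat.le_log_of_pow_le one_lt_two h
  have h2 : 2 ^ Nat.log 2 l ≤ l := Nat.pow_log_le_self 2 (by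
    have := Nat.one_le_two_pow (n := K + 6); omega)
  have h3 : ∀ n, (n + 7) ^ 2 ≤ 2 ^ (n + 6) := by
    intro n
    induction n with
    | zero => norm_num
    | succ n ih => 
      calc (n + 1 + 7) ^ 2 ≤ 2 * (n + 7) ^ 2 := by ring_nf; omega
        _ ≤ 2 * 2 ^ (n + 6) := by omega
        _ = _ := by ring
  obtain ⟨n, hn⟩ : ∃ n, Nat.log 2 l = n + 6 := ⟨Nat.log 2 l - 6, by omega⟩
  rw [hn] at h1 h2 ⊢
  have := h3 n
  nlinarith

/-- The uniform bound. -/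
theorem unif : ∃ M Q : ℕ, 0 < M ∧ ∀ (a b : ℤ) (h q n : ℕ), q.Prime → Q ≤ q →
    a.natAbs ≠ b.natAbs → |a| ≤ 2 ^ h → |b| ≤ 2 ^ h → ¬ (q : ℤ) ∣ a → ¬ (q : ℤ) ∣ b → h ^ M ≤ q →
    (q : ℤ) ^ n ∣ a ^ (q - 1) - b ^ (q - 1) → n ^ M * q ≤ q ^ M := by
  obtain ⟨c, hc⟩ := TW_thm
  obtain ⟨E, hE⟩ : ∃ E, E = 16 * (2 ^ (3 * c + 14) + 1) := ⟨_, rfl⟩
  have E0 : 0 < E := by rw [hE]; positivity
  obtain ⟨K, hK⟩ : ∃ K, K = 4 * E * (3 * c + 22) := ⟨_, rfl⟩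
  refine ⟨4 * E, c + 1 + 2 ^ 2 ^ (K + 6), by omega, fun a b h q n hq hQ hab h1 h2 qa qb hh hn => ?_⟩
  have : Fact q.Prime := ⟨hq⟩
  obtain ⟨l, hl⟩ : ∃ l, l = Nat.log 2 q := ⟨_, rfl⟩
  have l1 : 2 ^ l ≤ q := hl ▸ Nat.pow_log_le_self 2 hq.ne_zero
  have l2 : q < 2 ^ (l + 1) := hl ▸ Nat.lt_pow_succ_log_self one_lt_two q
  have l3 : 2 ^ (K + 6) ≤ l := hl ▸ Nat.le_log_of_pow_le one_lt_two (le_trans (Nat.le_add_left _ _) hQ)
  obtain ⟨s, hs⟩ : ∃ s, s = Nat.log 2 (l + 1) + 1 := ⟨_, rfl⟩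
  have s1 : l + 1 < 2 ^ s := hs ▸ Nat.lt_pow_succ_log_self one_lt_two _
  have s2 : K * s ≤ l + 1 := hs ▸ log_small K (l + 1) (by omega)
  have s3 : 1 ≤ s := by omega
  have e1 : 2 ≤ (l + 1) / E := by
    rw [Nat.le_div_iff_mul_le E0]
    refine le_trans ?_ s2
    rw [hK]
    nlinarith [Nat.zero_le (E * c * s), Nat.mul_le_mul_left E s3]
  obtain ⟨j, hj⟩ : ∃ j, Nat.log 2 ((l + 1) / E) = j + 1 :=
    ⟨Nat.log 2 ((l + 1) / E) - 1, by have := Nat.log_pos one_lt_two e1; omega⟩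
  obtain ⟨d, hd⟩ : ∃ d, d = 2 ^ (j + 1) := ⟨_, rfl⟩
  have d1 : d * E ≤ l + 1 := by
    rw [← Nat.le_div_iff_mul_le E0, hd, ← hj]
    exact Nat.pow_log_le_self 2 (by omega)
  have d2 : l + 1 < 2 * d * E := by
    rw [← Nat.div_lt_iff_lt_mul E0, hd, ← pow_succ', ← hj]
    exact Nat.lt_pow_succ_log_self one_lt_two _
  have d3 : 2 * ((3 * c + 22) * s) < d := by
    refine lt_of_mul_lt_mul_right (a := 2 * E) ?_ (Nat.zero_le _)
    rw [hK] at s2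
    nlinarith
  have q3 : q ≤ (2 ^ d) ^ (2 * E) := by
    rw [← pow_mul]
    exact l2.le.trans (Nat.pow_le_pow_right two_pos (by nlinarith))
  have d4 : 2 * Nat.log 2 h ≤ d := by
    rcases Nat.eq_zero_or_pos h with rfl | h0
    · simp
    have b1 : (2 ^ Nat.log 2 h) ^ (4 * E) ≤ (2 ^ d) ^ (2 * E) :=
      (Nat.pow_le_pow_left (Nat.pow_log_le_self 2 h0.ne') _).trans (hh.trans q3)
    rw [← pow_mul, ← pow_mul, Nat.pow_le_pow_iff_right one_lt_two] at b1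
    exact le_of_mul_le_mul_right (a := 2 * E) (by nlinarith) (by omega)
  obtain ⟨L, _, _, hL, L1, L2, ⟨ψ⟩⟩ := hc q (lt_of_lt_of_le (Nat.lt_succ_self c) (le_trans (Nat.le_add_right _ _) hQ)) j
  rw [← hd] at L1
  have h3 := key (c := c) (l := l) (s := s) (h' := Nat.log 2 h + 2) ψ L1 (L1 ▸ L2) hab h1 h2 qa qb
    (by have := Nat.lt_pow_succ_log_self one_lt_two h; rw [pow_succ]; omega)
    (by rw [← hE, mul_comm]; exact d1) s1.le (by nlinarith) l1 l2.le hn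
  calc n ^ (4 * E) * q ≤ n ^ (4 * E) * (2 ^ d) ^ (4 * E) :=
        Nat.mul_le_mul_left _ (q3.trans (Nat.pow_le_pow_right (by positivity) (by omega)))
    _ ≤ _ := by rw [← mul_pow]; exact Nat.pow_le_pow_left h3 _

theorem le_rpow {n q M : ℕ} (hM : 0 < M) (hq : 0 < q) (h : n ^ M * q ≤ q ^ M) :
    (n : ℝ) ≤ (q : ℝ) ^ (1 - (M : ℝ)⁻¹) := by
  have q0 : (0 : ℝ) < q := by exact_mod_cast hq
  have M0 : (M : ℝ) ≠ 0 := by positivity
  refine le_of_pow_le_pow_left₀ hM.ne' (by positivity) ?_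
  rw [← Real.rpow_natCast, ← Real.rpow_natCast, ← Real.rpow_mul q0.le, sub_mul, one_mul,
    inv_mul_cancel₀ M0, Real.rpow_sub q0, Real.rpow_one, le_div_iff₀ q0, Real.rpow_natCast,
    Real.rpow_natCast]
  exact_mod_cast h

theorem VB_thm : VB := by
  obtain ⟨M, Q, hM, H⟩ := unif
  refine ⟨(M : ℝ)⁻¹, by positivity, fun a b ha hb hab => ?_⟩
  obtain ⟨h, hh⟩ : ∃ h, h = a.natAbs + b.natAbs := ⟨_, rfl⟩
  have h1 : (h : ℤ) ≤ 2 ^ h := by exact_mod_cast Nat.lt_two_pow_self.le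
  refine ⟨Q + h ^ M + h + 1, fun q n hq hQ hn => le_rpow hM hq.pos (H a b h q n hq (by omega) hab
    (by rw [Int.abs_eq_natAbs]; omega) (by rw [Int.abs_eq_natAbs]; omega) (fun c => ?_) (fun c => ?_)
    (by omega) hn)⟩
  · have := Nat.le_of_dvd (Int.natAbs_pos.2 ha) (Int.natCast_dvd.1 c)
    omega
  · have := Nat.le_of_dvd (Int.natAbs_pos.2 hb) (Int.natCast_dvd.1 c)
    omega

end Pool.Agent.Lib.MP_de9007_nt.PS
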