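import Pool.Agent.Lib.MP_de9007_nt.PS.Aux1

/-! Extrapolation and descent. -/

namespace Pool.Agent.Lib.MP_de9007_nt.PS

open NumberField

variable {L : Type} [Field L] [NumberField L] {q : ℕ} [hq : Fact q.Prime] {ι κ : Type} [Fintype κ]

/-- The fixed data of the auxiliary function. -/
structure Dat (ψ : L →+* ℚ_[q]) (γ : ι → L) (c k : ι → ℤ) (w x : ι → κ → ℤ) (g : L) (φ : κ → L)
    (Dn : ℤ) (G J S : ℕ) : Prop where
  odd : q ≠ 2
  card : Fintype.card κ + 1 = Module.finrank ℚ L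
  S0 : 0 < S
  D0 : Dn ≠ 0
  D1 : |Dn| ≤ G
  int : ∀ i j, IsIntegral ℤ (Dn * (γ i / γ j))
  le : ∀ i j (σ : L →+* ℂ), ‖σ (Dn * (γ i / γ j))‖ ≤ G
  rel : ∃ (D : ℕ) (n : κ → κ → ℤ), 0 < D ∧ ∀ i m, D * x i m = ∑ a, n m a * w i a
  rep : ∀ i, γ i ^ 2 = g ^ k i * ∏ m, φ m ^ x i m
  ng : ‖ψ g‖ = 1
  nφ : ∀ m, ‖ψ (φ m)‖ = 1
  nγ : ∀ i, ‖ψ (γ i)‖ = 1
  small : ‖ψ g ^ (q - 1) - 1‖ ≤ (q : ℝ) ^ (-((2 ^ (J + Module.finrank ℚ L) * S : ℕ) : ℤ))
  Wq : 2 ^ (J + Module.finrank ℚ L) * S ≤ q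
  Y : ∀ (I : Finset ι) (τ : Multiset κ), τ.card ≤ 2 * (Module.finrank ℚ L + 1) * 2 ^ J →
    ∑ i ∈ I, |c i * mon (w i) τ| ≤ (G ^ (4 * S) : ℕ)
  lt : G ^ (8 * Module.finrank ℚ L) < q ^ 2 ^ J

/-- Vanishing of the auxiliary function at `s` for all monomials of degree at most `m`. -/
def Van (c : ι → ℤ) (w : ι → κ → ℤ) (I : Finset ι) (u : ι → L) (s m : ℕ) : Prop :=
  ∀ τ : Multiset κ, τ.card ≤ m → ∑ i ∈ I, ((c i * mon (w i) τ : ℤ) : L) * u i ^ s = 0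

variable {ψ : L →+* ℚ_[q]} {γ : ι → L} {c k : ι → ℤ} {w x : ι → κ → ℤ} {g : L} {φ : κ → L}
  {Dn : ℤ} {G J S : ℕ}

theorem Dat.ne (H : Dat ψ γ c k w x g φ Dn G J S) (i : ι) : γ i ≠ 0 := by
  intro h
  have := H.nγ i
  simp [h] at this

theorem Dat.G0 (H : Dat ψ γ c k w x g φ Dn G J S) : 0 < G := by
  have := abs_pos.2 H.D0
  have := H.D1
  omega

theorem near (hSW : SW) (H : Dat ψ γ c k w x g φ Dn G J S) {I : Finset ι} {i₀ : ι} {u : ι → L}
    {r : ι → ℚ_[q]} {j : ℕ} (hu : ∀ i ∈ I, u i ^ 2 ^ j * γ i₀ = γ i)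
    (hr : ∀ i ∈ I, ‖r i - 1‖ < 1 ∧ r i ^ 2 = ψ (u i)) {S' t m : ℕ} (h1 : 2 * S' ≤ q)
    (h2 : S' * t ≤ 2 ^ (J + Module.finrank ℚ L) * S)
    (hV : ∀ s, Odd s → s < 2 * S' → Van c w I u s m) (τ : Multiset κ) (hτ : τ.card + t ≤ m)
    (z : ℕ) : ‖∑ i ∈ I, ((c i * mon (w i) τ : ℤ) : ℚ_[q]) * r i ^ z‖ ≤
      (q : ℝ) ^ (-((S' * t : ℕ) : ℤ)) := by
  classical
  obtain ⟨D, n, hD, hn⟩ := H.rel
  have hq1 : (1 : ℝ) ≤ q := by exact_mod_cast hq.out.one_le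
  have hc : q.Coprime 2 := (Nat.coprime_primes hq.out Nat.prime_two).2 H.odd
  refine hSW q (S' * t) t (2 ^ (j + 2)) ι κ I (fun i => c i * mon (w i) τ) k x r (ψ g)
    (ψ (γ i₀) ^ 2) (fun m => ψ (φ m)) ((Finset.range S').image fun s => 2 * (2 * s + 1))
    (h2.trans H.Wq) ?_ ?_ ?_ (fun i hi => (hr i hi).1) H.ng (by rw [norm_pow, H.nγ, one_pow])
    H.nφ (H.small.trans (zpow_le_zpow_right₀ hq1 (by omega))) ?_ ?_ z
  · exact (Nat.Prime.coprime_iff_not_dvd hq.out).1 (hc.pow_right _)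
  · rw [Finset.card_image_of_injective _ fun a b h => by simpa using h, Finset.card_range]
  · intro z hz z' hz' hd
    obtain ⟨s, hs, rfl⟩ := Finset.mem_image.1 hz
    obtain ⟨s', hs', rfl⟩ := Finset.mem_image.1 hz'
    rw [Finset.mem_range] at hs hs'
    have e : ((2 * (2 * s + 1) : ℕ) : ℤ) - (2 * (2 * s' + 1) : ℕ) = 2 ^ 2 * ((s : ℤ) - s') := by
      push_cast; ring
    rw [e] at hd
    have h3 : (q : ℤ) ∣ (s : ℤ) - s' :=
      ((Nat.isCoprime_iff_coprime.2 hc).pow_right (n := 2)).dvd_of_dvd_mul_left hd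
    have h4 := Int.eq_zero_of_abs_lt_dvd h3 (by rw [abs_lt]; constructor <;> omega)
    omega
  · intro i hi
    have e1 := congrArg ψ (H.rep i)
    rw [← hu i hi] at e1
    simp only [map_mul, map_pow, map_zpow₀, map_prod] at e1
    rw [← e1, ← (hr i hi).2]
    ring
  · intro z hz τ' hτ'
    obtain ⟨s, hs, rfl⟩ := Finset.mem_image.1 hz
    rw [Finset.mem_range] at hs
    have h3 := transfer I c w x (fun i => u i ^ (2 * s + 1)) hD n hn
      (hV (2 * s + 1) ⟨s, rfl⟩ (by omega)) τ' τ (by omega)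
    have h4 := congrArg ψ h3
    rw [map_sum, map_zero] at h4
    rw [← h4]
    refine Finset.sum_congr rfl fun i hi => ?_
    rw [map_mul, map_intCast, map_pow, pow_mul, (hr i hi).2]

theorem pw_lt (H : Dat ψ γ c k w x g φ Dn G J S) {μ f e : ℕ}
    (h : (4 * S + μ) * f ≤ 8 * Module.finrank ℚ L * (2 ^ e * S)) :
    (G ^ (4 * S) * G ^ μ) ^ f < q ^ (2 ^ J * (2 ^ e * S)) := by
  have := H.S0
  rw [← pow_add, ← pow_mul, pow_mul q]
  refine (Nat.pow_le_pow_right H.G0 h).trans_lt ?_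
  rw [pow_mul]
  exact Nat.pow_lt_pow_left H.lt (by positivity)

theorem ext_int (hLV : LV) (hSW : SW) (H : Dat ψ γ c k w x g φ Dn G J S) {I : Finset ι} {i₀ : ι}
    {u : ι → L} {r : ι → ℚ_[q]} {j t : ℕ} (hj : j + 1 + t = J)
    (hu : ∀ i ∈ I, u i ^ 2 ^ j * γ i₀ = γ i)
    (hr : ∀ i ∈ I, ‖r i - 1‖ < 1 ∧ r i ^ 2 = ψ (u i))
    (hV : ∀ s, Odd s → s < 2 ^ (j + 1) * S →
      Van c w I u s (2 * (Module.finrank ℚ L + 1) * 2 ^ (t + 1)))
    (e : ℕ) (he : e ≤ Module.finrank ℚ L) : ∀ s, Odd s → s < 2 ^ (j + 1 + e) * S →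
      Van c w I u s ((2 * (Module.finrank ℚ L + 1) - e) * 2 ^ (t + 1)) := by
  induction e with
  | zero => exact hV
  | succ e ih =>
    intro s _ hs τ hτ
    obtain ⟨d, hd⟩ : ∃ d, d = Module.finrank ℚ L := ⟨_, rfl⟩
    have hW := H.Wq
    have e1 : 2 ^ (j + e) * S * 2 ^ (t + 1) = 2 ^ J * (2 ^ e * S) := by rw [← hj]; ring
    have e2 : 2 ^ J * (2 ^ e * S) ≤ 2 ^ (J + Module.finrank ℚ L) * S := by
      rw [← mul_assoc, ← pow_add]
      exact Nat.mul_le_mul_right _ (Nat.pow_le_pow_right two_pos (by omega))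
    have h1 := near hSW H hu hr (S' := 2 ^ (j + e) * S) (t := 2 ^ (t + 1))
      (m := (2 * (Module.finrank ℚ L + 1) - e) * 2 ^ (t + 1)) (le_trans ?_ hW) (e1 ▸ e2)
      (fun s h1 h2 => ih (by omega) s h1 (h2.trans_eq (by ring)))
      τ ?_ (2 * s)
    · rw [e1] at h1
      refine zero_of (L := L) hLV ψ I (fun i => γ i / γ i₀) H.D0 H.D1 (fun i _ => H.int i i₀)
        (fun i _ => H.le i i₀) u (e := 2 ^ j) (μ := 2 ^ (e + 2) * S) (by positivity)
        (fun i hi => ?_) ?_ (fun i => c i * mon (w i) τ) (Y := G ^ (4 * S))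
        (pow_pos H.G0 _) (H.Y I τ (hτ.trans ?_)) le_rfl ?_ (pw_lt (e := e) H ?_)
      · rw [Algebra.algebraMap_self, RingHom.id_apply, eq_div_iff (H.ne i₀), hu i hi]
      · refine hs.le.trans (le_of_eq ?_)
        ring
      · exact Nat.mul_le_mul (Nat.sub_le _ _) (Nat.pow_le_pow_right two_pos (by omega))
      · refine le_trans (le_of_eq ?_) h1
        congr 1
        exact Finset.sum_congr rfl fun i hi => by rw [pow_mul, (hr i hi).2]
      · have : S ≤ 2 ^ e * S := Nat.le_mul_of_pos_left _ (by positivity)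
        rw [← hd, show 2 ^ (e + 2) * S = 4 * (2 ^ e * S) by ring]
        nlinarith
    · rw [← mul_assoc, ← pow_succ']
      exact Nat.mul_le_mul_right _ (Nat.pow_le_pow_right two_pos (by omega))
    · have : 2 * (Module.finrank ℚ L + 1) - e = 2 * (Module.finrank ℚ L + 1) - (e + 1) + 1 := by
        omega
      rw [this, add_mul, one_mul]
      omega

variable (ψ γ c w J S) in
/-- The state of the descent after `j` steps. -/
def St (j : ℕ) : Prop := ∃ (I : Finset ι) (i₀ : ι) (u : ι → L), i₀ ∈ I ∧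
  (∀ i ∈ I, u i ^ 2 ^ j * γ i₀ = γ i) ∧ (∀ i ∈ I, ‖ψ (u i) - 1‖ < 1) ∧ (∃ i ∈ I, c i ≠ 0) ∧
  ∀ s, Odd s → s < 2 ^ (j + 1) * S →
    Van c w I u s (2 * (Module.finrank ℚ L + 1) * 2 ^ (J - j))

theorem rel_one (H : Dat ψ γ c k w x g φ Dn G J S) {I : Finset ι} {i₀ : ι}
    {u : ι → L} {r : ι → ℚ_[q]} {j : ℕ} (hu : ∀ i ∈ I, u i ^ 2 ^ j * γ i₀ = γ i)
    (hr : ∀ i ∈ I, ‖r i - 1‖ < 1 ∧ r i ^ 2 = ψ (u i)) (n : ι → ℤ)
    (h1 : ∑ i ∈ I, n i * (k i - k i₀) = 0) (h2 : ∀ m, ∑ i ∈ I, n i * (x i m - x i₀ m) = 0) :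
    ∏ i ∈ I, r i ^ n i = 1 := by
  refine pu_eq_one H.odd (pu_prod I _ fun i hi => pu_zpow (hr i hi).1 _) (j + 2) ?_
  have g0 : ψ g ≠ 0 := by intro h; have := H.ng; simp [h] at this
  have φ0 : ∀ m, ψ (φ m) ≠ 0 := by intro m h; have := H.nφ m; simp [h] at this
  have e1 : ∀ i ∈ I, r i ^ 2 ^ (j + 2) =
      ψ g ^ (k i - k i₀) * ∏ m, ψ (φ m) ^ (x i m - x i₀ m) := by
    intro i hi
    have a1 := congrArg ψ (H.rep i)
    have a2 := congrArg ψ (H.rep i₀)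
    rw [← hu i hi] at a1
    simp only [map_mul, map_pow, map_zpow₀, map_prod] at a1 a2
    have a3 : ψ (γ i₀) ^ 2 ≠ 0 := pow_ne_zero _ ((map_ne_zero ψ).2 (H.ne i₀))
    refine mul_right_cancel₀ a3 ?_
    have a4 : r i ^ 2 ^ (j + 2) * ψ (γ i₀) ^ 2 = (ψ (u i) ^ 2 ^ j * ψ (γ i₀)) ^ 2 := by
      rw [← (hr i hi).2]; ring
    rw [a4, a1, a2, mul_mul_mul_comm, ← zpow_add₀ g0, ← Finset.prod_mul_distrib, sub_add_cancel]
    congr 1
    exact Finset.prod_congr rfl fun m _ => by rw [← zpow_add₀ (φ0 m), sub_add_cancel]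
  have e2 : ∀ (y : ℚ_[q]) (f : ι → ℤ), y ≠ 0 → ∏ i ∈ I, y ^ f i = y ^ ∑ i ∈ I, f i := by
    intro y f hy
    classical
    generalize I = A
    induction A using Finset.induction_on with
    | empty => simp
    | insert a s ha ih => rw [Finset.prod_insert ha, Finset.sum_insert ha, zpow_add₀ hy, ih]
  rw [← Finset.prod_pow]
  have e3 : ∀ i ∈ I, (r i ^ n i) ^ 2 ^ (j + 2) = ψ g ^ (n i * (k i - k i₀)) *
      ∏ m, ψ (φ m) ^ (n i * (x i m - x i₀ m)) := by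
    intro i hi
    rw [← zpow_natCast, ← zpow_mul, mul_comm, zpow_mul, zpow_natCast, e1 i hi, mul_zpow,
      ← Finset.prod_zpow, ← zpow_mul, mul_comm (n i)]
    congr 1
    exact Finset.prod_congr rfl fun m _ => by rw [← zpow_mul, mul_comm]
  rw [Finset.prod_congr rfl e3, Finset.prod_mul_distrib, Finset.prod_comm, e2 _ _ g0, h1,
    zpow_zero, one_mul]
  exact Finset.prod_eq_one fun m _ => by rw [e2 _ _ (φ0 m), h2, zpow_zero]

theorem St.succ (hLV : LV) (hSW : SW) (hKD : KD) (H : Dat ψ γ c k w x g φ Dn G J S) {j : ℕ}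
    (hj : j < J) (h : St ψ γ c w J S j) : St ψ γ c w J S (j + 1) := by
  obtain ⟨I, i₀, u, -, hu, hp, ⟨i₁, hi₁, hc⟩, hV⟩ := h
  obtain ⟨t, ht⟩ : ∃ t, j + 1 + t = J := ⟨J - (j + 1), by omega⟩
  rw [show J - j = t + 1 by omega] at hV
  have h0 : ∀ i, ∃ r : ℚ_[q], i ∈ I → ‖r - 1‖ < 1 ∧ r ^ 2 = ψ (u i) := by
    intro i
    by_cases hi : i ∈ I
    · exact (pu_sqrt H.odd (hp i hi)).imp fun r hr _ => hr
    · exact ⟨0, fun h => absurd h hi⟩
  choose r hr using h0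
  have r0 : ∀ i ∈ I, r i ≠ 0 := by
    intro i hi h
    have := pu_norm (hr i hi).1
    simp [h] at this
  have hE := ext_int hLV hSW H ht hu hr hV _ le_rfl
  let _ : Algebra L ℚ_[q] := ψ.toAlgebra
  have hψ : ∀ y, algebraMap L ℚ_[q] y = ψ y := fun _ => rfl
  obtain ⟨⟨F, hF, hF1, hF2⟩, hK⟩ := hKD L ℚ_[q] ι (Option κ) I r u
    (fun i o => o.elim (k i - k i₀) fun m => x i m - x i₀ m) r0 (fun i hi => (hr i hi).2)
    fun n hn => rel_one H hu hr n (hn none) fun m => hn (some m)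
  obtain ⟨I', u', s1, s2, s3, s4⟩ := hK i₁ hi₁
  have a1 : ∀ i ∈ I, r i ^ 2 ^ (j + 1) = ψ (γ i / γ i₀) := by
    intro i hi
    rw [pow_succ', pow_mul, (hr i hi).2, ← map_pow, ← hu i hi, mul_div_cancel_right₀ _ (H.ne i₀)]
  refine ⟨I', i₁, u', s2, fun i hi => ψ.injective ?_, fun i hi => ?_, ⟨i₁, s2, hc⟩,
    fun s hs hs' τ hτ => s4 _ s hs ?_⟩
  · have a2 := congrArg (· ^ 2 ^ (j + 1)) (s3 i hi)
    simp only [mul_pow, hψ] at a2
    rw [a1 i (s1 hi), a1 i₁ hi₁, map_div₀, map_div₀, ← mul_div_assoc,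
      div_left_inj' ((map_ne_zero ψ).2 (H.ne i₀))] at a2
    rw [map_mul, map_pow, a2]
  · rw [← hψ, eq_div_of_mul_eq (r0 i₁ hi₁) (s3 i hi), div_eq_mul_inv]
    exact pu_mul (hr i (s1 hi)).1 (pu_inv (hr i₁ hi₁).1)
  · rw [show J - (j + 1) = t by omega] at hτ
    obtain ⟨d, hd⟩ : ∃ d, d = Module.finrank ℚ L := ⟨_, rfl⟩
    have e1 : 2 ^ (j + d) * S * 2 ^ (t + 1) = 2 ^ J * (2 ^ d * S) := by rw [← ht]; ring
    have h1 := near hSW H hu hr (S' := 2 ^ (j + d) * S) (t := 2 ^ (t + 1))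
      (m := (2 * (Module.finrank ℚ L + 1) - Module.finrank ℚ L) * 2 ^ (t + 1))
      (le_trans ?_ H.Wq) (by rw [e1, ← hd]; exact le_of_eq (by ring))
      (fun s h1 h2 => hE s h1 (h2.trans_eq (by rw [← hd]; ring))) τ ?_ s
    · rw [e1] at h1
      have : CharZero F := algebraRat.charZero F
      have : FiniteDimensional ℚ F := Module.Finite.trans L F
      have : NumberField F := {}
      classical
      let ρ : ι → F := fun i => if h : i ∈ I then ⟨r i, hF2 i h⟩ else 0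
      have hρ : ∀ i ∈ I, F.val.toRingHom (ρ i) = r i := fun i hi => by simp [ρ, hi]
      have h2 := zero_of (L := L) hLV F.val.toRingHom I (fun i => γ i / γ i₀) H.D0 H.D1
        (fun i _ => H.int i i₀) (fun i _ => H.le i i₀) ρ (e := 2 ^ (j + 1)) (s := s) (μ := 2 * S)
        (by positivity) (fun i hi => F.val.toRingHom.injective (by
          rw [map_pow, hρ i hi, a1 i hi]; rfl)) (hs'.le.trans (le_of_eq (by ring)))
        (fun i => c i * mon (w i) τ) (Y := G ^ (4 * S)) (pow_pos H.G0 _)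
        (H.Y I τ (hτ.trans (Nat.mul_le_mul_left _ (Nat.pow_le_pow_right two_pos (by omega)))))
        (f := d * 2 ^ d) (n := 2 ^ J * (2 ^ d * S)) ?_ ?_ (pw_lt H ?_)
      · have h3 := congrArg F.val.toRingHom h2
        rw [map_sum, map_zero] at h3
        rw [← h3]
        exact Finset.sum_congr rfl fun i hi => by
          rw [map_mul, map_pow, hρ i hi, map_intCast, map_intCast]
      · rw [← Module.finrank_mul_finrank ℚ L F, ← hd]
        rw [Fintype.card_option, H.card, ← hd] at hF1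
        exact Nat.mul_le_mul_left _ hF1
      · refine le_trans (le_of_eq ?_) h1
        congr 1
        exact Finset.sum_congr rfl fun i hi => by rw [hρ i hi]
      · rw [← hd]
        nlinarith [Nat.zero_le (S * (d * 2 ^ d))]
    · rw [← mul_assoc, ← pow_succ', ← hd]
      exact Nat.mul_le_mul_right _ (Nat.pow_le_pow_right two_pos (by omega))
    · rw [← hd] at hτ ⊢
      rw [show 2 * (d + 1) - d = d + 2 by omega, pow_succ]
      nlinarith

theorem St.card (H : Dat ψ γ c k w x g φ Dn G J S) (hγ : Function.Injective γ) (hJ : 0 < J)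
    (h : St ψ γ c w J S J) : ∃ (I : Finset ι) (i₀ : ι) (u : ι → L), 2 ^ J * S < I.card ∧
      ∀ i ∈ I, u i ^ 2 ^ J * γ i₀ = γ i := by
  obtain ⟨I, i₀, u, -, hu, -, ⟨i₁, hi₁, hc⟩, hV⟩ := h
  refine ⟨I, i₀, u, lt_of_not_ge fun hle => hc ?_, hu⟩
  let e := I.equivFin.symm
  have u0 : u i₁ ≠ 0 := by
    intro h
    have := hu i₁ hi₁
    rw [h, zero_pow (by positivity), zero_mul] at this
    exact H.ne i₁ this.symm
  have h1 := Matrix.eq_zero_of_forall_pow_sum_mul_pow_eq_zero (f := fun a => u (e a) ^ 2)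
    (v := fun a => (c (e a) : L) * u (e a)) (fun a b hab => ?_) fun n => ?_
  · have h2 := congrFun h1 (e.symm ⟨i₁, hi₁⟩)
    simpa [u0] using h2
  · apply e.injective
    refine Subtype.ext (hγ ?_)
    obtain ⟨J', rfl⟩ : ∃ J', J = J' + 1 := ⟨J - 1, by omega⟩
    rw [← hu _ (e a).2, ← hu _ (e b).2, pow_succ', pow_mul, pow_mul]
    exact congrArg (fun y => y ^ 2 ^ J' * γ i₀) hab
  · have h2 := hV (2 * n + 1) ⟨n, rfl⟩ (by have := n.2; rw [pow_succ']; nlinarith) 0 (by simp)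
    rw [← Finset.sum_coe_sort, ← e.sum_comp] at h2
    rw [← h2]
    exact Finset.sum_congr rfl fun a _ => by rw [mon_zero, mul_one]; ring

end Pool.Agent.Lib.MP_de9007_nt.PS
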